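import Pool.Agent.AllCyc.Defs
import Pool.Agent.CycSyl.Iso

/-! Noncommutative Hecke relations. -/

set_option autoImplicit false

namespace Pool.Agent.AllCyc

open Pool.Agent.CycSyl Pool.Agent.CycSyl.Hz

variable {R : Type*} [Ring R] (w : NW R)

theorem X_one : X 1 = {1} := by
  ext x
  simp only [mem_X, Finset.mem_singleton]
  constructor
  · rintro ⟨h1, h2⟩
    have h3 : OP (x * 1) := by rwa [mul_one]
    exact unit_OP (y := 1) (by rw [nrm_one]; decide) OP_one (by simpa using h2) h3
  · rintro rfl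
    exact ⟨OP_one, by rw [nrm_one]; norm_num⟩

theorem S_one : w.S 1 = 1 := by
  unfold NW.S
  rw [X_one, Finset.sum_singleton, w.one]

theorem g_eps_mul (t : ℕ) (x : Hz ℤ) : w.g (sc (eps t) * x) = w.g x := by
  rcases eps_or t with h | h
  · rw [h, map_one, one_mul]
  · rw [h, map_neg, map_one, neg_one_mul, w.neg x]

/-- scalars commute with everything -/
theorem g_sc_comm (n : ℤ) (m : ℕ) : w.g (sc n) * w.S m = w.S m * w.g (sc n) := by
  unfold NW.S
  rw [Finset.mul_sum, Finset.sum_mul]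
  apply Finset.sum_congr rfl
  intro x _
  rw [← w.mul, ← w.mul, sc_comm]

open Classical in
/-- the raw relation -/
theorem hecke_raw {l : ℕ} (hl : l.Prime) (hl22 : l.Coprime 22) {m : ℕ} :
    w.S m * w.S l = w.S (l * m) +
      (l : R) * ∑ b ∈ (X (l * m)).filter (fun b => sc (l : ℤ) ∣ b), w.g b := by
  have h11 := ne11_of hl22
  have hs0 : (l : ℤ) ≠ 0 := by exact_mod_cast hl.ne_zero
  have step1 : w.S m * w.S l =
      ∑ y ∈ X l, ∑ b ∈ (X (l * m)).filter (fun b => LM b y), w.g b := by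
    unfold NW.S
    rw [Finset.sum_mul_sum, Finset.sum_comm]
    apply Finset.sum_congr rfl
    intro y hy
    have hy' := mem_X.1 hy
    apply Finset.sum_nbij (fun x => x * y)
    · intro x hx
      rw [mem_X] at hx
      rw [Finset.mem_filter, mem_X]
      refine ⟨⟨OP_mul hx.1 hy'.1, ?_⟩, x, rfl⟩
      rw [nrm_mul, hx.2, hy'.2]; push_cast; ring
    · intro x _ x' _ h
      have hy0 : y ≠ 0 := by
        rintro rfl; rw [nrm_zero] at hy'; exact hs0 hy'.2.symm
      exact mul_right_cancel₀ hy0 h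
    · intro b hb
      simp only [Finset.coe_filter, Set.mem_ofPred_eq, mem_X] at hb
      obtain ⟨⟨hb1, hb2⟩, x, hx⟩ := hb
      have hyn0 : ((nrm y : ℤ) : ZMod 11) ≠ 0 := by rw [hy'.2]; exact zmod_ne_zero_of_prime hl h11
      have hxO : InO x := by
        apply InO_left hy'.1.1 hyn0
        rw [← hx]; exact hb1.1
      refine ⟨x, ?_, hx.symm⟩
      simp only [Finset.mem_coe, mem_X]
      refine ⟨⟨hxO, ?_⟩, ?_⟩
      · apply Sq_div' (b := lam y) hy'.1.2
        rw [← lam_mul hxO hy'.1.1, ← hx]; exact hb1.2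
      · have : nrm x * l = m * l := by
          rw [← hy'.2, ← nrm_mul, ← hx, hb2, hy'.2]; push_cast; ring
        exact mul_right_cancel₀ hs0 this
    · intro x _
      rw [w.mul]
  have step2 : ∑ y ∈ X l, ∑ b ∈ (X (l * m)).filter (fun b => LM b y), w.g b =
      ∑ b ∈ X (l * m), (if sc (l : ℤ) ∣ b then ((l : R) + 1) * w.g b else w.g b) := by
    simp only [Finset.sum_filter]
    rw [Finset.sum_comm]
    apply Finset.sum_congr rfl
    intro b hb
    rw [← Finset.sum_filter, Finset.sum_const, card_LM hl h11, nsmul_eq_mul]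
    · split_ifs
      · rw [card_X hl hl22]; push_cast; rfl
      · simp
    · rw [(mem_X.1 hb).2]; push_cast; exact dvd_mul_right _ _
  rw [step1, step2, Finset.sum_filter, Finset.mul_sum]
  unfold NW.S
  rw [← Finset.sum_add_distrib]
  apply Finset.sum_congr rfl
  intro b _
  split_ifs
  · noncomm_ring
  · simp

theorem hecke_ndvd {l : ℕ} (hl : l.Prime) (hl22 : l.Coprime 22) {m : ℕ} (_hm : m.Coprime 22)
    (hlm : ¬ l ∣ m) : w.S m * w.S l = w.S (l * m) := by
  classical
  rw [hecke_raw w hl hl22, Finset.filter_false_of_mem, Finset.sum_empty, mul_zero, add_zero]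
  intro x hx h
  apply hlm
  have h1 := sc_dvd_nrm h
  rw [(mem_X.1 hx).2, sq] at h1
  have h2 : l * l ∣ l * m := by exact_mod_cast h1
  exact Nat.dvd_of_mul_dvd_mul_left hl.pos h2

open Classical in
/-- the elements divisible by `l` -/
theorem sum_scale {l : ℕ} (hl : l.Coprime 22) (hl0 : l ≠ 0) {n : ℕ} :
    ∑ b ∈ (X (l * (l * n))).filter (fun b => sc (l : ℤ) ∣ b), w.g b =
      w.g (sc (l : ℤ)) * w.S n := by
  have hsz : (l : ℤ) ≠ 0 := by exact_mod_cast hl0
  unfold NW.S
  rw [Finset.mul_sum]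
  symm
  apply Finset.sum_nbij (fun z => sc (eps l) * (sc (l : ℤ) * z))
  · intro z hz
    simp only [Finset.mem_filter, mem_X] at hz ⊢
    obtain ⟨⟨h1, h2⟩, h3⟩ := hz
    refine ⟨⟨⟨?_, ?_⟩, ?_⟩, ?_⟩
    · exact InO_mul (InO_sc _) (InO_mul (InO_sc _) h1)
    · rw [lam_mul (InO_sc _) (InO_mul (InO_sc _) h1), lam_mul (InO_sc _) h1, lam_sc, lam_sc,
        ← mul_assoc]
      exact Sq_mul (by have := Sq_eps (cast11 hl); simpa using this) h2
    · rw [nrm_mul, nrm_mul, nrm_sc, nrm_sc, h3]
      have := eps_sq l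
      push_cast
      linear_combination ((l : ℤ) ^ 2 * n) * this
    · exact sc_dvd_mul_left _ ⟨z, rfl⟩
  · intro z _ z' _ h
    have he : (eps l) ≠ 0 := by rcases eps_or l with h | h <;> rw [h] <;> norm_num
    exact sc_inj_mul hsz (sc_inj_mul he h)
  · intro x hx
    simp only [Finset.coe_filter, Set.mem_ofPred_eq, mem_X] at hx
    obtain ⟨⟨⟨h1, h2⟩, h3⟩, z, hz⟩ := hx
    refine ⟨sc (eps l) * z, ?_, ?_⟩
    · simp only [Finset.mem_coe, mem_X]
      have hzO : InO z := by
        apply InO_of_sc_mul (n := l) (by simpa using cast11 hl)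
        rw [← hz]; exact h1
      refine ⟨⟨InO_mul (InO_sc _) hzO, ?_⟩, ?_⟩
      · rw [lam_mul (InO_sc _) hzO, lam_sc]
        rw [hz, lam_mul (InO_sc _) hzO, lam_sc] at h2
        apply Sq_div (a := (eps l : ℤ) * (l : ZMod 11)) (Sq_eps (cast11 hl))
        have := eps_sq l
        have h5 : ((eps l : ℤ) : ZMod 11) * ((eps l : ℤ) : ZMod 11) = 1 := by
          rw [← Int.cast_mul, this, Int.cast_one]
        have h6 : ((eps l : ℤ) : ZMod 11) * (l : ZMod 11) * (((eps l : ℤ) : ZMod 11) * lam z) =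
            ((l : ℤ) : ZMod 11) * lam z := by
          rw [Int.cast_natCast]
          linear_combination ((l : ZMod 11) * lam z) * h5
        rw [h6]; exact h2
      · have h7 : nrm x = l ^ 2 * nrm z := by rw [hz, nrm_mul, nrm_sc]
        rw [nrm_mul, nrm_sc]
        have := eps_sq l
        have h8 : (l : ℤ) ^ 2 * nrm z = l ^ 2 * n := by
          rw [← h7, h3]; push_cast; ring
        have h9 := mul_left_cancel₀ (pow_ne_zero 2 hsz) h8
        rw [h9]
        linear_combination (n : ℤ) * this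
    · show sc (eps l) * (sc (l : ℤ) * (sc (eps l) * z)) = x
      rw [hz]
      have : sc (eps l) * (sc (l : ℤ) * (sc (eps l) * z)) =
          sc (eps l * eps l) * (sc (l : ℤ) * z) := by
        rw [map_mul, mul_assoc, ← mul_assoc (sc (l : ℤ)) (sc (eps l)) z,
          sc_comm (l : ℤ) (sc (eps l)), mul_assoc]
      rw [this, eps_sq, map_one, one_mul]
  · intro z _
    rw [g_eps_mul, w.mul]

theorem hecke_dvd {l : ℕ} (hl : l.Prime) (hl22 : l.Coprime 22) {n : ℕ} (_hn : n.Coprime 22) :
    w.S (l * n) * w.S l = w.S (l * (l * n)) + (l : R) * (w.g (sc (l : ℤ)) * w.S n) := by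
  classical
  rw [hecke_raw w hl hl22, sum_scale w hl22 hl.ne_zero]

/-- powers of a prime killed by the weight -/
theorem S_pow {s : ℕ} (hs : s.Prime) (hs22 : s.Coprime 22) (h0 : w.g (sc (s : ℤ)) = 0) (k : ℕ) :
    w.S (s ^ k) = w.S s ^ k := by
  induction k with
  | zero => rw [pow_zero, pow_zero, S_one]
  | succ k ih =>
    rcases k with _ | k
    · simp
    · have h := hecke_dvd w hs hs22 (n := s ^ k) (hs22.pow_left k)
      rw [h0, zero_mul, mul_zero, add_zero, ← pow_succ', ← pow_succ', ih] at h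
      rw [← h, ← pow_succ]

/-- multiplicativity for a power of another prime -/
theorem S_mul_pow {q m : ℕ} (hq : q.Prime) (hq22 : q.Coprime 22) (hm : m.Coprime 22)
    (hqm : ¬ q ∣ m) (j : ℕ) : w.S m * w.S (q ^ j) = w.S (q ^ j * m) := by
  have key : ∀ j, w.S m * w.S (q ^ j) = w.S (q ^ j * m) ∧
      w.S m * w.S (q ^ (j + 1)) = w.S (q ^ (j + 1) * m) := by
    intro j
    induction j with
    | zero =>
      refine ⟨by rw [pow_zero, S_one, mul_one, one_mul], ?_⟩
      rw [zero_add, pow_one]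
      exact hecke_ndvd w hq hq22 hm hqm
    | succ j ih =>
      refine ⟨ih.2, ?_⟩
      have h1 := hecke_dvd w hq hq22 (n := q ^ j) (hq22.pow_left j)
      have h2 := hecke_dvd w hq hq22 (n := q ^ j * m) (cop_mul (hq22.pow_left j) hm)
      have e1 : q * q ^ j = q ^ (j + 1) := (pow_succ' q j).symm
      have e2 : q * q ^ (j + 1) = q ^ (j + 1 + 1) := (pow_succ' q (j + 1)).symm
      have e3 : q * (q ^ j * m) = q ^ (j + 1) * m := by rw [← mul_assoc, e1]
      have e4 : q * (q ^ (j + 1) * m) = q ^ (j + 1 + 1) * m := by rw [← mul_assoc, e2]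
      rw [e1, e2] at h1
      rw [e3, e4] at h2
      have h3 : w.S (q ^ (j + 1 + 1)) = w.S (q ^ (j + 1)) * w.S q -
          (q : R) * (w.g (sc (q : ℤ)) * w.S (q ^ j)) := by rw [h1]; abel
      have h4 : w.S (q ^ (j + 1 + 1) * m) = w.S (q ^ (j + 1) * m) * w.S q -
          (q : R) * (w.g (sc (q : ℤ)) * w.S (q ^ j * m)) := by rw [h2]; abel
      rw [h3, h4, mul_sub, ← mul_assoc (w.S m) (w.S (q ^ (j + 1))), ih.2]
      congr 1
      rw [← mul_assoc (w.S m) (q : R), ← (Nat.cast_commute q (w.S m)).eq, mul_assoc (q : R),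
        ← mul_assoc (w.S m), ← g_sc_comm, mul_assoc (w.g _), ih.1]
  exact (key j).1

/-- the trivial weight -/
def triv : NW ℤ := ⟨fun _ => 1, fun _ _ => (one_mul 1).symm, fun _ => rfl, rfl⟩

theorem triv_S (n : ℕ) : triv.S n = ((X n).card : ℤ) := by
  unfold NW.S triv
  simp

/-- the number of elements: `|X(q^(j+2))| - q |X(q^j)| = 1 + q^(j+2)` -/
theorem card_X_pow {q : ℕ} (hq : q.Prime) (hq22 : q.Coprime 22) (j : ℕ) :
    (((X (q ^ (j + 2))).card : ℤ)) - q * (X (q ^ j)).card = 1 + (q : ℤ) ^ (j + 2) := by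
  have hrec : ∀ j, ((X (q ^ (j + 2))).card : ℤ) =
      (q + 1) * ((X (q ^ (j + 1))).card : ℤ) - q * ((X (q ^ j)).card : ℤ) := by
    intro j
    have h1 := hecke_dvd triv hq hq22 (n := q ^ j) (hq22.pow_left j)
    have e1 : q * q ^ j = q ^ (j + 1) := (pow_succ' q j).symm
    have e2 : q * q ^ (j + 1) = q ^ (j + 2) := (pow_succ' q (j + 1)).symm
    rw [e1, e2, triv_S, triv_S, triv_S, triv_S, card_X hq hq22] at h1
    have h2 : triv.g (sc (q : ℤ)) = 1 := rfl
    rw [h2] at h1
    push_cast at h1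
    linear_combination -h1
  have step : ∀ j, ((X (q ^ (j + 1))).card : ℤ) = 1 + q * ((X (q ^ j)).card : ℤ) ∧
      ((X (q ^ (j + 1))).card : ℤ) = (q : ℤ) ^ (j + 1) + ((X (q ^ j)).card : ℤ) := by
    intro j
    induction j with
    | zero =>
      rw [pow_zero, X_one, zero_add, pow_one, card_X hq hq22]
      simp; ring
    | succ j ih =>
      have := hrec j
      constructor
      · linear_combination this + ih.1
      · rw [this]
        have h2 := ih.2
        have h3 : (q : ℤ) ^ (j + 1 + 1) = q * (q : ℤ) ^ (j + 1) := pow_succ' _ _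
        rw [h3]
        linear_combination q * h2
  have h1 := (step (j + 1)).2
  have h2 := (step j).1
  have e : j + 1 + 1 = j + 2 := rfl
  rw [e] at h1
  linear_combination h1 + h2

/-- `X n` is stable under conjugation up to sign: reindexing -/
theorem sum_conj {M : Type*} [AddCommMonoid M] {n : ℕ} (hn : n.Coprime 22) (f : Hz ℤ → M)
    (hf : ∀ x, f (-x) = f x) : ∑ x ∈ X n, f (conj x) = ∑ x ∈ X n, f x := by
  apply Finset.sum_nbij' (star' n) (star' n)
  · intro x hx; exact star'_mem hn hx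
  · intro x hx; exact star'_mem hn hx
  · intro x _; exact star'_star' n x
  · intro x _; exact star'_star' n x
  · intro x _
    unfold star'
    rcases eps_or n with h | h
    · rw [h, map_one, one_mul]
    · rw [h, map_neg, map_one, neg_one_mul, hf]

end Pool.Agent.AllCyc
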