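import Pool.Agent.AllCyc.RepM
import Pool.Agent.AllCyc.Hecke
import Pool.Agent.CycSyl.Iso

/-! Traces as labelled counts, and the rotation identity for labelled counts. -/

set_option autoImplicit false

namespace Pool.Agent.AllCyc

open Pool.Agent.CycSyl Pool.Agent.CycSyl.Hz

variable {s p : ℕ} [Fact s.Prime] (L : LG s p)

/-- the representation of the Hurwitz order as a weight -/
noncomputable def wr (Φ : Hz ℤ →+* Matrix (Fin 2) (Fin 2) (ZMod s)) :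
    NW (Matrix (PL s) (PL s) (GA p)) where
  g x := rho L (Φ x)
  mul x y := by rw [map_mul, rho_mul]
  neg x := by rw [map_neg, rho_neg]
  one := by rw [map_one, rho_one]

/-- the labelled side condition -/
def Pd (k : ℕ) (d : ZMod p) (x : Hz ℤ) : Prop :=
  ¬ (s : ℤ) ∣ tr x ∧ ∃ n : ℤ, nrm x = (s : ℤ) ^ k * n ∧ ¬ (s : ℤ) ∣ n ∧
    2 * L.lg ((tr x : ℤ) : ZMod s) = d + L.lg ((n : ℤ) : ZMod s)

section
variable {L}

private theorem cast_ne {n : ℤ} (h : ¬ (s : ℤ) ∣ n) : ((n : ℤ) : ZMod s) ≠ 0 := by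
  intro h0
  exact h ((ZMod.intCast_zmod_eq_zero_iff_dvd n s).1 h0)

private theorem sprime : Prime (s : ℤ) := Nat.prime_iff_prime_int.1 (Fact.out : s.Prime)

private theorem sq_ndvd {q : ℕ} (hq : q.Prime) (hsq : s ≠ q) : ¬ (s : ℤ) ∣ (q : ℤ) := by
  intro h
  have h1 : s ∣ q := by exact_mod_cast h
  exact hsq ((Nat.prime_dvd_prime_iff_eq (Fact.out : s.Prime) hq).1 h1)

private theorem Pd_scale {k : ℕ} {d : ZMod p} {q : ℕ} (hq : q.Prime) (hsq : s ≠ q)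
    {x y : Hz ℤ} (ht : tr y = q * tr x) (hn : nrm y = (q : ℤ) ^ 2 * nrm x) :
    Pd L k d y ↔ Pd L k d x := by
  have hsp := sprime (s := s)
  have hqn := sq_ndvd (s := s) hq hsq
  have hq0 : ((q : ℤ) : ZMod s) ≠ 0 := cast_ne hqn
  have hq2 : ¬ (s : ℤ) ∣ (q : ℤ) ^ 2 := fun h => hqn (hsp.dvd_of_dvd_pow h)
  unfold Pd
  rw [ht, hn]
  have e1 : (s : ℤ) ∣ q * tr x ↔ (s : ℤ) ∣ tr x :=
    ⟨fun h => (hsp.dvd_or_dvd h).resolve_left hqn, fun h => h.mul_left _⟩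
  rw [e1]
  constructor
  · rintro ⟨h1, n, h2, h3, h4⟩
    refine ⟨h1, ?_⟩
    have hco : IsCoprime ((s : ℤ) ^ k) ((q : ℤ) ^ 2) := by
      apply IsCoprime.pow
      exact (hsp.coprime_iff_not_dvd).2 hqn
    have hd : (s : ℤ) ^ k ∣ nrm x := hco.dvd_of_dvd_mul_left (h2 ▸ dvd_mul_right _ _)
    obtain ⟨m, hm⟩ := hd
    have hsk : (s : ℤ) ^ k ≠ 0 := pow_ne_zero _ hsp.ne_zero
    have hnm : n = (q : ℤ) ^ 2 * m := by
      apply mul_left_cancel₀ hsk
      rw [← h2, hm]; ring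
    have hm3 : ¬ (s : ℤ) ∣ m := fun h => h3 (hnm ▸ h.mul_left _)
    refine ⟨m, hm, hm3, ?_⟩
    rw [hnm] at h4
    push_cast at h4
    have ht0 := cast_ne h1
    have hm0 := cast_ne hm3
    have hqc : ((q : ℕ) : ZMod s) ≠ 0 := by exact_mod_cast hq0
    rw [L.mul _ _ hqc ht0, L.mul _ _ (pow_ne_zero 2 hqc) hm0, sq, L.mul _ _ hqc hqc] at h4
    linear_combination h4
  · rintro ⟨h1, m, h2, h3, h4⟩
    refine ⟨h1, (q : ℤ) ^ 2 * m, by rw [h2]; ring, ?_, ?_⟩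
    · intro h
      rcases hsp.dvd_or_dvd h with h | h
      · exact hq2 h
      · exact h3 h
    · have ht0 := cast_ne h1
      have hm0 := cast_ne h3
      have hqc : ((q : ℕ) : ZMod s) ≠ 0 := by exact_mod_cast hq0
      push_cast
      rw [L.mul _ _ hqc ht0, L.mul _ _ (pow_ne_zero 2 hqc) hm0, sq, L.mul _ _ hqc hqc]
      linear_combination h4

end

theorem Pd_inv (k : ℕ) (d : ZMod p) {q : ℕ} (hq : q.Prime) (hsq : s ≠ q) :
    PInv q (Pd L k d) := by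
  refine ⟨fun x => ?_, fun x => ?_, fun x y hy => ?_⟩
  · unfold Pd
    rw [tr_neg, nrm_neg, dvd_neg, Int.cast_neg, L.neg]
  · exact Pd_scale hq hsq (tr_sc_mul _ _) (by rw [nrm_mul, nrm_sc])
  · exact Pd_scale hq hsq (by rw [tr_conj_mul_mul, hy])
      (by rw [nrm_mul, nrm_mul, nrm_conj, hy]; ring)

open Classical in
/-- trace of `S N` for `s ∣ N` -/
theorem cf_trace_count (Φ : Hz ℤ →+* Matrix (Fin 2) (Fin 2) (ZMod s))
    (hdet : ∀ x, (Φ x).det = ((nrm x : ℤ) : ZMod s))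
    (htr : ∀ x, (Φ x).trace = ((tr x : ℤ) : ZMod s)) {N : ℕ} (hN : s ∣ N) (c : ZMod p) :
    cf c (((wr L Φ).S N).trace) = (((X N).filter
      (fun x => ¬ (s : ℤ) ∣ tr x ∧ L.lg ((tr x : ℤ) : ZMod s) = c)).card : ℤ) := by
  unfold NW.S
  rw [Matrix.trace_sum, map_sum, Finset.card_filter, Nat.cast_sum]
  apply Finset.sum_congr rfl
  intro x hx
  have hn : nrm x = N := (mem_X.1 hx).2
  have hd : (Φ x).det = 0 := by
    rw [hdet, hn, ZMod.intCast_zmod_eq_zero_iff_dvd]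
    exact_mod_cast hN
  have h1 : ((wr L Φ).g x).trace = if (Φ x).trace = 0 then 0 else gs (L.lg (Φ x).trace) :=
    rho_trace_sing L hd
  rw [h1, htr]
  by_cases h : (s : ℤ) ∣ tr x
  · have h0 : ((tr x : ℤ) : ZMod s) = 0 := (ZMod.intCast_zmod_eq_zero_iff_dvd _ s).2 h
    rw [if_pos h0, map_zero, if_neg (fun h' => h'.1 h)]
    rfl
  · have h0 : ((tr x : ℤ) : ZMod s) ≠ 0 := cast_ne h
    rw [if_neg h0, cf_gs]
    by_cases h2 : L.lg ((tr x : ℤ) : ZMod s) = c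
    · rw [if_pos h2, if_pos ⟨h, h2⟩]; rfl
    · rw [if_neg h2, if_neg (fun h' => h2 h'.2)]; rfl

/-- the trivial weight -/
def wtriv : Wt ℤ where
  g _ := 1
  mul _ _ _ _ := by norm_num
  neg _ _ := rfl
  conj _ _ := by norm_num
  int _ _ := rfl

open Classical in
theorem T_triv (P : Hz ℤ → Prop) (n : ℕ) : T wtriv P n = (((X n).filter P).card : ℤ) := by
  rw [T_def]
  simp [wtriv]

open Classical in
/-- the labelled count for two primes -/
theorem count_main (hp : p.Prime) (hp2 : p ≠ 2) (hs22 : s.Coprime 22)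
    (Φ : Hz ℤ →+* Matrix (Fin 2) (Fin 2) (ZMod s))
    (hdet : ∀ x, (Φ x).det = ((nrm x : ℤ) : ZMod s))
    (htr : ∀ x, (Φ x).trace = ((tr x : ℤ) : ZMod s))
    {q : ℕ} (hq : q.Prime) (hq22 : q.Coprime 22) (hsq : s ≠ q) {j k : ℕ} (hk : 1 ≤ k)
    (hj : p ∣ 2 * j + 3) (c : ZMod p) :
    cf c (((wr L Φ).S (q ^ (2 * j + 3) * s ^ k)).trace) -
      q * cf c (gs (L.lg (q : ZMod s)) * ((wr L Φ).S (q ^ (2 * j + 1) * s ^ k)).trace) =
    (((X (q ^ (2 * j + 3) * s ^ k)).filter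
      (fun x => Pd L k (2 * c) x ∧ ¬ (q : ℤ) ∣ tr x)).card : ℤ) +
    (((X (q * s ^ k)).filter (fun x => Pd L k (2 * c) x ∧ (q : ℤ) ∣ tr x)).card : ℤ) := by
  have : Fact p.Prime := ⟨hp⟩
  have hsp := sprime (s := s)
  have hqn := sq_ndvd (s := s) hq hsq
  have hq0 : ((q : ℕ) : ZMod s) ≠ 0 := by
    have := cast_ne hqn
    exact_mod_cast this
  have hsk0 : (s : ℤ) ^ k ≠ 0 := pow_ne_zero _ hsp.ne_zero
  have hsd : ∀ e, s ∣ q ^ e * s ^ k := fun e => Dvd.dvd.mul_left (dvd_pow_self s (by omega)) _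
  have h2 : (2 : ZMod p) ≠ 0 := by
    have : ((2 : ℕ) : ZMod p) ≠ 0 := by
      intro h
      rw [ZMod.natCast_eq_zero_iff] at h
      exact hp2 ((Nat.prime_dvd_prime_iff_eq hp Nat.prime_two).1 h)
    exact_mod_cast this
  have hlgpow : ∀ e : ℕ, L.lg (((q : ℕ) : ZMod s) ^ (e + 1)) = (e + 1 : ℕ) * L.lg (q : ZMod s) := by
    intro e
    induction e with
    | zero => simp
    | succ e ih =>
      rw [pow_succ, L.mul _ _ (pow_ne_zero _ hq0) hq0, ih]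
      push_cast; ring
  have hj0 : (((2 * j + 3 : ℕ)) : ZMod p) = 0 := (ZMod.natCast_eq_zero_iff _ _).2 hj
  -- the conditions agree
  have hP : ∀ (e : ℕ) (c' : ZMod p), (2 * c + (e + 1 : ℕ) * L.lg (q : ZMod s) = 2 * c') →
      T wtriv (Pd L k (2 * c)) (q ^ (e + 1) * s ^ k) =
      cf c' (((wr L Φ).S (q ^ (e + 1) * s ^ k)).trace) := by
    intro e c' hc
    rw [cf_trace_count L Φ hdet htr (hsd _), T_triv]
    congr 2
    apply Finset.filter_congr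
    intro x hx
    have hn : nrm x = ((q ^ (e + 1) * s ^ k : ℕ) : ℤ) := (mem_X.1 hx).2
    unfold Pd
    constructor
    · rintro ⟨h1, n, h3, h4, h5⟩
      refine ⟨h1, ?_⟩
      have hnn : n = (q : ℤ) ^ (e + 1) := by
        apply mul_left_cancel₀ hsk0
        rw [← h3, hn]; push_cast; ring
      rw [hnn] at h5
      push_cast at h5
      rw [hlgpow, hc] at h5
      exact mul_left_cancel₀ h2 h5
    · rintro ⟨h1, h3⟩
      refine ⟨h1, (q : ℤ) ^ (e + 1), by rw [hn]; push_cast; ring, ?_, ?_⟩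
      · intro h
        exact hqn (hsp.dvd_of_dvd_pow h)
      · push_cast
        rw [hlgpow, hc, h3]
  have hTV := T_V wtriv hq hq22 (m := s ^ k) (hs22.pow_left k) (by
    intro h
    have := hq.dvd_of_dvd_pow h
    exact hsq ((Nat.prime_dvd_prime_iff_eq hq (Fact.out : s.Prime)).1 this).symm)
    (Pd_inv L k (2 * c) hq hsq) j
  rw [card_X hq hq22] at hTV
  rw [cf_gs_mul]
  have e1 := hP (2 * j + 2) c (by
    have : (((2 * j + 2 + 1 : ℕ)) : ZMod p) = 0 := by exact_mod_cast hj0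
    rw [this]; ring)
  have e2 := hP (2 * j) (c - L.lg (q : ZMod s)) (by
    have h3 : (((2 * j + 1 : ℕ)) : ZMod p) = -2 := by
      push_cast at hj0 ⊢
      linear_combination hj0
    rw [h3]; ring)
  rw [T_triv (fun x => Pd L k (2 * c) x ∧ ¬ (q : ℤ) ∣ tr x),
    T_triv (fun x => Pd L k (2 * c) x ∧ (q : ℤ) ∣ tr x)] at hTV
  have e3 : 2 * j + 2 + 1 = 2 * j + 3 := by ring
  rw [e3] at e1
  rw [e1, e2] at hTV
  have e4 : (((q + 1 : ℕ) : ℤ) - 1) = (q : ℤ) := by push_cast; ring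
  rw [e4] at hTV
  rw [hTV]
  congr!

end Pool.Agent.AllCyc
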