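import Pool.Agent.CycSyl.Label2

/-!
Definitions for the class group theorem for all odd primes: the group ring `ℤ[C_p]`, discrete
logarithms modulo a prime `s` with values in `ZMod p`, and the representation of the 2x2
matrices over `ZMod s` on labelled functions on the projective line.
-/

set_option autoImplicit false

namespace Pool.Agent.AllCyc

open Pool.Agent.CycSyl Pool.Agent.CycSyl.Hz

/-! ### the group ring -/

/-- the group ring of the cyclic group of order `p` -/
abbrev GA (p : ℕ) := AddMonoidAlgebra ℤ (ZMod p)

/-- group elements -/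
noncomputable def gs {p : ℕ} (c : ZMod p) : GA p := AddMonoidAlgebra.single c 1

/-- the involution `g ↦ g⁻¹` -/
noncomputable def ig (p : ℕ) : GA p →+* GA p :=
  AddMonoidAlgebra.mapDomainRingHom ℤ (-(AddMonoidHom.id (ZMod p)))

/-- the augmentation -/
noncomputable def au (p : ℕ) : GA p →+* ℤ :=
  (AddMonoidAlgebra.lift ℤ ℤ (ZMod p) 1).toRingHom

/-- the sum of all group elements -/
noncomputable def NN (p : ℕ) [NeZero p] : GA p := ∑ c : ZMod p, gs c

/-- conjugate transpose -/
def dg {A : Type*} [CommRing A] (ι : A →+* A) {I : Type*} (M : Matrix I I A) : Matrix I I A :=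
  (M.map ι).transpose

/-! ### discrete logarithms -/

/-- a surjective homomorphism from the nonzero residues modulo `s` to `ZMod p`, all of whose
fibres have `m` elements -/
structure LG (s p : ℕ) [NeZero s] where
  lg : ZMod s → ZMod p
  mul : ∀ a b, a ≠ 0 → b ≠ 0 → lg (a * b) = lg a + lg b
  neg : ∀ a, lg (-a) = lg a
  m : ℕ
  fib : ∀ c : ZMod p,
    ((Finset.univ : Finset (ZMod s)).filter (fun a => a ≠ 0 ∧ lg a = c)).card = m

/-! ### the projective line and the representation -/

/-- the projective line over `ZMod s` -/
abbrev PL (s : ℕ) := Option (ZMod s)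

/-- representatives of the lines -/
def vec {s : ℕ} : PL s → Fin 2 → ZMod s
  | some a => ![1, a]
  | none => ![0, 1]

open Classical in
/-- the representation: column `P` of `rho Y` has the entry `[lg c]` in row `Q` if
`Y v_P = c v_Q`, `c ≠ 0` -/
noncomputable def rho {s p : ℕ} [NeZero s] (L : LG s p) (Y : Matrix (Fin 2) (Fin 2) (ZMod s)) :
    Matrix (PL s) (PL s) (GA p) :=
  Matrix.of fun Q P => ∑ c ∈ (Finset.univ : Finset (ZMod s)).filter
    (fun c => c ≠ 0 ∧ Y.mulVec (vec P) = c • vec Q), gs (L.lg c)

/-! ### noncommutative weights -/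

/-- a multiplicative weight with values in a ring -/
structure NW (R : Type*) [Ring R] where
  g : Hz ℤ → R
  mul : ∀ x y, g (x * y) = g x * g y
  neg : ∀ x, g (-x) = g x
  one : g 1 = 1

/-- sum over the normalised elements of norm `n` -/
noncomputable def NW.S {R : Type*} [Ring R] (w : NW R) (n : ℕ) : R := ∑ x ∈ X n, w.g x

end Pool.Agent.AllCyc
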