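import Pool.Agent.AllCyc.Defs
import Pool.Agent.CycSyl.Final

/-! Class groups: the split label, elements of order `p^(v+1)`, divisibility. -/

set_option autoImplicit false

namespace Pool.Agent.AllCyc

open Pool.Agent.CycSyl Pool.Agent.CycSyl.Hz NumberField NumberTheorySymbols

/-- the power theorem, with a label not vanishing on `ρ` -/
theorem exists_order' {O : Type*} [CommRing O] [IsDedekindDomain O] {t m : ℤ}
    (D : QData O t m) {p : ℕ} (hp : p.Prime) (Lb : OLab O p) (v : ℕ) {ρ g t1 : ℤ} (hρ : ρ ≠ 0)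
    (hm : m = ρ * g ^ (p ^ (v + 1))) (ht : t = ρ * t1) (hcop : IsCoprime t g)
    (hgρ : Lb.good (ρ : O)) (hgθ : Lb.good D.θ)
    (hfθ : Lb.f D.θ + Lb.f D.θ ≠ Lb.f (ρ : O)) (hunit : ∀ u : O, IsUnit u → Lb.f u = 0) :
    ∃ C : ClassGroup O, orderOf C = p ^ (v + 1) := by
  obtain ⟨n, hn⟩ : ∃ n, n = p ^ (v + 1) := ⟨_, rfl⟩
  have hn0 : n ≠ 0 := by rw [hn]; exact pow_ne_zero _ hp.ne_zero
  rw [← hn] at hm
  have hρO : (ρ : O) ≠ 0 := D.int_ne hρ
  obtain ⟨η, hη⟩ : ∃ η : O, η = (t1 : O) * D.θ - (g : O) ^ n := ⟨_, rfl⟩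
  have htO : (t : O) = (ρ : O) * t1 := by
    have := congrArg (Int.cast : ℤ → O) ht
    push_cast at this; exact this
  have hmO : (m : O) = (ρ : O) * (g : O) ^ n := by
    have := congrArg (Int.cast : ℤ → O) hm
    push_cast at this; exact this
  have h1 : (ρ : O) * η = D.θ * D.θ := by
    rw [hη, D.hθ]
    linear_combination hmO - D.θ * htO
  have hσθ : D.θ * D.σ D.θ = (m : O) := by
    rw [D.hσ]; linear_combination -D.hθ
  have h1' : (ρ : O) * D.σ η = D.σ D.θ * D.σ D.θ := by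
    have := congrArg D.σ h1
    rwa [map_mul, map_mul, map_intCast] at this
  have h2 : η * D.σ η = ((g : O) ^ 2) ^ n := by
    apply mul_left_cancel₀ (mul_ne_zero hρO hρO)
    have e1 : (ρ : O) * ρ * (η * D.σ η) = (D.θ * D.σ D.θ) * (D.θ * D.σ D.θ) := by
      linear_combination (D.σ η * ρ) * h1 + (D.θ * D.θ) * h1'
    rw [e1, hσθ, hmO]; ring
  have h3 : η + D.σ η = ((t1 * t - 2 * g ^ n : ℤ) : O) := by
    rw [hη, map_sub, map_mul, map_pow, map_intCast, map_intCast, D.hσ]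
    push_cast; ring
  have hcop1 : IsCoprime (t1 * t - 2 * g ^ n) ((g ^ 2) ^ n) := by
    apply IsCoprime.pow_right
    apply IsCoprime.pow_right
    have ha : IsCoprime (t1 * t) g := by
      apply IsCoprime.mul_left _ hcop
      apply hcop.of_isCoprime_of_dvd_left
      exact ⟨ρ, by rw [ht]; ring⟩
    have hb : t1 * t - 2 * g ^ n = t1 * t + g * (-2 * g ^ (n - 1)) := by
      obtain ⟨k, rfl⟩ := Nat.exists_eq_succ_of_ne_zero hn0
      simp only [Nat.succ_eq_add_one, Nat.add_sub_cancel]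
      ring
    rw [hb]
    exact ha.add_mul_left_left _
  have hcopO : IsCoprime (Ideal.span {η}) (Ideal.span {D.σ η}) := by
    rw [Ideal.isCoprime_span_singleton_iff]
    obtain ⟨A, B, hAB⟩ := hcop1
    have h4 := congrArg (Int.cast : ℤ → O) hAB
    rw [Int.cast_add, Int.cast_mul, ← h3, Int.cast_mul] at h4
    have h5 : (((g ^ 2) ^ n : ℤ) : O) = η * D.σ η := by rw [h2]; push_cast; ring
    rw [h5, Int.cast_one] at h4
    exact ⟨(A : O) + (B : O) * D.σ η, (A : O), by linear_combination h4⟩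
  have h6 : Ideal.span {η} * Ideal.span {D.σ η} = (Ideal.span {(g : O) ^ 2}) ^ n := by
    rw [Ideal.span_singleton_mul_span_singleton, h2, Ideal.span_singleton_pow]
  obtain ⟨A, hA⟩ := exists_eq_pow_of_mul_eq_pow_of_coprime hcopO h6
  have hθ0 : D.θ ≠ 0 := by
    intro h0
    have := D.indep 0 1 (by rw [h0]; simp)
    exact one_ne_zero this.2
  have hη0 : η ≠ 0 := by
    intro h0
    rw [h0, mul_zero] at h1
    exact hθ0 (mul_self_eq_zero.1 h1.symm)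
  have hA0 : A ≠ 0 := by
    rintro rfl
    rw [zero_pow hn0] at hA
    exact hη0 (Ideal.span_singleton_eq_bot.1 hA)
  have hAm : A ∈ nonZeroDivisors (Ideal O) := mem_nonZeroDivisors_iff_ne_zero.2 hA0
  refine ⟨ClassGroup.mk0 ⟨A, hAm⟩, ?_⟩
  have : Fact p.Prime := ⟨hp⟩
  apply orderOf_eq_prime_pow
  · intro h7
    rw [← map_pow] at h7
    have e2 : (⟨A, hAm⟩ : nonZeroDivisors (Ideal O)) ^ (p ^ v) =
        ⟨A ^ (p ^ v), pow_mem hAm _⟩ := rfl
    rw [e2, ClassGroup.mk0_eq_one_iff] at h7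
    obtain ⟨γ, hγ⟩ := h7
    have h8 : Ideal.span {η} = Ideal.span {γ ^ p} := by
      rw [hA, hn, pow_succ, pow_mul, hγ, ← Ideal.span_singleton_pow]
    rw [Ideal.span_singleton_eq_span_singleton] at h8
    obtain ⟨u, hu⟩ := h8
    -- labels
    have hgη : Lb.good η := by
      have : Lb.good ((ρ : O) * η) := by rw [h1, Lb.good_mul]; exact ⟨hgθ, hgθ⟩
      exact ((Lb.good_mul _ _).1 this).2
    have hfη : Lb.f (ρ : O) + Lb.f η = Lb.f D.θ + Lb.f D.θ := by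
      rw [← Lb.f_mul _ _ hgρ hgη, h1, Lb.f_mul _ _ hgθ hgθ]
    have hgu : Lb.good (u : O) := Lb.good_unit u.isUnit
    have h9 := Lb.f_mul _ _ hgη hgu
    rw [hu, hunit _ u.isUnit, add_zero] at h9
    have hgγ : Lb.good γ := by
      apply Lb.good_of_pow hp.ne_zero
      rw [← hu, Lb.good_mul]; exact ⟨hgη, hgu⟩
    rw [Lb.f_pow p hgγ, ZMod.natCast_self, zero_mul] at h9
    exact hfθ (by rw [← hfη, ← h9, add_zero])
  · rw [← map_pow]
    have e2 : (⟨A, hAm⟩ : nonZeroDivisors (Ideal O)) ^ (p ^ (v + 1)) =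
        ⟨A ^ (p ^ (v + 1)), pow_mem hAm _⟩ := rfl
    rw [e2, ClassGroup.mk0_eq_one_iff, ← hn, ← hA]
    exact ⟨η, rfl⟩

/-- the label at a split prime -/
theorem olab_split {O : Type*} [CommRing O] {t m : ℤ} (D : QData O t m) {s p : ℕ}
    [Fact s.Prime] (L : LG s p) (hsm : (s : ℤ) ∣ m) (hst : ¬ (s : ℤ) ∣ t) :
    ∃ Lb : OLab O p, Lb.good D.θ ∧ Lb.f D.θ = L.lg ((t : ℤ) : ZMod s) ∧
      ∀ n : ℤ, ¬ (s : ℤ) ∣ n → Lb.good (n : O) ∧ Lb.f (n : O) = L.lg ((n : ℤ) : ZMod s) := by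
  have hm0 : (m : ZMod s) = 0 := by
    rw [ZMod.intCast_zmod_eq_zero_iff_dvd]; exact hsm
  have ht0 : (t : ZMod s) ≠ 0 := by
    intro h; exact hst ((ZMod.intCast_zmod_eq_zero_iff_dvd _ _).1 h)
  have hs : (t : ZMod s) * t = (t : ZMod s) * t - (m : ZMod s) := by rw [hm0, sub_zero]
  have hF : ((t ^ 2 - 4 * m : ℤ) : ZMod s) ≠ 0 := by
    push_cast
    rw [hm0, mul_zero, sub_zero]
    exact pow_ne_zero 2 ht0
  obtain ⟨Ψ, hΨ⟩ : ∃ Ψ : O →+* ZMod s, ∀ z, Ψ (D.e z) = ev (t : ZMod s) hs z :=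
    ⟨D.ext (ev (t : ZMod s) hs) _ (inv_mul_cancel₀ hF), D.ext_e _ _ _⟩
  have hΨθ : Ψ D.θ = (t : ZMod s) := by rw [← D.e_omega, hΨ, ev_omega]
  refine ⟨⟨fun w => Ψ w ≠ 0, fun w => L.lg (Ψ w), ?_, ?_, ?_⟩, ?_, ?_, ?_⟩
  · intro a b
    simp only [map_mul, ne_eq, mul_eq_zero, not_or]
  · simp
  · intro a b ha hb
    rw [map_mul]
    exact L.mul _ _ ha hb
  · show Ψ D.θ ≠ 0
    rw [hΨθ]; exact ht0
  · show L.lg (Ψ D.θ) = _
    rw [hΨθ]
  · intro n hn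
    have h3 : Ψ (n : O) = (n : ZMod s) := map_intCast _ _
    refine ⟨?_, ?_⟩
    · show Ψ (n : O) ≠ 0
      rw [h3]
      intro h; exact hn ((ZMod.intCast_zmod_eq_zero_iff_dvd _ _).1 h)
    · show L.lg (Ψ (n : O)) = _
      rw [h3]

/-- the discriminant is negative as soon as `s ∣ N`, `s ∤ tr x` -/
theorem disc_lt' {s : ℕ} (hs : s.Prime) {x : Hz ℤ} (hsn : (s : ℤ) ∣ nrm x)
    (hst : ¬ (s : ℤ) ∣ tr x) : (tr x) ^ 2 < 4 * nrm x := by
  have h4 := four_nrm x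
  have h1 : 4 * nrm x - (tr x) ^ 2 = (2 * x.b + x.d) ^ 2 + (2 * x.c + x.d) ^ 2 + x.d ^ 2 := by
    unfold tr; linarith
  by_contra h
  have h2 : (2 * x.b + x.d) ^ 2 + (2 * x.c + x.d) ^ 2 + x.d ^ 2 ≤ 0 := by linarith
  have hd : x.d = 0 := by
    have : x.d ^ 2 = 0 := by
      nlinarith [sq_nonneg (2 * x.b + x.d), sq_nonneg (2 * x.c + x.d), sq_nonneg x.d]
    exact pow_eq_zero_iff (two_ne_zero) |>.1 this
  rw [hd] at h2
  have hb : x.b = 0 := by
    have : x.b ^ 2 = 0 := by nlinarith [sq_nonneg x.b, sq_nonneg x.c]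
    exact pow_eq_zero_iff (two_ne_zero) |>.1 this
  have hc : x.c = 0 := by
    have : x.c ^ 2 = 0 := by nlinarith [sq_nonneg x.b, sq_nonneg x.c]
    exact pow_eq_zero_iff (two_ne_zero) |>.1 this
  have hxs : x = sc x.a := by ext <;> simp [hb, hc, hd]
  apply hst
  rw [hxs, tr_sc]
  rw [hxs, nrm_sc] at hsn
  exact ((Nat.prime_iff_prime_int.1 hs).dvd_of_dvd_pow hsn).mul_left 2

/-- trace classes are admissible sets -/
theorem eset' {N : ℕ} (hN22 : N.Coprime 22) (t : ℤ) :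
    ESet ((X N).filter (fun x => tr x = t)) t N where
  tr x hx := (Finset.mem_filter.1 hx).2
  nrm x hx := (mem_X.1 (Finset.mem_filter.1 hx).1).2
  cl x hx β x' hβ hβ22 h := by
    rw [Finset.mem_filter, mem_X] at hx ⊢
    obtain ⟨⟨hO, hn⟩, ht⟩ := hx
    have hβn0 : nrm β ≠ 0 := by
      intro h0; rw [h0] at hβ22
      have := hβ22.isUnit_of_dvd' (dvd_zero (22 : ℤ)) dvd_rfl
      rw [Int.isUnit_iff] at this; omega
    have hxA : Adm x := ⟨hO.1, by rw [hn]; exact cop22 hN22⟩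
    have hβA : Adm β := ⟨hβ.1, hβ22⟩
    have hnx' : nrm x' = N := by
      have h1 := congrArg nrm h
      rw [nrm_mul, nrm_mul, hn, mul_comm] at h1
      exact (mul_right_cancel₀ hβn0 h1).symm
    have hO' : InO x' := by
      apply InO_left hβ.1 (cop11 hβ22)
      rw [← h]; exact InO_mul hβ.1 hO.1
    have hx'A : Adm x' := ⟨hO', by rw [hnx']; exact cop22 hN22⟩
    have htr : tr x' = t := by
      have h1 : x' * sc (nrm β) = β * x * conj β := by rw [h, mul_assoc, mul_conj]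
      have h2 := congrArg tr h1
      rw [← sc_comm, tr_sc_mul, tr_mul_comm, ← mul_assoc, conj_mul_self, tr_sc_mul, ht] at h2
      exact mul_left_cancel₀ hβn0 h2
    refine ⟨⟨⟨hO', ?_⟩, hnx'⟩, htr⟩
    have h1 := congrArg lam h
    rw [lam_mul hβ.1 hO.1, lam_mul hO' hβ.1, mul_comm] at h1
    have h2 := mul_right_cancel₀ (Adm_lam hβA) h1
    rw [← h2]; exact hO.2

/-- divisibility of a count by trace classes -/
theorem count_div' (e : ℕ) {N : ℕ} (hN22 : N.Coprime 22) (Q : ℤ → Prop) [DecidablePred Q]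
    (hlt : ∀ x ∈ X N, Q (tr x) → (tr x) ^ 2 < 4 * (N : ℤ))
    (h : ∀ x ∈ X N, Q (tr x) → e ∣ Nat.card (ClassGroup (𝓞 (Kf (tr x) N)))) :
    (e : ℤ) ∣ (((X N).filter (fun x => Q (tr x))).card : ℤ) := by
  classical
  norm_cast
  rw [Finset.card_eq_sum_card_image (fun x => tr x)]
  apply Finset.dvd_sum
  intro t ht
  obtain ⟨x, hx, hxt⟩ := Finset.mem_image.1 ht
  rw [Finset.mem_filter] at hx
  obtain ⟨hx1, hx2⟩ := hx
  have hxt' : tr x = t := hxt
  have h1 := h x hx1 hx2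
  have hlt' := hlt x hx1 hx2
  rw [hxt'] at h1 hx2 hlt'
  have := Kf_numberField hlt'
  have h2 := (qdata hlt').card_dvd (eset' hN22 t)
  have h3 : ((X N).filter (fun x => Q (tr x))).filter (fun x => tr x = t) =
      (X N).filter (fun x => tr x = t) := by
    ext y
    simp only [Finset.mem_filter]
    constructor
    · rintro ⟨⟨h4, _⟩, h6⟩; exact ⟨h4, h6⟩
    · rintro ⟨h4, h6⟩; exact ⟨⟨h4, by rw [h6]; exact hx2⟩, h6⟩
  rw [h3]
  exact h1.trans h2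

/-- divisibility of the class number -/
theorem class_div' {p : ℕ} (hp : p.Prime) (hp5 : 5 ≤ p) (v : ℕ) (H : Type) [CommGroup H]
    [Finite H] (hcyc : IsCyclic H) (hH : Nat.card H = p ^ (v + 1)) {q : ℕ} (hq : q.Prime)
    (hq2 : q ≠ 2)
    (hqf : ∀ K ∈ fam p H, ∀ d' : ℕ, 0 < d' → ¬ p ∣ d' → (∃ z ∈ K, z * z = -((d' : ℤ) : ℂ)) →
      ∃ d : ℕ, 0 < d ∧ J(-(d : ℤ) | q) = -1 ∧ ¬ q ∣ d ∧ ∃ z ∈ K, z * z = -((d : ℤ) : ℂ))
    {s : ℕ} [Fact s.Prime] (L : LG s p) {N : ℕ} {x : Hz ℤ} (hx : x ∈ X N)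
    {ρ g t1 : ℤ} (hm : (N : ℤ) = ρ * g ^ (p ^ (v + 1))) (ht : tr x = ρ * t1)
    (hcop : IsCoprime (tr x) g) (hsg : (s : ℤ) ∣ g) (hsρ : ¬ (s : ℤ) ∣ ρ)
    (hst : ¬ (s : ℤ) ∣ tr x)
    (hlab : 2 * L.lg ((tr x : ℤ) : ZMod s) ≠ L.lg ((ρ : ℤ) : ZMod s))
    (hpF : ¬ (p : ℤ) ∣ tr x ^ 2 - 4 * N)
    {k : ℕ} {N' : ℤ} (hNq : (N : ℤ) = (q : ℤ) ^ (2 * k + 1) * N') (hN' : ¬ (q : ℤ) ∣ N') :
    p ^ (v + 2) ∣ Nat.card (ClassGroup (𝓞 (Kf (tr x) N))) := by
  have hxm := (mem_X.1 hx).2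
  have hs : s.Prime := Fact.out
  have hsN : (s : ℤ) ∣ (N : ℤ) := by
    rw [hm]
    exact (hsg.trans (dvd_pow_self g (pow_ne_zero _ hp.ne_zero))).mul_left ρ
  have hlt : (tr x) ^ 2 < 4 * (N : ℤ) := by
    rw [← hxm]
    exact disc_lt' hs (by rw [hxm]; exact hsN) hst
  have := Kf_numberField hlt
  obtain ⟨Lb, h1, h2, h3⟩ := olab_split (qdata hlt) L hsN hst
  have h4 : ∀ u : 𝓞 (Kf (tr x) N), IsUnit u → Lb.f u = 0 := by
    intro u hu
    have h5 := ((qdata hlt).unit_pow hlt hu).1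
    refine Lb.f_unit_zero 12 (by norm_num) ?_ h5
    rw [ZMod.isUnit_iff_coprime]
    rw [Nat.coprime_comm, Nat.Prime.coprime_iff_not_dvd hp]
    intro h6
    have h7 : p ∣ 2 ^ 2 * 3 := h6
    rcases (Nat.Prime.dvd_mul hp).1 h7 with h8 | h8
    · have h9 := Nat.le_of_dvd (by norm_num) (hp.dvd_of_dvd_pow h8)
      omega
    · have h9 := Nat.le_of_dvd (by norm_num) h8
      omega
  have hρ0 : ρ ≠ 0 := by
    rintro rfl
    exact hsρ (dvd_zero _)
  obtain ⟨C, hC⟩ := exists_order' (qdata hlt) hp Lb v hρ0 hm ht hcop (h3 ρ hsρ).1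
    h1 (by rw [h2, (h3 ρ hsρ).2, ← two_mul]; exact hlab) h4
  by_contra hnd
  have hfam : Kf (tr x) N ∈ fam p H := by
    refine ⟨this, Kf_finrank hlt, ⟨⟨th (tr x) N, th_mem⟩, th_im hlt⟩, ?_⟩
    exact sylow_cyclic hp C hC hnd H hcyc hH
  have hd0 : 0 < 4 * (N : ℤ) - tr x ^ 2 := by linarith
  obtain ⟨d', hd'⟩ := Int.eq_ofNat_of_zero_le hd0.le
  have hd'0 : 0 < d' := by
    rw [hd'] at hd0; exact_mod_cast hd0
  obtain ⟨d, hd, hJ, hqd, z, hz, hzd⟩ := hqf _ hfam d' hd'0 (by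
      intro h
      apply hpF
      have : (p : ℤ) ∣ (d' : ℤ) := by exact_mod_cast h
      rw [← hd'] at this
      have h9 : tr x ^ 2 - 4 * (N : ℤ) = -(4 * (N : ℤ) - tr x ^ 2) := by ring
      rw [h9]
      exact this.neg_right) (by
      refine ⟨2 * th (tr x) N - ((tr x : ℤ) : ℂ), ?_, ?_⟩
      · apply sub_mem
        · apply mul_mem _ th_mem
          simp
        · exact intCast_mem _ _
      · rw [← hd']
        have := th_rel hlt
        push_cast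
        push_cast at this
        linear_combination 4 * this)
  obtain ⟨s', hs'⟩ := sqrt_mem hlt hz (d := (d : ℤ)) (by exact_mod_cast hd) hzd
  exact no_field hq hq2 hJ hqd hNq hN' hs'

end Pool.Agent.AllCyc
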