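import Pool.Agent.AllCyc.KD

/-! `U* U = U U* = s + m N (J - 1)`. -/

set_option autoImplicit false

namespace Pool.Agent.AllCyc

open Pool.Agent.CycSyl Matrix

section

variable {s p : ℕ} [Fact s.Prime] [NeZero p] (L : LG s p)

/-- the group element of a residue, zero on zero -/
noncomputable def ez (a : ZMod s) : GA p := if a = 0 then 0 else gs (L.lg a)

theorem lg_one' : L.lg 1 = 0 := by
  have := L.mul 1 1 one_ne_zero one_ne_zero
  rw [mul_one] at this
  simpa using this

theorem lg_div' {a b : ZMod s} (ha : a ≠ 0) (hb : b ≠ 0) : L.lg (b / a) = L.lg b - L.lg a := by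
  have h := L.mul (b / a) a (div_ne_zero hb ha) ha
  rw [div_mul_cancel₀ b ha] at h
  rw [h]; ring

theorem sum_gs_lg : ∑ r ∈ (Finset.univ : Finset (ZMod s)).filter (fun r => r ≠ 0), gs (L.lg r) =
    (L.m : GA p) * NN p := by
  classical
  have h1 : ∀ r : ZMod s, gs (L.lg r) = ∑ c : ZMod p, if L.lg r = c then gs c else 0 := by
    intro r
    rw [Finset.sum_ite_eq]
    simp
  simp_rw [h1]
  rw [Finset.sum_comm, NN, Finset.mul_sum]
  apply Finset.sum_congr rfl
  intro c _
  rw [← Finset.sum_filter, Finset.filter_filter, Finset.sum_const, L.fib c, nsmul_eq_mul]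

theorem ez_ig_mul {a b : ZMod s} (ha : a ≠ 0) (hb : b ≠ 0) :
    ig p (ez L a) * ez L b = gs (L.lg (b / a)) := by
  rw [ez, ez, if_neg ha, if_neg hb, ig_gs, ← gs_add, lg_div' L ha hb]
  congr 1; ring

theorem ratio_sum {J : Type*} [Fintype J] (a b : J → ZMod s)
    (h : ∀ r : ZMod s, r ≠ 0 → ∃! j, a j ≠ 0 ∧ b j = r * a j) :
    ∑ j, ig p (ez L (a j)) * ez L (b j) = (L.m : GA p) * NN p := by
  classical
  rw [← sum_gs_lg L, ← Finset.sum_filter_add_sum_filter_not _ (fun j => a j ≠ 0 ∧ b j ≠ 0)]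
  have h2 : ∑ j ∈ (Finset.univ : Finset J).filter (fun j => ¬ (a j ≠ 0 ∧ b j ≠ 0)),
      ig p (ez L (a j)) * ez L (b j) = 0 := by
    apply Finset.sum_eq_zero
    intro j hj
    rw [Finset.mem_filter] at hj
    by_cases ha : a j = 0
    · rw [ha, ez, if_pos rfl, map_zero, zero_mul]
    · have hb : b j = 0 := by
        by_contra hb; exact hj.2 ⟨ha, hb⟩
      rw [hb, ez, ez, if_pos rfl, mul_zero]
  rw [h2, add_zero]
  apply Finset.sum_nbij (fun j => b j / a j)
  · intro j hj
    rw [Finset.mem_filter] at hj ⊢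
    exact ⟨Finset.mem_univ _, div_ne_zero hj.2.2 hj.2.1⟩
  · intro j hj j' hj' he
    rw [Finset.mem_coe, Finset.mem_filter] at hj hj'
    have he' : b j / a j = b j' / a j' := he
    apply (h (b j / a j) (div_ne_zero hj.2.2 hj.2.1)).unique
    · exact ⟨hj.2.1, by rw [div_mul_cancel₀ _ hj.2.1]⟩
    · refine ⟨hj'.2.1, ?_⟩
      rw [he', div_mul_cancel₀ _ hj'.2.1]
  · intro r hr
    rw [Finset.mem_coe, Finset.mem_filter] at hr
    obtain ⟨j, ⟨h3, h4⟩, _⟩ := h r hr.2
    refine ⟨j, ?_, ?_⟩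
    · rw [Finset.mem_coe, Finset.mem_filter]
      refine ⟨Finset.mem_univ _, h3, ?_⟩
      rw [h4]; exact mul_ne_zero hr.2 h3
    · show b j / a j = r
      rw [h4, mul_div_assoc, div_self h3, mul_one]
  · intro j hj
    rw [Finset.mem_filter] at hj
    exact ez_ig_mul L hj.2.1 hj.2.2

theorem diag_sum {J : Type*} [Fintype J] (a : J → ZMod s) (hJ : Fintype.card J = s + 1)
    (h : ∃! j, a j = 0) : ∑ j, ig p (ez L (a j)) * ez L (a j) = (s : GA p) := by
  classical
  obtain ⟨j0, hj0, hu⟩ := h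
  have h1 : ∀ j, ig p (ez L (a j)) * ez L (a j) = if j = j0 then 0 else 1 := by
    intro j
    split_ifs with hj
    · rw [hj, hj0, ez, if_pos rfl, mul_zero]
    · have : a j ≠ 0 := fun h => hj (hu j h)
      rw [ez_ig_mul L this this, div_self this, lg_one', gs_zero]
  simp_rw [h1]
  rw [← Finset.add_sum_erase _ _ (Finset.mem_univ j0), if_pos rfl, zero_add,
    Finset.sum_congr rfl (g := fun _ => (1 : GA p))]
  · rw [Finset.sum_const, Finset.card_erase_of_mem (Finset.mem_univ _), Finset.card_univ, hJ]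
    simp
  · intro j hj
    rw [if_neg (Finset.ne_of_mem_erase hj)]

end

section

variable {s p : ℕ} [Fact s.Prime] [NeZero p] (L : LG s p)
variable {α : Type*} {X : Finset α} {Y : α → Matrix (Fin 2) (Fin 2) (ZMod s)} {st : α → α}

/-- factorisation of a rank one matrix -/
theorem exists_fact {M : Matrix (Fin 2) (Fin 2) (ZMod s)} (hM : M ≠ 0) (hdet : M.det = 0) :
    ∃ (Q : PL s) (β : Fin 2 → ZMod s), β ≠ 0 ∧ ∀ v, M.mulVec v = (β ⬝ᵥ v) • vec Q := by
  rw [Matrix.det_fin_two] at hdet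
  have hcol : ∃ (w : Fin 2 → ZMod s) (β : Fin 2 → ZMod s), w ≠ 0 ∧ β ≠ 0 ∧
      ∀ i j, M i j = w i * β j := by
    by_cases h0 : M 0 0 = 0 ∧ M 1 0 = 0
    · refine ⟨fun i => M i 1, ![0, 1], ?_, ?_, ?_⟩
      · intro h
        apply hM
        ext i j
        have h1 := congrFun h i
        fin_cases j
        · fin_cases i
          · exact h0.1
          · exact h0.2
        · exact h1
      · intro h
        have := congrFun h 1
        simp at this
      · intro i j
        fin_cases j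
        · fin_cases i
          · simp [h0.1]
          · simp [h0.2]
        · simp
    · by_cases h1 : M 0 0 = 0
      · have h2 : M 1 0 ≠ 0 := fun h => h0 ⟨h1, h⟩
        refine ⟨fun i => M i 0, ![1, M 1 1 / M 1 0], ?_, ?_, ?_⟩
        · intro h; exact h2 (congrFun h 1)
        · intro h; have := congrFun h 0; simp at this
        · intro i j
          fin_cases j
          · simp
          · fin_cases i
            · simp only [Fin.zero_eta, Fin.mk_one, Matrix.cons_val_one, Matrix.cons_val_fin_one]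
              rw [h1, zero_mul]
              rw [h1, zero_mul, zero_sub, neg_eq_zero] at hdet
              exact (mul_eq_zero.1 hdet).resolve_right h2
            · simp only [Fin.mk_one, Matrix.cons_val_one, Matrix.cons_val_fin_one]
              rw [mul_div_cancel₀ _ h2]
      · refine ⟨fun i => M i 0, ![1, M 0 1 / M 0 0], ?_, ?_, ?_⟩
        · intro h; exact h1 (congrFun h 0)
        · intro h; have := congrFun h 0; simp at this
        · intro i j
          fin_cases j
          · simp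
          · fin_cases i
            · simp only [Fin.zero_eta, Fin.mk_one, Matrix.cons_val_one, Matrix.cons_val_fin_one]
              rw [mul_div_cancel₀ _ h1]
            · simp only [Fin.mk_one, Matrix.cons_val_one, Matrix.cons_val_fin_one]
              field_simp
              linear_combination hdet
  obtain ⟨w, β, hw, hβ, hwβ⟩ := hcol
  obtain ⟨⟨Q, c⟩, ⟨hc, hwQ⟩, _⟩ := existsUnique_line hw
  refine ⟨Q, c • β, smul_ne_zero hc hβ, ?_⟩
  intro v
  ext i
  rw [Matrix.mulVec, Pi.smul_apply, smul_eq_mul, dotProduct, dotProduct, Fin.sum_univ_two,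
    Fin.sum_univ_two, hwβ, hwβ, hwQ]
  simp only [Pi.smul_apply, smul_eq_mul]
  ring

theorem exists_dot {β : Fin 2 → ZMod s} (hβ : β ≠ 0) : ∃ v, β ⬝ᵥ v = 1 := by
  by_cases h : β 0 = 0
  · have h1 : β 1 ≠ 0 := by
      intro h1; apply hβ; ext i; fin_cases i
      · exact h
      · exact h1
    exact ⟨![0, (β 1)⁻¹], by simp [dotProduct, Fin.sum_univ_two, h1]⟩
  · exact ⟨![(β 0)⁻¹, 0], by simp [dotProduct, Fin.sum_univ_two, h]⟩

/-- the line of a functional -/
theorem existsUnique_ker {β : Fin 2 → ZMod s} (hβ : β ≠ 0) :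
    ∃! P : PL s, β ⬝ᵥ vec P = 0 := by
  have hv : (![-(β 1), β 0] : Fin 2 → ZMod s) ≠ 0 := by
    intro h; apply hβ; ext i; fin_cases i
    · exact congrFun h 1
    · have := congrFun h 0
      simpa using this
  obtain ⟨⟨P, c⟩, ⟨hc, hP⟩, huniq⟩ := existsUnique_line hv
  refine ⟨P, ?_, ?_⟩
  · have h1 : β ⬝ᵥ (c • vec P) = 0 := by
      rw [← hP]; simp [dotProduct, Fin.sum_univ_two]; ring
    rw [dotProduct_smul, smul_eq_mul] at h1
    exact (mul_eq_zero.1 h1).resolve_left hc
  · intro P' hP'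
    -- `vec P'` is a multiple of the vector
    have h2 : β 0 * vec P' 0 + β 1 * vec P' 1 = 0 := by
      have := hP'
      simpa [dotProduct, Fin.sum_univ_two] using this
    have hne := vec_ne_zero P'
    have h3 : ∃ d : ZMod s, d ≠ 0 ∧ (![-(β 1), β 0] : Fin 2 → ZMod s) = d • vec P' := by
      rcases P' with _ | a
      · have h4 : β 1 = 0 := by simpa [vec] using h2
        have h5 : β 0 ≠ 0 := by
          intro h5; apply hβ; ext i; fin_cases i
          · exact h5
          · exact h4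
        refine ⟨β 0, h5, ?_⟩
        ext i; fin_cases i
        · simp [vec, h4]
        · simp [vec]
      · have h4 : β 0 + β 1 * a = 0 := by simpa [vec] using h2
        have h5 : β 1 ≠ 0 := by
          intro h5; apply hβ; ext i; fin_cases i
          · rw [h5, zero_mul, add_zero] at h4; exact h4
          · exact h5
        refine ⟨-(β 1), neg_ne_zero.2 h5, ?_⟩
        ext i; fin_cases i
        · simp [vec]
        · simp [vec]; linear_combination h4
    obtain ⟨d, hd, hd'⟩ := h3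
    have := huniq ⟨P', d⟩ ⟨hd, hd'⟩
    exact congrArg Prod.fst this

/-- the shape of `U` -/
theorem kd_form (h : KD s X Y st) : ∃ β : PL s → Fin 2 → ZMod s, (∀ Q, β Q ≠ 0) ∧
    (∀ v : Fin 2 → ZMod s, v ≠ 0 → ∃! Q, β Q ⬝ᵥ v = 0) ∧
    ∀ Q P, (∑ x ∈ X, rho L (Y x)) Q P = ez L (β Q ⬝ᵥ vec P) := by
  classical
  have hf : ∀ x ∈ X, ∃ (Q : PL s) (β : Fin 2 → ZMod s), β ≠ 0 ∧
      ∀ v, (Y x).mulVec v = (β ⬝ᵥ v) • vec Q := fun x hx => exists_fact (h.ne x hx) (h.det x hx)
  choose! q b hb hq using hf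
  have hvu : ∀ (P Q : PL s) (c d : ZMod s), c ≠ 0 → c • vec P = d • vec Q → P = Q := by
    intro P Q c d hc he
    have hd : d ≠ 0 := by
      rintro rfl
      rw [zero_smul] at he
      exact (smul_ne_zero hc (vec_ne_zero P)) he
    have hv : c • vec P ≠ 0 := smul_ne_zero hc (vec_ne_zero P)
    have := (existsUnique_line hv).unique (y₁ := ⟨P, c⟩) (y₂ := ⟨Q, d⟩) ⟨hc, rfl⟩ ⟨hd, he⟩
    exact congrArg Prod.fst this
  have hex : ∀ Q : PL s, ∃ x, x ∈ X ∧ q x = Q := by
    intro Q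
    obtain ⟨x, ⟨hx, v, hv⟩, _⟩ := h.im (vec Q) (vec_ne_zero Q)
    refine ⟨x, hx, ?_⟩
    rw [hq x hx] at hv
    have hc : b x ⬝ᵥ v ≠ 0 := by
      intro h0; rw [h0, zero_smul] at hv; exact vec_ne_zero Q hv.symm
    exact hvu _ _ _ 1 hc (by rw [hv, one_smul])
  choose xi hxi hqxi using hex
  have huq : ∀ x ∈ X, xi (q x) = x := by
    intro x hx
    have hin : ∀ y ∈ X, q y = q x → ∃ v, (Y y).mulVec v = vec (q x) := by
      intro y hy hyx
      obtain ⟨v, hv⟩ := exists_dot (hb y hy)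
      exact ⟨v, by rw [hq y hy, hv, one_smul, hyx]⟩
    exact (h.im (vec (q x)) (vec_ne_zero _)).unique ⟨hxi _, hin _ (hxi _) (hqxi _)⟩
      ⟨hx, hin x hx rfl⟩
  refine ⟨fun Q => b (xi Q), fun Q => hb _ (hxi Q), ?_, ?_⟩
  · intro v hv
    obtain ⟨x, ⟨hx, hxv⟩, hux⟩ := h.ker v hv
    refine ⟨q x, ?_, ?_⟩
    · show b (xi (q x)) ⬝ᵥ v = 0
      rw [huq x hx]
      rw [hq x hx] at hxv
      by_contra hne
      exact smul_ne_zero hne (vec_ne_zero _) hxv
    · intro Q hQ
      have h1 : xi Q = x := hux _ ⟨hxi Q, by rw [hq _ (hxi Q), hQ, zero_smul]⟩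
      rw [← h1, hqxi]
  · intro Q P
    rw [Matrix.sum_apply, Finset.sum_eq_single (xi Q)]
    · have hx := hxi Q
      have h1 := hq _ hx (vec P)
      rw [hqxi] at h1
      by_cases h0 : b (xi Q) ⬝ᵥ vec P = 0
      · rw [ez, if_pos h0]
        apply rho_eq_zero
        rw [h1, h0, zero_smul]
      · rw [ez, if_neg h0, rho_eq L h0 h1, if_pos rfl]
    · intro x hx hne
      have h1 := hq _ hx (vec P)
      by_cases h0 : b x ⬝ᵥ vec P = 0
      · apply rho_eq_zero
        rw [h1, h0, zero_smul]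
      · rw [rho_eq L h0 h1, if_neg]
        rintro rfl
        exact hne (huq x hx).symm
    · intro h0
      exact absurd (hxi Q) h0

theorem mat_entry (P Q : PL s) :
    ((s : GA p) • (1 : Matrix (PL s) (PL s) (GA p)) +
      ((L.m : GA p) * NN p) • (Matrix.of (fun _ _ => (1 : GA p)) - 1) :
        Matrix (PL s) (PL s) (GA p)) P Q =
      if P = Q then (s : GA p) else (L.m : GA p) * NN p := by
  rw [Matrix.add_apply, Matrix.smul_apply, Matrix.smul_apply, Matrix.sub_apply, Matrix.of_apply,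
    Matrix.one_apply]
  by_cases h : P = Q
  · rw [if_pos h, if_pos h]; simp
  · rw [if_neg h, if_neg h]; simp

theorem vec_indep {P P' : PL s} (hne : P ≠ P') (a b : ZMod s)
    (h : a • vec P = b • vec P') : a = 0 ∧ b = 0 := by
  by_cases ha : a = 0
  · refine ⟨ha, ?_⟩
    rw [ha, zero_smul] at h
    by_contra hb
    exact smul_ne_zero hb (vec_ne_zero _) h.symm
  · exfalso
    have hv : a • vec P ≠ 0 := smul_ne_zero ha (vec_ne_zero P)
    have hb : b ≠ 0 := by rintro rfl; rw [zero_smul] at h; exact hv h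
    have := (existsUnique_line hv).unique (y₁ := ⟨P, a⟩) (y₂ := ⟨P', b⟩) ⟨ha, rfl⟩ ⟨hb, h⟩
    exact hne (congrArg Prod.fst this)

/-- a functional killing two independent vectors vanishes -/
theorem dot_zero {β : Fin 2 → ZMod s} {P P' : PL s} (hne : P ≠ P') (h : β ⬝ᵥ vec P = 0)
    (h' : β ⬝ᵥ vec P' = 0) : β = 0 := by
  by_contra hβ
  exact hne ((existsUnique_ker hβ).unique h h')

theorem kd_dgU_U (h : KD s X Y st) :
    dg (ig p) (∑ x ∈ X, rho L (Y x)) * (∑ x ∈ X, rho L (Y x)) =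
      (s : GA p) • (1 : Matrix (PL s) (PL s) (GA p)) +
      ((L.m : GA p) * NN p) • (Matrix.of (fun _ _ => (1 : GA p)) - 1) := by
  classical
  obtain ⟨β, hβ, hker, hU⟩ := kd_form L h
  apply Matrix.ext
  intro P P'
  rw [mat_entry, Matrix.mul_apply]
  have e1 : ∀ Q, dg (ig p) (∑ x ∈ X, rho L (Y x)) P Q * (∑ x ∈ X, rho L (Y x)) Q P' =
      ig p (ez L (β Q ⬝ᵥ vec P)) * ez L (β Q ⬝ᵥ vec P') := by
    intro Q
    rw [dg, Matrix.transpose_apply, Matrix.map_apply, hU, hU]
  simp_rw [e1]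
  split_ifs with hP
  · rw [← hP]
    apply diag_sum L _ (by simp [ZMod.card])
    exact hker (vec P) (vec_ne_zero P)
  · apply ratio_sum
    intro r hr
    have hv : vec P' - r • vec P ≠ 0 := by
      intro h0
      have h1 : (1 : ZMod s) • vec P' = r • vec P := by
        rw [one_smul]; exact sub_eq_zero.1 h0
      exact one_ne_zero (vec_indep (Ne.symm hP) _ _ h1).1
    obtain ⟨Q, hQ, hu⟩ := hker _ hv
    have key : ∀ Q, β Q ⬝ᵥ (vec P' - r • vec P) = β Q ⬝ᵥ vec P' - r * (β Q ⬝ᵥ vec P) := by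
      intro Q
      rw [dotProduct_sub, dotProduct_smul, smul_eq_mul]
    refine ⟨Q, ⟨?_, ?_⟩, ?_⟩
    · intro h0
      have hQ' : β Q ⬝ᵥ (vec P' - r • vec P) = 0 := hQ
      rw [key, h0, mul_zero, sub_zero] at hQ'
      exact hβ Q (dot_zero hP h0 hQ')
    · have hQ' : β Q ⬝ᵥ (vec P' - r • vec P) = 0 := hQ
      rw [key] at hQ'
      exact sub_eq_zero.1 hQ'
    · rintro Q' ⟨_, h2⟩
      apply hu
      show β Q' ⬝ᵥ (vec P' - r • vec P) = 0
      rw [key, h2, sub_self]

theorem kd_U_dgU (h : KD s X Y st) :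
    (∑ x ∈ X, rho L (Y x)) * dg (ig p) (∑ x ∈ X, rho L (Y x)) =
      (s : GA p) • (1 : Matrix (PL s) (PL s) (GA p)) +
      ((L.m : GA p) * NN p) • (Matrix.of (fun _ _ => (1 : GA p)) - 1) := by
  classical
  obtain ⟨β, hβ, hker, hU⟩ := kd_form L h
  apply Matrix.ext
  intro Q Q'
  rw [mat_entry, Matrix.mul_apply]
  have e1 : ∀ P, (∑ x ∈ X, rho L (Y x)) Q P * dg (ig p) (∑ x ∈ X, rho L (Y x)) P Q' =
      ig p (ez L (β Q' ⬝ᵥ vec P)) * ez L (β Q ⬝ᵥ vec P) := by
    intro P
    rw [dg, Matrix.transpose_apply, Matrix.map_apply, hU, hU, mul_comm]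
  simp_rw [e1]
  split_ifs with hQ
  · rw [← hQ]
    apply diag_sum L _ (by simp [ZMod.card])
    exact existsUnique_ker (hβ Q)
  · apply ratio_sum
    intro r hr
    -- the two functionals are independent
    have hind : ∀ P, β Q ⬝ᵥ vec P = 0 → β Q' ⬝ᵥ vec P ≠ 0 := by
      intro P h1 h2
      exact hQ ((hker _ (vec_ne_zero P)).unique h1 h2)
    have hv : β Q - r • β Q' ≠ 0 := by
      intro h0
      obtain ⟨P, hP, _⟩ := existsUnique_ker (hβ Q)
      have hP' : β Q ⬝ᵥ vec P = 0 := hP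
      have h1 : (β Q - r • β Q') ⬝ᵥ vec P = 0 := by rw [h0, zero_dotProduct]
      rw [sub_dotProduct, smul_dotProduct, hP', zero_sub, neg_eq_zero, smul_eq_mul] at h1
      exact hind P hP' ((mul_eq_zero.1 h1).resolve_left hr)
    have key : ∀ P, (β Q - r • β Q') ⬝ᵥ vec P = β Q ⬝ᵥ vec P - r * (β Q' ⬝ᵥ vec P) := by
      intro P
      rw [sub_dotProduct, smul_dotProduct, smul_eq_mul]
    obtain ⟨P, hP, hu⟩ := existsUnique_ker hv
    have hP' : (β Q - r • β Q') ⬝ᵥ vec P = 0 := hP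
    rw [key] at hP'
    refine ⟨P, ⟨?_, sub_eq_zero.1 hP'⟩, ?_⟩
    · intro h0
      rw [h0, mul_zero, sub_zero] at hP'
      exact hind P hP' h0
    · rintro P1 ⟨_, h2⟩
      apply hu
      show (β Q - r • β Q') ⬝ᵥ vec P1 = 0
      rw [key, h2, sub_self]

end

end Pool.Agent.AllCyc
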