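import Pool.Agent.AllCyc.KD

/-! `U² = 1` modulo `p` and the augmentation ideal. -/

set_option autoImplicit false

namespace Pool.Agent.AllCyc

open Pool.Agent.CycSyl

variable {s p : ℕ} [Fact s.Prime] [NeZero p] (L : LG s p)
variable {α : Type*} {X : Finset α} {Y : α → Matrix (Fin 2) (Fin 2) (ZMod s)} {st : α → α}

omit [NeZero p] in
open Classical in
/-- the kernel lines of the matrices with given image line -/
private theorem kd_sigma (h : KD s X Y st) : ∃ σ : PL s → PL s, (∀ Q, σ (σ Q) = Q) ∧
    ∀ Q P, au p (∑ x ∈ X, rho L (Y x) Q P) = if P = σ Q then 0 else 1 := by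
  have hv0 : ∀ Q : PL s, vec Q ≠ 0 := fun Q => vec_ne_zero Q
  choose xq hxq huniq using fun Q : PL s => h.im (vec Q) (hv0 Q)
  choose σ hσ hσu using fun Q : PL s => h.exists_ker (hxq Q).1
  refine ⟨σ, ?_, ?_⟩
  · intro Q
    -- `x = xq Q`, image `Q`, kernel `σ Q`; `st x` has image `σ Q`, kernel `Q`
    have h1 : xq (σ Q) = st (xq Q) := by
      symm
      apply huniq (σ Q)
      refine ⟨h.mem _ (hxq Q).1, ?_⟩
      rw [h.im_st (h.mem _ (hxq Q).1), h.inv _ (hxq Q).1]
      exact hσ Q
    have h2 : (Y (xq (σ Q))).mulVec (vec Q) = 0 := by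
      rw [h1, ← h.im_st (hxq Q).1]
      exact (hxq Q).2
    exact (hσu (σ Q) Q h2).symm
  · intro Q P
    rw [map_sum]
    -- the entry of one matrix
    have key : ∀ x ∈ X, au p (rho L (Y x) Q P) = if x = xq Q ∧ P ≠ σ Q then 1 else 0 := by
      intro x hx
      by_cases hPx : (Y x).mulVec (vec P) = 0
      · rw [rho_eq_zero L hPx, map_zero, if_neg]
        rintro ⟨rfl, h2⟩
        exact h2 (hσu Q P hPx)
      · obtain ⟨⟨Q', c⟩, ⟨hc, hQc⟩, -⟩ := existsUnique_line hPx
        simp only at hc hQc
        rw [rho_eq L hc hQc]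
        have him : ∃ v, (Y x).mulVec v = vec Q' := by
          refine ⟨c⁻¹ • vec P, ?_⟩
          rw [Matrix.mulVec_smul, hQc, smul_smul, inv_mul_cancel₀ hc, one_smul]
        by_cases hQ : Q = Q'
        · subst hQ
          have hxx : x = xq Q := huniq Q x ⟨hx, him⟩
          rw [if_pos rfl, au_gs, if_pos]
          refine ⟨hxx, ?_⟩
          intro hP
          apply hPx
          rw [hP, hxx]
          exact hσ Q
        · rw [if_neg hQ, map_zero, if_neg]
          rintro ⟨hxx, -⟩
          obtain ⟨v, hv⟩ := (hxq Q).2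
          rw [← hxx] at hv
          have hne : (Y x).mulVec v ≠ 0 := by rw [hv]; exact hv0 Q
          obtain ⟨v', hv'⟩ := him
          obtain ⟨d, hd⟩ := im_line (h.det x hx) (v' := v') hne
          rw [hv, hv'] at hd
          have hd0 : d ≠ 0 := by
            rintro rfl
            exact hv0 Q' (by rw [hd, zero_smul])
          obtain ⟨⟨Q'', c''⟩, -, hu⟩ := existsUnique_line (hv0 Q')
          have e1 := hu (Q', 1) ⟨one_ne_zero, by simp⟩
          have e2 := hu (Q, d) ⟨hd0, hd⟩
          have e3 := e2.trans e1.symm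
          exact hQ (congrArg Prod.fst e3)
    rw [Finset.sum_congr rfl key]
    by_cases hP : P = σ Q
    · rw [if_pos hP]
      apply Finset.sum_eq_zero
      intro x _
      rw [if_neg]
      rintro ⟨_, h2⟩
      exact h2 hP
    · rw [if_neg hP]
      rw [Finset.sum_eq_single (xq Q)]
      · rw [if_pos ⟨rfl, hP⟩]
      · intro x _ hx
        rw [if_neg]
        rintro ⟨h1, _⟩
        exact hx h1
      · intro hx
        exact absurd (hxq Q).1 hx

open Classical in
theorem kd_U_U (h : KD s X Y st) (m : ℕ) (hs : s = 1 + p * m) :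
    ∃ B1 B2 : Matrix (PL s) (PL s) (GA p),
      (∑ x ∈ X, rho L (Y x)) * (∑ x ∈ X, rho L (Y x)) =
        1 + (gs (1 : ZMod p) - 1) • B1 + (p : GA p) • B2 := by
  obtain ⟨σ, hσ, hU⟩ := kd_sigma (p := p) L h
  set U : Matrix (PL s) (PL s) (GA p) := ∑ x ∈ X, rho L (Y x) with hUdef
  have hUe : ∀ Q P, au p (U Q P) = if P = σ Q then 0 else 1 := by
    intro Q P
    rw [← hU Q P, hUdef, Matrix.sum_apply]
  have hcard : Fintype.card (PL s) = s + 1 := by
    rw [Fintype.card_option, ZMod.card]
  have hsq : ∀ Q P, au p ((U * U) Q P) = (if P = Q then 1 else 0) + (p : ℤ) * m := by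
    intro Q P
    rw [Matrix.mul_apply, map_sum]
    have e1 : ∀ R, au p (U Q R * U R P) =
        1 - (if R = σ Q then (1 : ℤ) else 0) - (if R = σ P then (1 : ℤ) else 0) +
          (if R = σ Q then (if P = Q then (1 : ℤ) else 0) else 0) := by
      intro R
      rw [map_mul, hUe, hUe]
      have e2 : (P = σ R) ↔ (R = σ P) := by
        constructor
        · rintro rfl; exact (hσ R).symm
        · rintro rfl; exact (hσ P).symm
      rw [if_congr e2 rfl rfl]
      by_cases h1 : R = σ Q
      · by_cases h2 : R = σ P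
        · have h3 : P = Q := by
            have := congrArg σ (h1.symm.trans h2)
            rw [hσ, hσ] at this
            exact this.symm
          rw [if_pos h1, if_pos h2, if_pos h1, if_pos h2, if_pos h1, if_pos h3]; norm_num
        · have h3 : P ≠ Q := by
            rintro rfl; exact h2 h1
          rw [if_pos h1, if_neg h2, if_pos h1, if_neg h2, if_pos h1, if_neg h3]; norm_num
      · by_cases h2 : R = σ P
        · rw [if_neg h1, if_pos h2, if_neg h1, if_pos h2, if_neg h1]; norm_num
        · rw [if_neg h1, if_neg h2, if_neg h1, if_neg h2, if_neg h1]; norm_num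
    rw [Finset.sum_congr rfl (fun R _ => e1 R)]
    rw [Finset.sum_add_distrib, Finset.sum_sub_distrib, Finset.sum_sub_distrib]
    simp only [Finset.sum_const, Finset.card_univ, hcard, Finset.sum_ite_eq', Finset.mem_univ,
      if_true, nsmul_eq_mul, mul_one]
    have hs' : (s : ℤ) = 1 + p * m := by exact_mod_cast hs
    push_cast
    rw [hs']
    split_ifs <;> ring
  have hdec : ∀ Q P, ∃ b1 b2 : GA p,
      (U * U) Q P = (1 : Matrix (PL s) (PL s) (GA p)) Q P + (gs (1 : ZMod p) - 1) * b1 +
        (p : GA p) * b2 := by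
    intro Q P
    set a : GA p := (U * U) Q P - (1 : Matrix (PL s) (PL s) (GA p)) Q P - (p : GA p) * (m : GA p)
      with ha
    have ha0 : au p a = 0 := by
      rw [ha, map_sub, map_sub, hsq, map_mul, map_natCast, map_natCast, Matrix.one_apply]
      by_cases hPQ : P = Q
      · subst hPQ
        rw [if_pos rfl, if_pos rfl, map_one]; ring
      · rw [if_neg hPQ, if_neg (fun h => hPQ h.symm), map_zero]; ring
    obtain ⟨b, hb⟩ := exists_of_au_zero a ha0
    refine ⟨b, (m : GA p), ?_⟩
    rw [← hb, ha]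
    ring
  choose b1 b2 hb using hdec
  refine ⟨Matrix.of b1, Matrix.of b2, ?_⟩
  ext1 Q P
  rw [Matrix.add_apply, Matrix.add_apply, Matrix.smul_apply, Matrix.smul_apply, Matrix.of_apply,
    Matrix.of_apply, smul_eq_mul, smul_eq_mul]
  exact hb Q P

end Pool.Agent.AllCyc
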