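import Pool.Agent.AllCyc.Defs

/-! The Hurwitz order modulo a prime is a matrix ring. -/

set_option autoImplicit false
set_option linter.unusedSimpArgs false

namespace Pool.Agent.AllCyc

open Pool.Agent.CycSyl Pool.Agent.CycSyl.Hz

section general

variable {R : Type*} [CommRing R]

/-- the matrix attached to `x`; `h = 1/2`, `a² + b² = -1` -/
def phiM (a b h : R) (x : Hz R) : Matrix (Fin 2) (Fin 2) R :=
  !![h * ((2 * x.a + x.d) + a * (2 * x.b + x.d) + b * x.d),
     h * (b * (2 * x.b + x.d) - (2 * x.c + x.d) - a * x.d);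
     h * (b * (2 * x.b + x.d) + (2 * x.c + x.d) - a * x.d),
     h * ((2 * x.a + x.d) - a * (2 * x.b + x.d) - b * x.d)]

theorem phiM_00 (a b h : R) (x : Hz R) :
    phiM a b h x 0 0 = h * ((2 * x.a + x.d) + a * (2 * x.b + x.d) + b * x.d) := rfl
theorem phiM_01 (a b h : R) (x : Hz R) :
    phiM a b h x 0 1 = h * (b * (2 * x.b + x.d) - (2 * x.c + x.d) - a * x.d) := rfl
theorem phiM_10 (a b h : R) (x : Hz R) :
    phiM a b h x 1 0 = h * (b * (2 * x.b + x.d) + (2 * x.c + x.d) - a * x.d) := rfl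
theorem phiM_11 (a b h : R) (x : Hz R) :
    phiM a b h x 1 1 = h * ((2 * x.a + x.d) - a * (2 * x.b + x.d) - b * x.d) := rfl

omit [CommRing R] in
theorem ext22 {M N : Matrix (Fin 2) (Fin 2) R} (h00 : M 0 0 = N 0 0) (h01 : M 0 1 = N 0 1)
    (h10 : M 1 0 = N 1 0) (h11 : M 1 1 = N 1 1) : M = N := by
  ext i j
  fin_cases i <;> fin_cases j
  · exact h00
  · exact h01
  · exact h10
  · exact h11

theorem phiM_mul {a b h : R} (hab : a ^ 2 + b ^ 2 = -1) (hh : 2 * h = 1) (x y : Hz R) :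
    phiM a b h (x * y) = phiM a b h x * phiM a b h y := by
  apply ext22 <;> rw [Matrix.mul_apply, Fin.sum_univ_two]
  · simp only [phiM_00, phiM_01, phiM_10, phiM_11, mul_a, mul_b, mul_c, mul_d]
    linear_combination (-h ^ 2 * ((2 * x.b + x.d) * (2 * y.b + y.d) + x.d * y.d)) * hab +
      (-h * ((2 * (x.a * y.a - x.b * y.b - x.b * y.c - x.b * y.d + x.c * y.b - x.c * y.c - x.d * y.c - x.d * y.d) + (x.a * y.d + x.d * y.a + 2 * x.b * y.c + x.b * y.d - 2 * x.c * y.b - x.c * y.d - x.d * y.b + x.d * y.c + x.d * y.d)) + a * (2 * (x.a * y.b + x.b * y.a - x.b * y.c + x.c * y.b + x.c * y.d + x.d * y.b - x.d * y.c) + (x.a * y.d + x.d * y.a + 2 * x.b * y.c + x.b * y.d - 2 * x.c * y.b - x.c * y.d - x.d * y.b + x.d * y.c + x.d * y.d)) + b * (x.a * y.d + x.d * y.a + 2 * x.b * y.c + x.b * y.d - 2 * x.c * y.b - x.c * y.d - x.d * y.b + x.d * y.c + x.d * y.d))) * hh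
  · simp only [phiM_00, phiM_01, phiM_10, phiM_11, mul_a, mul_b, mul_c, mul_d]
    linear_combination (h ^ 2 * ((2 * x.b + x.d) * y.d - x.d * (2 * y.b + y.d))) * hab +
      (-h * (b * (2 * (x.a * y.b + x.b * y.a - x.b * y.c + x.c * y.b + x.c * y.d + x.d * y.b - x.d * y.c) + (x.a * y.d + x.d * y.a + 2 * x.b * y.c + x.b * y.d - 2 * x.c * y.b - x.c * y.d - x.d * y.b + x.d * y.c + x.d * y.d)) - (2 * (x.a * y.c + x.c * y.a - x.b * y.c - x.b * y.d + x.c * y.b + x.c * y.d + x.d * y.b) + (x.a * y.d + x.d * y.a + 2 * x.b * y.c + x.b * y.d - 2 * x.c * y.b - x.c * y.d - x.d * y.b + x.d * y.c + x.d * y.d)) - a * (x.a * y.d + x.d * y.a + 2 * x.b * y.c + x.b * y.d - 2 * x.c * y.b - x.c * y.d - x.d * y.b + x.d * y.c + x.d * y.d))) * hh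
  · simp only [phiM_00, phiM_01, phiM_10, phiM_11, mul_a, mul_b, mul_c, mul_d]
    linear_combination (-h ^ 2 * ((2 * x.b + x.d) * y.d - x.d * (2 * y.b + y.d))) * hab +
      (-h * (b * (2 * (x.a * y.b + x.b * y.a - x.b * y.c + x.c * y.b + x.c * y.d + x.d * y.b - x.d * y.c) + (x.a * y.d + x.d * y.a + 2 * x.b * y.c + x.b * y.d - 2 * x.c * y.b - x.c * y.d - x.d * y.b + x.d * y.c + x.d * y.d)) + (2 * (x.a * y.c + x.c * y.a - x.b * y.c - x.b * y.d + x.c * y.b + x.c * y.d + x.d * y.b) + (x.a * y.d + x.d * y.a + 2 * x.b * y.c + x.b * y.d - 2 * x.c * y.b - x.c * y.d - x.d * y.b + x.d * y.c + x.d * y.d)) - a * (x.a * y.d + x.d * y.a + 2 * x.b * y.c + x.b * y.d - 2 * x.c * y.b - x.c * y.d - x.d * y.b + x.d * y.c + x.d * y.d))) * hh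
  · simp only [phiM_00, phiM_01, phiM_10, phiM_11, mul_a, mul_b, mul_c, mul_d]
    linear_combination (-h ^ 2 * ((2 * x.b + x.d) * (2 * y.b + y.d) + x.d * y.d)) * hab +
      (-h * ((2 * (x.a * y.a - x.b * y.b - x.b * y.c - x.b * y.d + x.c * y.b - x.c * y.c - x.d * y.c - x.d * y.d) + (x.a * y.d + x.d * y.a + 2 * x.b * y.c + x.b * y.d - 2 * x.c * y.b - x.c * y.d - x.d * y.b + x.d * y.c + x.d * y.d)) - a * (2 * (x.a * y.b + x.b * y.a - x.b * y.c + x.c * y.b + x.c * y.d + x.d * y.b - x.d * y.c) + (x.a * y.d + x.d * y.a + 2 * x.b * y.c + x.b * y.d - 2 * x.c * y.b - x.c * y.d - x.d * y.b + x.d * y.c + x.d * y.d)) - b * (x.a * y.d + x.d * y.a + 2 * x.b * y.c + x.b * y.d - 2 * x.c * y.b - x.c * y.d - x.d * y.b + x.d * y.c + x.d * y.d))) * hh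

theorem phiM_one {a b h : R} (hh : 2 * h = 1) : phiM a b h 1 = 1 := by
  apply ext22
  · rw [phiM_00, Matrix.one_apply_eq]
    simp only [one_a, one_b, one_c, one_d]
    linear_combination hh
  · rw [phiM_01, Matrix.one_apply_ne (by decide)]
    simp only [one_a, one_b, one_c, one_d]
    ring
  · rw [phiM_10, Matrix.one_apply_ne (by decide)]
    simp only [one_a, one_b, one_c, one_d]
    ring
  · rw [phiM_11, Matrix.one_apply_eq]
    simp only [one_a, one_b, one_c, one_d]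
    linear_combination hh

theorem phiM_add (a b h : R) (x y : Hz R) :
    phiM a b h (x + y) = phiM a b h x + phiM a b h y := by
  apply ext22 <;> rw [Matrix.add_apply] <;>
    simp only [phiM_00, phiM_01, phiM_10, phiM_11, add_a, add_b, add_c, add_d] <;> ring

/-- the ring homomorphism -/
def phiHom {a b h : R} (hab : a ^ 2 + b ^ 2 = -1) (hh : 2 * h = 1) :
    Hz R →+* Matrix (Fin 2) (Fin 2) R where
  toFun := phiM a b h
  map_one' := phiM_one hh
  map_mul' := phiM_mul hab hh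
  map_zero' := by
    apply ext22 <;> rw [Matrix.zero_apply] <;>
      simp only [phiM_00, phiM_01, phiM_10, phiM_11, zero_a, zero_b, zero_c, zero_d] <;> ring
  map_add' := phiM_add a b h

theorem phiM_det {a b h : R} (hab : a ^ 2 + b ^ 2 = -1) (hh : 2 * h = 1) (x : Hz R) :
    (phiM a b h x).det = nrm x := by
  rw [Matrix.det_fin_two, phiM_00, phiM_01, phiM_10, phiM_11]
  simp only [nrm]
  linear_combination (-h ^ 2 * ((2 * x.b + x.d) ^ 2 + x.d ^ 2)) * hab +
    ((2 * h + 1) * (x.a ^ 2 + x.b ^ 2 + x.c ^ 2 + x.d ^ 2 + x.d * (x.a + x.b + x.c))) * hh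

theorem phiM_trace {a b h : R} (hh : 2 * h = 1) (x : Hz R) :
    (phiM a b h x).trace = tr x := by
  rw [Matrix.trace_fin_two, phiM_00, phiM_11]
  simp only [tr]
  linear_combination (2 * x.a + x.d) * hh

theorem phiM_conj {a b h : R} (x : Hz R) :
    phiM a b h (conj x) = (phiM a b h x).adjugate := by
  rw [Matrix.adjugate_fin_two]
  apply ext22
  · show _ = phiM a b h x 1 1
    simp only [phiM_00, phiM_11, conj_a, conj_b, conj_c, conj_d]; ring
  · show _ = - phiM a b h x 0 1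
    simp only [phiM_01, conj_a, conj_b, conj_c, conj_d]; ring
  · show _ = - phiM a b h x 1 0
    simp only [phiM_10, conj_a, conj_b, conj_c, conj_d]; ring
  · show _ = phiM a b h x 0 0
    simp only [phiM_00, phiM_11, conj_a, conj_b, conj_c, conj_d]; ring

theorem phiM_surj {a b h : R} (hab : a ^ 2 + b ^ 2 = -1) (hh : 2 * h = 1) :
    Function.Surjective (phiM a b h) := by
  intro M
  refine ⟨⟨h * ((M 0 0 + M 1 1) + (b * (M 0 0 - M 1 1) - a * (M 1 0 + M 0 1))),
    h * (-(a * (M 0 0 - M 1 1) + b * (M 1 0 + M 0 1)) +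
      (b * (M 0 0 - M 1 1) - a * (M 1 0 + M 0 1))),
    h * ((M 1 0 - M 0 1) + (b * (M 0 0 - M 1 1) - a * (M 1 0 + M 0 1))),
    -(b * (M 0 0 - M 1 1) - a * (M 1 0 + M 0 1))⟩, ?_⟩
  apply ext22
  · rw [phiM_00]
    linear_combination (-h * (M 0 0 - M 1 1)) * hab +
      (M 0 0 + h * (((M 0 0 + M 1 1) - (-(b * (M 0 0 - M 1 1) - a * (M 1 0 + M 0 1)))) + a * ((-(a * (M 0 0 - M 1 1) + b * (M 1 0 + M 0 1))) - (-(b * (M 0 0 - M 1 1) - a * (M 1 0 + M 0 1)))))) * hh
  · rw [phiM_01]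
    linear_combination (-h * (M 1 0 + M 0 1)) * hab +
      (M 0 1 + h * (b * ((-(a * (M 0 0 - M 1 1) + b * (M 1 0 + M 0 1))) - (-(b * (M 0 0 - M 1 1) - a * (M 1 0 + M 0 1)))) - ((M 1 0 - M 0 1) - (-(b * (M 0 0 - M 1 1) - a * (M 1 0 + M 0 1)))))) * hh
  · rw [phiM_10]
    linear_combination (-h * (M 1 0 + M 0 1)) * hab +
      (M 1 0 + h * (b * ((-(a * (M 0 0 - M 1 1) + b * (M 1 0 + M 0 1))) - (-(b * (M 0 0 - M 1 1) - a * (M 1 0 + M 0 1)))) + ((M 1 0 - M 0 1) - (-(b * (M 0 0 - M 1 1) - a * (M 1 0 + M 0 1)))))) * hh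
  · rw [phiM_11]
    linear_combination (h * (M 0 0 - M 1 1)) * hab +
      (M 1 1 + h * (((M 0 0 + M 1 1) - (-(b * (M 0 0 - M 1 1) - a * (M 1 0 + M 0 1)))) - a * ((-(a * (M 0 0 - M 1 1) + b * (M 1 0 + M 0 1))) - (-(b * (M 0 0 - M 1 1) - a * (M 1 0 + M 0 1)))))) * hh

theorem phiM_inj {a b h : R} (hab : a ^ 2 + b ^ 2 = -1) (hh : 2 * h = 1) {x : Hz R}
    (hx : phiM a b h x = 0) : x = 0 := by
  have h00 : phiM a b h x 0 0 = 0 := by rw [hx]; rfl
  have h01 : phiM a b h x 0 1 = 0 := by rw [hx]; rfl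
  have h10 : phiM a b h x 1 0 = 0 := by rw [hx]; rfl
  have h11 : phiM a b h x 1 1 = 0 := by rw [hx]; rfl
  rw [phiM_00] at h00
  rw [phiM_01] at h01
  rw [phiM_10] at h10
  rw [phiM_11] at h11
  have hA : 2 * x.a + x.d = 0 := by
    linear_combination h00 + h11 - (2 * x.a + x.d) * hh
  have hC : 2 * x.c + x.d = 0 := by
    linear_combination h10 - h01 - (2 * x.c + x.d) * hh
  have hu : a * (2 * x.b + x.d) + b * x.d = 0 := by
    linear_combination h00 - h11 - (a * (2 * x.b + x.d) + b * x.d) * hh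
  have hw : b * (2 * x.b + x.d) - a * x.d = 0 := by
    linear_combination h10 + h01 - (b * (2 * x.b + x.d) - a * x.d) * hh
  have hB : 2 * x.b + x.d = 0 := by
    linear_combination -a * hu - b * hw + (2 * x.b + x.d) * hab
  have hD : x.d = 0 := by
    linear_combination -b * hu + a * hw + x.d * hab
  ext
  · show x.a = 0
    linear_combination h * hA - h * hD - x.a * hh
  · show x.b = 0
    linear_combination h * hB - h * hD - x.b * hh
  · show x.c = 0
    linear_combination h * hC - h * hD - x.c * hh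
  · exact hD

end general

theorem exists_Phi {s : ℕ} (hs : s.Prime) (hs2 : s ≠ 2) :
    ∃ Φ : Hz ℤ →+* Matrix (Fin 2) (Fin 2) (ZMod s),
      (∀ x, (Φ x).det = ((nrm x : ℤ) : ZMod s)) ∧ (∀ x, (Φ x).trace = ((tr x : ℤ) : ZMod s)) ∧
      (∀ x, Φ x = 0 ↔ sc (s : ℤ) ∣ x) ∧ Function.Surjective Φ ∧
      (∀ x, Φ (conj x) = (Φ x).adjugate) := by
  have : Fact s.Prime := ⟨hs⟩
  obtain ⟨a, b, hab⟩ := ZMod.sq_add_sq s (-1)
  have h20 : (2 : ZMod s) ≠ 0 := by
    intro h
    have h' : ((2 : ℕ) : ZMod s) = 0 := by exact_mod_cast h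
    rw [ZMod.natCast_eq_zero_iff] at h'
    exact hs2 ((Nat.prime_dvd_prime_iff_eq hs Nat.prime_two).1 h')
  obtain ⟨h, hh⟩ : ∃ h : ZMod s, 2 * h = 1 := ⟨2⁻¹, mul_inv_cancel₀ h20⟩
  have key : ∀ x : Hz ℤ, ((phiHom hab hh).comp (Hz.map (Int.castRingHom (ZMod s)))) x =
    phiM a b h (Hz.map (Int.castRingHom (ZMod s)) x) := fun _ => rfl
  refine ⟨(phiHom hab hh).comp (Hz.map (Int.castRingHom (ZMod s))), ?_, ?_, ?_, ?_, ?_⟩
  · intro x
    rw [key, phiM_det hab hh, nrm_map]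
    rfl
  · intro x
    rw [key, phiM_trace hh, tr_map]
    rfl
  · intro x
    rw [key]
    constructor
    · intro h0
      have h1 := phiM_inj hab hh h0
      have ea : ((x.a : ℤ) : ZMod s) = 0 := congrArg Hz.a h1
      have eb : ((x.b : ℤ) : ZMod s) = 0 := congrArg Hz.b h1
      have ec : ((x.c : ℤ) : ZMod s) = 0 := congrArg Hz.c h1
      have ed : ((x.d : ℤ) : ZMod s) = 0 := congrArg Hz.d h1
      rw [ZMod.intCast_zmod_eq_zero_iff_dvd] at ea eb ec ed
      obtain ⟨ya, hya⟩ := ea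
      obtain ⟨yb, hyb⟩ := eb
      obtain ⟨yc, hyc⟩ := ec
      obtain ⟨yd, hyd⟩ := ed
      exact ⟨⟨ya, yb, yc, yd⟩, by ext <;> simp [*]⟩
    · rintro ⟨y, rfl⟩
      have h1 : Hz.map (Int.castRingHom (ZMod s)) (sc (s : ℤ) * y) = 0 := by
        rw [map_mul, map_sc]
        have : (Int.castRingHom (ZMod s)) (s : ℤ) = 0 := by simp
        rw [this, map_zero, zero_mul]
      rw [h1]
      exact (phiHom hab hh).map_zero
  · intro M
    obtain ⟨y, hy⟩ := phiM_surj hab hh M
    obtain ⟨xa, ha⟩ := ZMod.intCast_surjective y.a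
    obtain ⟨xb, hb⟩ := ZMod.intCast_surjective y.b
    obtain ⟨xc, hc⟩ := ZMod.intCast_surjective y.c
    obtain ⟨xd, hd⟩ := ZMod.intCast_surjective y.d
    refine ⟨⟨xa, xb, xc, xd⟩, ?_⟩
    rw [key]
    have : Hz.map (Int.castRingHom (ZMod s)) (⟨xa, xb, xc, xd⟩ : Hz ℤ) = y := by
      ext
      · exact ha
      · exact hb
      · exact hc
      · exact hd
    rw [this, hy]
  · intro x
    rw [key, key, ← phiM_conj, conj_map]

/-! ### the discrete logarithm -/

theorem exists_LG {s p m : ℕ} (hs : s.Prime) (hp : p.Prime) (hp2 : p ≠ 2) (h : s = 1 + p * m)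
    [NeZero s] : ∃ L : LG s p, L.m = m := by
  classical
  have : Fact s.Prime := ⟨hs⟩
  have : Fact p.Prime := ⟨hp⟩
  have hcard : Nat.card (ZMod s)ˣ = p * m := by
    rw [Nat.card_eq_fintype_card, ZMod.card_units, h]; omega
  have hdvd : p ∣ Nat.card (ZMod s)ˣ := ⟨m, hcard⟩
  let e : Multiplicative (ZMod (Nat.card (ZMod s)ˣ)) ≃* (ZMod s)ˣ :=
    zmodCyclicMulEquiv inferInstance
  let r : ZMod (Nat.card (ZMod s)ˣ) →+* ZMod p := ZMod.castHom hdvd (ZMod p)
  let f : (ZMod s)ˣ →* Multiplicative (ZMod p) :=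
    (AddMonoidHom.toMultiplicative r.toAddMonoidHom).comp e.symm.toMonoidHom
  have hfs : Function.Surjective f := by
    intro c
    obtain ⟨z, hz⟩ := ZMod.castHom_surjective hdvd (Multiplicative.toAdd c)
    refine ⟨e (Multiplicative.ofAdd z), ?_⟩
    show Multiplicative.ofAdd (r (Multiplicative.toAdd (e.symm (e (Multiplicative.ofAdd z))))) = c
    rw [e.symm_apply_apply]
    show Multiplicative.ofAdd (r z) = c
    show Multiplicative.ofAdd (ZMod.castHom hdvd (ZMod p) z) = c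
    rw [hz]
    rfl
  let lg : ZMod s → ZMod p := fun a => if ha : a = 0 then 0 else Multiplicative.toAdd (f (Units.mk0 a ha))
  have lg_unit : ∀ u : (ZMod s)ˣ, lg (u : ZMod s) = Multiplicative.toAdd (f u) := by
    intro u
    show (if ha : (u : ZMod s) = 0 then 0 else Multiplicative.toAdd (f (Units.mk0 (u : ZMod s) ha))) = _
    rw [dif_neg u.ne_zero]
    congr 2
    exact Units.mk0_val u _
  have lg_mul : ∀ a b, a ≠ 0 → b ≠ 0 → lg (a * b) = lg a + lg b := by
    intro a b ha hb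
    have h1 := lg_unit (Units.mk0 a ha)
    have h2 := lg_unit (Units.mk0 b hb)
    have h3 := lg_unit (Units.mk0 a ha * Units.mk0 b hb)
    rw [Units.val_mul, Units.val_mk0, Units.val_mk0] at h3
    rw [Units.val_mk0] at h1 h2
    rw [h3, h1, h2, map_mul]
    rfl
  have lg_one : lg 1 = 0 := by
    have := lg_mul 1 1 one_ne_zero one_ne_zero
    rw [mul_one] at this
    exact left_eq_add.1 this
  have h2p : (2 : ZMod p) ≠ 0 := by
    intro h
    have h' : ((2 : ℕ) : ZMod p) = 0 := by exact_mod_cast h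
    rw [ZMod.natCast_eq_zero_iff] at h'
    exact hp2 ((Nat.prime_dvd_prime_iff_eq hp Nat.prime_two).1 h')
  have lg_neg_one : lg (-1) = 0 := by
    have := lg_mul (-1) (-1) (neg_ne_zero.2 one_ne_zero) (neg_ne_zero.2 one_ne_zero)
    rw [neg_mul_neg, mul_one, lg_one] at this
    have h3 : 2 * lg (-1) = 0 := by rw [two_mul]; exact this.symm
    exact (mul_eq_zero.1 h3).resolve_left h2p
  have lg_neg : ∀ a, lg (-a) = lg a := by
    intro a
    by_cases ha : a = 0
    · rw [ha, neg_zero]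
    · rw [← neg_one_mul, lg_mul _ _ (neg_ne_zero.2 one_ne_zero) ha, lg_neg_one, zero_add]
  have hfib0 : ∀ c : ZMod p,
      ((Finset.univ : Finset (ZMod s)).filter (fun a => a ≠ 0 ∧ lg a = c)).card =
      ((Finset.univ : Finset (ZMod s)ˣ).filter (fun u => f u = Multiplicative.ofAdd c)).card := by
    intro c
    symm
    apply Finset.card_bij (fun (u : (ZMod s)ˣ) _ => (u : ZMod s))
    · intro u hu
      rw [Finset.mem_filter] at hu ⊢
      refine ⟨Finset.mem_univ _, u.ne_zero, ?_⟩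
      rw [lg_unit, hu.2]; rfl
    · intro u _ u' _ huu
      exact Units.ext huu
    · intro a ha
      rw [Finset.mem_filter] at ha
      refine ⟨Units.mk0 a ha.2.1, ?_, rfl⟩
      rw [Finset.mem_filter]
      refine ⟨Finset.mem_univ _, ?_⟩
      have h1 := lg_unit (Units.mk0 a ha.2.1)
      have h2 : lg a = c := ha.2.2
      have h3 : Multiplicative.toAdd (f (Units.mk0 a ha.2.1)) = c := h1.symm.trans h2
      exact congrArg Multiplicative.ofAdd h3
  have hconst : ∀ c c' : Multiplicative (ZMod p),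
      ((Finset.univ : Finset (ZMod s)ˣ).filter (fun u => f u = c)).card =
      ((Finset.univ : Finset (ZMod s)ˣ).filter (fun u => f u = c')).card := by
    intro c c'
    exact MonoidHom.card_fiber_eq_of_mem_range f (hfs c) (hfs c')
  have hsum : ∑ c : Multiplicative (ZMod p),
      ((Finset.univ : Finset (ZMod s)ˣ).filter (fun u => f u = c)).card = p * m := by
    rw [← hcard, Nat.card_eq_fintype_card, ← Finset.card_univ]
    rw [Finset.card_eq_sum_card_fiberwise (f := f) (t := Finset.univ) (fun _ _ => Finset.mem_coe.2 (Finset.mem_univ _))]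
  have hfib : ∀ c : Multiplicative (ZMod p),
      ((Finset.univ : Finset (ZMod s)ˣ).filter (fun u => f u = c)).card = m := by
    intro c
    have h1 : ∑ c' : Multiplicative (ZMod p),
      ((Finset.univ : Finset (ZMod s)ˣ).filter (fun u => f u = c')).card =
      p * ((Finset.univ : Finset (ZMod s)ˣ).filter (fun u => f u = c)).card := by
      rw [Finset.sum_congr rfl (fun c' _ => hconst c' c), Finset.sum_const, Finset.card_univ,
        smul_eq_mul]
      congr 1
      rw [Fintype.card_multiplicative, ZMod.card]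
    rw [hsum] at h1
    exact (Nat.eq_of_mul_eq_mul_left hp.pos h1).symm
  exact ⟨⟨lg, lg_mul, lg_neg, m, fun c => by rw [hfib0, hfib]⟩, rfl⟩

end Pool.Agent.AllCyc
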