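import Pool.Agent.AllCyc.KD
import Pool.Agent.AllCyc.PhiM

/-! The elements of norm `s` of the level 11 order form such a family. -/

set_option autoImplicit false

namespace Pool.Agent.AllCyc

open Pool.Agent.CycSyl Pool.Agent.CycSyl.Hz

theorem kd_X {s : ℕ} (hs : s.Prime) (hs22 : s.Coprime 22)
    (Φ : Hz ℤ →+* Matrix (Fin 2) (Fin 2) (ZMod s))
    (hdet : ∀ x, (Φ x).det = ((nrm x : ℤ) : ZMod s))
    (hzero : ∀ x, Φ x = 0 ↔ sc (s : ℤ) ∣ x) (hsurj : Function.Surjective Φ)
    (hconj : ∀ x, Φ (conj x) = (Φ x).adjugate) :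
    KD s (X s) (fun x => Φ x) (star' s) := by
  have : Fact s.Prime := ⟨hs⟩
  have h11 := ne11_of hs22
  have hs0 : (s : ℤ) ≠ 0 := by exact_mod_cast hs.ne_zero
  have hd : ∀ x ∈ X s, (Φ x).det = 0 := by
    intro x hx
    rw [hdet, (mem_X.1 hx).2]
    simp
  have hn : ∀ x ∈ X s, Φ x ≠ 0 := by
    intro x hx h0
    rw [hzero] at h0
    have h1 := sc_dvd_nrm h0
    rw [(mem_X.1 hx).2] at h1
    have h3 : s ^ 2 ∣ s := by exact_mod_cast h1
    have h4 := Nat.le_of_dvd hs.pos h3
    have h5 := hs.one_lt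
    nlinarith
  refine ⟨hd, hn, ?_, fun x hx => star'_mem hs22 hx, fun x _ => star'_star' s x, ?_⟩
  · intro v hv
    obtain ⟨u, hu⟩ := hsurj !![v 1, -(v 0); 0, 0]
    have hu0 : Φ u ≠ 0 := by
      rw [hu]
      intro h
      apply hv
      ext i
      fin_cases i
      · have := congrFun (congrFun h 0) 1
        simpa using this
      · have := congrFun (congrFun h 0) 0
        simpa using this
    have hun : (s : ℤ) ∣ nrm u := by
      rw [← ZMod.intCast_zmod_eq_zero_iff_dvd, ← hdet, hu, Matrix.det_fin_two_of]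
      ring
    have hus : ¬ sc (s : ℤ) ∣ u := by rwa [← hzero]
    obtain ⟨y, ⟨hy, z, hz⟩, huniq⟩ := existsUnique_right hs h11 hun hus
    have hyX : y ∈ X s := mem_X.2 hy
    refine ⟨y, ⟨hyX, ?_⟩, ?_⟩
    · obtain ⟨w, hw, hyw⟩ := Matrix.exists_mulVec_eq_zero_iff.2 (hd y hyX)
      have h1 : (Φ u).mulVec w = 0 := by
        rw [hz, map_mul, ← Matrix.mulVec_mulVec, hyw, Matrix.mulVec_zero]
      have h2 : (Φ u).mulVec v = 0 := by
        rw [hu]
        ext i
        fin_cases i
        · simp [Matrix.mulVec, dotProduct, Fin.sum_univ_two]; ring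
        · simp [Matrix.mulVec, dotProduct, Fin.sum_univ_two]
      obtain ⟨c, hc⟩ := ker_line hu0 hw h1 h2
      show (Φ y).mulVec v = 0
      rw [hc, Matrix.mulVec_smul, hyw, smul_zero]
    · rintro y' ⟨hy', hyv⟩
      have hyv' : (Φ y').mulVec v = 0 := hyv
      apply huniq
      refine ⟨mem_X.1 hy', ?_⟩
      have h2 : (Φ u).mulVec v = 0 := by
        rw [hu]
        ext i
        fin_cases i
        · simp [Matrix.mulVec, dotProduct, Fin.sum_univ_two]; ring
        · simp [Matrix.mulVec, dotProduct, Fin.sum_univ_two]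
      have h3 : Φ (u * conj y') = 0 := by
        rw [map_mul, hconj]
        apply Matrix.ext_of_mulVec_single
        intro j
        rw [← Matrix.mulVec_mulVec, Matrix.zero_mulVec]
        have h4 : (Φ y').mulVec ((Φ y').adjugate.mulVec (Pi.single j 1)) = 0 := by
          rw [Matrix.mulVec_mulVec, Matrix.mul_adjugate, hd y' hy', zero_smul,
            Matrix.zero_mulVec]
        obtain ⟨c, hc⟩ := ker_line (hn y' hy') hv hyv' h4
        rw [hc, Matrix.mulVec_smul, h2, smul_zero]
      rw [hzero] at h3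
      obtain ⟨z', hz'⟩ := h3
      refine ⟨z', ?_⟩
      apply sc_inj_mul hs0
      rw [← mul_assoc, ← hz', mul_assoc, conj_mul_self, (mem_X.1 hy').2, sc_comm]
  · intro x hx
    show Φ (star' s x) = (Φ x).adjugate ∨ Φ (star' s x) = -(Φ x).adjugate
    unfold star'
    rcases eps_or s with h | h
    · left
      rw [h, map_one, one_mul, hconj]
    · right
      rw [h, map_neg, map_one, neg_one_mul, map_neg, hconj]

end Pool.Agent.AllCyc
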