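import Pool.Agent.AllCyc.Defs

/-! The abstract matrix congruence. -/

set_option autoImplicit false

namespace Pool.Agent.AllCyc

open Matrix

section Ring

variable {R : Type*} [Ring R]

private lemma one_add_pow2 (y : R) (n : ℕ) :
    ∃ c : R, (1 + y) ^ n = 1 + (n : R) * y + y ^ 2 * c := by
  induction n with
  | zero => exact ⟨0, by simp⟩
  | succ n ih =>
    obtain ⟨c, hc⟩ := ih
    refine ⟨(n : R) + c * (1 + y), ?_⟩
    have h1 : (n : R) * y * y = y ^ 2 * (n : R) := by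
      rw [mul_assoc, ← sq, (Nat.cast_commute n (y ^ 2)).eq]
    rw [pow_succ, hc]
    calc (1 + (n : R) * y + y ^ 2 * c) * (1 + y)
        = 1 + (n : R) * y + y + (n : R) * y * y + y ^ 2 * c * (1 + y) := by noncomm_ring
      _ = 1 + ((n + 1 : ℕ) : R) * y + y ^ 2 * ((n : R) + c * (1 + y)) := by
          rw [h1]; push_cast; noncomm_ring

private lemma one_add_pow3 (y : R) (n : ℕ) :
    ∃ c : R, (1 + y) ^ n = 1 + (n : R) * y + ((n.choose 2 : ℕ) : R) * y ^ 2 + y ^ 3 * c := by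
  induction n with
  | zero => exact ⟨0, by simp⟩
  | succ n ih =>
    obtain ⟨c, hc⟩ := ih
    refine ⟨((n.choose 2 : ℕ) : R) + c * (1 + y), ?_⟩
    have h1 : (n : R) * y * y = (n : R) * y ^ 2 := by
      rw [mul_assoc, ← sq]
    have h2 : ((n.choose 2 : ℕ) : R) * y ^ 2 * y = y ^ 3 * ((n.choose 2 : ℕ) : R) := by
      rw [mul_assoc, ← pow_succ, (Nat.cast_commute _ (y ^ (2 + 1))).eq]
    have h3 : (n + 1).choose 2 = n + n.choose 2 := by
      rw [Nat.choose_succ_succ' n 1, Nat.choose_one_right]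
    rw [pow_succ, hc, h3]
    calc (1 + (n : R) * y + ((n.choose 2 : ℕ) : R) * y ^ 2 + y ^ 3 * c) * (1 + y)
        = 1 + (n : R) * y + y + (n : R) * y * y + ((n.choose 2 : ℕ) : R) * y ^ 2
            + ((n.choose 2 : ℕ) : R) * y ^ 2 * y + y ^ 3 * c * (1 + y) := by noncomm_ring
      _ = 1 + ((n + 1 : ℕ) : R) * y + ((n + n.choose 2 : ℕ) : R) * y ^ 2
            + y ^ 3 * (((n.choose 2 : ℕ) : R) + c * (1 + y)) := by
          rw [h1, h2]; push_cast; noncomm_ring

private lemma add_mul_pow (p : ℕ) (a b : R) (n : ℕ) :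
    ∃ c : R, (a + (p : R) * b) ^ n = a ^ n + (p : R) * c := by
  induction n with
  | zero => exact ⟨0, by simp⟩
  | succ n ih =>
    obtain ⟨c, hc⟩ := ih
    refine ⟨c * (a + (p : R) * b) + a ^ n * b, ?_⟩
    have h1 : a ^ n * ((p : R) * b) = (p : R) * (a ^ n * b) := by
      rw [← mul_assoc, ← (Nat.cast_commute p (a ^ n)).eq, mul_assoc]
    rw [pow_succ, hc]
    calc (a ^ n + (p : R) * c) * (a + (p : R) * b)
        = a ^ n * a + a ^ n * ((p : R) * b) + (p : R) * c * (a + (p : R) * b) := by noncomm_ring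
      _ = a ^ (n + 1) + (p : R) * (c * (a + (p : R) * b) + a ^ n * b) := by
          rw [h1, pow_succ]; noncomm_ring

private lemma cast_mul_pow (q : ℕ) (b : R) (k : ℕ) :
    ((q : R) * b) ^ k = ((q ^ k : ℕ) : R) * b ^ k := by
  rw [(Nat.cast_commute q b).mul_pow]; push_cast; rfl

/-- powers of `1 + p B` -/
private lemma one_add_p_pow (p : ℕ) (B : R) (k : ℕ) :
    ∃ B' : R, (1 + (p : R) * B) ^ (p ^ k) = 1 + ((p ^ (k + 1) : ℕ) : R) * B' := by
  induction k with
  | zero => exact ⟨B, by simp⟩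
  | succ k ih =>
    obtain ⟨B', hB'⟩ := ih
    obtain ⟨c, hc⟩ := one_add_pow2 (((p ^ (k + 1) : ℕ) : R) * B') p
    refine ⟨B' + ((p ^ k : ℕ) : R) * (B' ^ 2 * c), ?_⟩
    rw [pow_succ p k, pow_mul, hB', hc, cast_mul_pow]
    have e1 : (p : R) * (((p ^ (k + 1) : ℕ) : R) * B') = ((p ^ (k + 1 + 1) : ℕ) : R) * B' := by
      rw [← mul_assoc, ← Nat.cast_mul, pow_succ p (k + 1), mul_comm p]
    have e2 : ((((p ^ (k + 1)) ^ 2 : ℕ)) : R) * B' ^ 2 * c =
        ((p ^ (k + 1 + 1) : ℕ) : R) * (((p ^ k : ℕ) : R) * (B' ^ 2 * c)) := by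
      rw [← mul_assoc, ← Nat.cast_mul, mul_assoc]
      congr 2
      rw [← pow_mul, ← pow_add]; congr 1; ring
    rw [e1, e2, mul_add, ← add_assoc]

/-- powers of `1 + m F` when `F ^ 2` is divisible by `p` and `F ^ 3` by `p ^ 2` -/
private lemma one_add_F_pow (p : ℕ) (hp : p.Prime) (hp2 : p ≠ 2) (m : ℕ) (F G G3 : R)
    (hF2 : F ^ 2 = (p : R) * G) (hF3 : F ^ 3 = ((p ^ 2 : ℕ) : R) * G3) (v : ℕ) :
    ∃ C : R, (1 + (m : R) * F) ^ (p ^ (v + 1)) =
      1 + ((p ^ (v + 1) : ℕ) : R) * ((m : R) * F) + ((p ^ (v + 2) : ℕ) : R) * C := by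
  have hch : ∃ t : ℕ, p.choose 2 = p * t := by
    have := hp.dvd_choose_self (k := 2) (by norm_num) (lt_of_le_of_ne hp.two_le (Ne.symm hp2))
    exact this
  obtain ⟨t, ht⟩ := hch
  induction v with
  | zero =>
    obtain ⟨c, hc⟩ := one_add_pow3 ((m : R) * F) p
    refine ⟨(t : R) * (((m ^ 2 : ℕ) : R) * G) + ((m ^ 3 : ℕ) : R) * (G3 * c), ?_⟩
    rw [zero_add, pow_one, hc, cast_mul_pow, cast_mul_pow, hF2, hF3, ht]
    have e1 : ((p * t : ℕ) : R) * (((m ^ 2 : ℕ) : R) * ((p : R) * G)) =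
        ((p ^ (0 + 2) : ℕ) : R) * ((t : R) * (((m ^ 2 : ℕ) : R) * G)) := by
      rw [← mul_assoc, ← mul_assoc, ← mul_assoc, ← mul_assoc, ← Nat.cast_mul, ← Nat.cast_mul,
        ← Nat.cast_mul, ← Nat.cast_mul]
      congr 2; ring
    have e2 : ((m ^ 3 : ℕ) : R) * (((p ^ 2 : ℕ) : R) * G3) * c =
        ((p ^ (0 + 2) : ℕ) : R) * (((m ^ 3 : ℕ) : R) * (G3 * c)) := by
      rw [← mul_assoc, ← mul_assoc, ← Nat.cast_mul, ← Nat.cast_mul, mul_assoc]
      congr 2; ring
    rw [e1, e2, mul_add]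
    noncomm_ring
  | succ v ih =>
    obtain ⟨C, hC⟩ := ih
    set y : R := (m : R) * F + (p : R) * C with hy
    have h1 : (1 + (m : R) * F) ^ (p ^ (v + 1)) = 1 + ((p ^ (v + 1) : ℕ) : R) * y := by
      rw [hC, hy, mul_add, ← mul_assoc ((p ^ (v + 1) : ℕ) : R) (p : R), ← Nat.cast_mul,
        ← pow_succ, add_assoc]
    obtain ⟨c, hc⟩ := one_add_pow3 (((p ^ (v + 1) : ℕ) : R) * y) p
    refine ⟨C + (((p ^ v * t : ℕ) : R) * y ^ 2 + ((p ^ (2 * v) : ℕ) : R) * (y ^ 3 * c)), ?_⟩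
    rw [pow_succ p (v + 1), pow_mul, h1, hc, cast_mul_pow, cast_mul_pow, ht]
    have e0 : (p : R) * (((p ^ (v + 1) : ℕ) : R) * y) =
        ((p ^ (v + 1 + 1) : ℕ) : R) * ((m : R) * F) + ((p ^ (v + 1 + 2) : ℕ) : R) * C := by
      have q1 : p * p ^ (v + 1) = p ^ (v + 1 + 1) := by ring
      have q2 : p * p ^ (v + 1) * p = p ^ (v + 1 + 2) := by ring
      rw [← mul_assoc, ← Nat.cast_mul, hy, mul_add, ← mul_assoc _ (p : R) C, ← Nat.cast_mul,
        q2, q1]
    have e1 : ((p * t : ℕ) : R) * ((((p ^ (v + 1)) ^ 2 : ℕ) : R) * y ^ 2) =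
        ((p ^ (v + 1 + 2) : ℕ) : R) * (((p ^ v * t : ℕ) : R) * y ^ 2) := by
      rw [← mul_assoc, ← mul_assoc, ← Nat.cast_mul, ← Nat.cast_mul]
      congr 2; ring
    have e2 : (((p ^ (v + 1)) ^ 3 : ℕ) : R) * y ^ 3 * c =
        ((p ^ (v + 1 + 2) : ℕ) : R) * (((p ^ (2 * v) : ℕ) : R) * (y ^ 3 * c)) := by
      rw [← mul_assoc, ← Nat.cast_mul, mul_assoc]
      congr 2; ring
    rw [e0, e1, e2, mul_add, mul_add, pow_succ p (v + 1)]
    noncomm_ring

end Ring

section Dg

set_option linter.unusedSectionVars false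

variable {A : Type*} [CommRing A] {I : Type*} [Fintype I] [DecidableEq I]

private lemma dg_mul (ι : A →+* A) (M N : Matrix I I A) : dg ι (M * N) = dg ι N * dg ι M := by
  unfold dg
  rw [Matrix.map_mul, Matrix.transpose_mul]

private lemma dg_one (ι : A →+* A) : dg ι (1 : Matrix I I A) = 1 := by
  unfold dg
  rw [Matrix.map_one _ (map_zero ι) (map_one ι), Matrix.transpose_one]

private lemma dg_add (ι : A →+* A) (M N : Matrix I I A) : dg ι (M + N) = dg ι M + dg ι N := by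
  unfold dg
  rw [Matrix.map_add _ (map_add ι), Matrix.transpose_add]

private lemma dg_pow (ι : A →+* A) (M : Matrix I I A) (n : ℕ) : dg ι (M ^ n) = dg ι M ^ n := by
  induction n with
  | zero => rw [pow_zero, pow_zero, dg_one]
  | succ n ih => rw [pow_succ, dg_mul, ih, ← pow_succ']

private lemma dg_natCast (ι : A →+* A) (n : ℕ) : dg ι ((n : ℕ) : Matrix I I A) = (n : ℕ) := by
  induction n with
  | zero =>
    ext i j; simp [dg]
  | succ n ih => rw [Nat.cast_succ, dg_add, ih, dg_one]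

private lemma trace_dg (ι : A →+* A) (M : Matrix I I A) : (dg ι M).trace = ι M.trace := by
  unfold dg
  rw [Matrix.trace_transpose]
  simp [Matrix.trace, map_sum]

private lemma natCast_mul_eq_smul (n : ℕ) (M : Matrix I I A) :
    ((n : ℕ) : Matrix I I A) * M = (n : A) • M := by
  rw [← nsmul_eq_mul, Nat.cast_smul_eq_nsmul]

end Dg

theorem lin_main {A : Type*} [CommRing A] {I : Type*} [Fintype I] [DecidableEq I] {p : ℕ}
    (hp : p.Prime) (hp2 : p ≠ 2) {s m : ℕ} (hs : s = 1 + p * m) (hI : Fintype.card I = s + 1)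
    (ι : A →+* A) (hι : ∀ a, ι (ι a) = a) (N : A) (hN : N * N = (p : A) * N) (hιN : ι N = N)
    (γ r : A) (hγ : γ ^ p = (p : A) * r) (U : Matrix I I A)
    (h1 : U * dg ι U = (s : A) • (1 : Matrix I I A) +
      ((m : A) * N) • (Matrix.of (fun _ _ => (1 : A)) - (1 : Matrix I I A)))
    (h2 : dg ι U * U = (s : A) • (1 : Matrix I I A) +
      ((m : A) * N) • (Matrix.of (fun _ _ => (1 : A)) - (1 : Matrix I I A)))
    (B1 B2 : Matrix I I A) (h3 : U * U = 1 + γ • B1 + (p : A) • B2) (v : ℕ) (hv : 1 ≤ v)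
    (Z : Matrix I I A) (hZ : dg ι Z = Z) :
    ∃ c : A, (U ^ (2 * p ^ v) * Z).trace + ι ((U ^ (2 * p ^ v) * Z).trace) =
      2 * Z.trace + 2 * (p : A) ^ v * (m : A) * N * (∑ i, ∑ j, Z i j - Z.trace) +
        (p : A) ^ (v + 1) * c := by
  obtain ⟨v, rfl⟩ : ∃ w, v = w + 1 := ⟨v - 1, by omega⟩
  set J : Matrix I I A := Matrix.of (fun _ _ => (1 : A)) with hJ
  set E : Matrix I I A := J - 1 with hE
  set D : Matrix I I A := U * dg ι U with hD
  -- (a) powers of `U * U`
  have ha : ∃ B : Matrix I I A, U ^ (2 * p ^ (v + 1)) =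
      1 + ((p ^ (v + 1) : ℕ) : Matrix I I A) * B := by
    obtain ⟨c1, hc1⟩ := add_mul_pow p (γ • B1) B2 p
    -- `(1 + X) ^ p = 1 + p X + X ^ 2 c` is not enough; use the binomial theorem
    set X : Matrix I I A := γ • B1 + ((p : ℕ) : Matrix I I A) * B2 with hX
    have hUX : U * U = 1 + X := by
      rw [h3, hX, natCast_mul_eq_smul, add_assoc]
    have hXp : X ^ p = ((p : ℕ) : Matrix I I A) * (r • B1 ^ p + c1) := by
      rw [hX, hc1, smul_pow, hγ, mul_add, natCast_mul_eq_smul p (r • B1 ^ p), smul_smul]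
    obtain ⟨c2, hc2⟩ : ∃ c2 : Matrix I I A, (1 + X) ^ p = 1 + ((p : ℕ) : Matrix I I A) * c2 := by
      have hcomm : Commute X (1 : Matrix I I A) := Commute.one_right X
      have hsum := hcomm.add_pow p
      rw [add_comm 1 X, hsum, Finset.sum_range_succ, Finset.range_eq_Ico,
        Finset.sum_eq_sum_Ico_succ_bot hp.pos]
      have hmid : ∀ k ∈ Finset.Ico (0 + 1) p,
          X ^ k * 1 ^ (p - k) * ((p.choose k : ℕ) : Matrix I I A) =
            ((p : ℕ) : Matrix I I A) * (((p.choose k / p : ℕ) : Matrix I I A) * X ^ k) := by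
        intro k hk
        rw [Finset.mem_Ico] at hk
        obtain ⟨t, ht⟩ := hp.dvd_choose_self (k := k) (by omega) hk.2
        rw [ht, Nat.mul_div_cancel_left _ hp.pos, one_pow, mul_one, ← mul_assoc, ← Nat.cast_mul,
          (Nat.cast_commute (p * t) (X ^ k)).eq]
      rw [Finset.sum_congr rfl hmid, ← Finset.mul_sum]
      refine ⟨(∑ i ∈ Finset.Ico (0 + 1) p, ((p.choose i / p : ℕ) : Matrix I I A) * X ^ i) +
        (r • B1 ^ p + c1), ?_⟩
      rw [pow_zero, one_pow, Nat.choose_zero_right, Nat.sub_self, pow_zero, Nat.choose_self, hXp]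
      push_cast
      noncomm_ring
    obtain ⟨B, hB⟩ := one_add_p_pow p c2 v
    refine ⟨B, ?_⟩
    rw [pow_mul, sq, hUX, pow_succ' p v, pow_mul, hc2, hB, pow_succ' p v]
  obtain ⟨B, hB⟩ := ha
  -- (b) powers of `D`
  set F : Matrix I I A := ((p : ℕ) : Matrix I I A) + N • E with hF
  have hJJ : J * J = ((s + 1 : ℕ) : Matrix I I A) * J := by
    ext i j
    rw [natCast_mul_eq_smul]
    simp [hJ, Matrix.mul_apply, hI]
  have hEE : E * E = ((p * m : ℕ) : Matrix I I A) * J + 1 := by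
    rw [hE]
    have : (J - 1) * (J - 1) = J * J - J - J + 1 := by noncomm_ring
    rw [this, hJJ, hs]
    push_cast
    noncomm_ring
  have hNE : (N • E) * (N • E) = ((p : ℕ) : Matrix I I A) * (N • (E * E)) := by
    rw [smul_mul_smul_comm, hN, natCast_mul_eq_smul, smul_smul]
  have hF2 : F ^ 2 = ((p : ℕ) : Matrix I I A) *
      (((p : ℕ) : Matrix I I A) + 2 * (N • E) + N • (E * E)) := by
    have e1 : (N • E) * ((p : ℕ) : Matrix I I A) = ((p : ℕ) : Matrix I I A) * (N • E) :=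
      ((Nat.cast_commute p (N • E)).eq).symm
    have e2 : ((p : ℕ) : Matrix I I A) * (((p : ℕ) : Matrix I I A) + 2 * (N • E) + N • (E * E)) =
        ((p : ℕ) : Matrix I I A) * ((p : ℕ) : Matrix I I A) +
          ((p : ℕ) : Matrix I I A) * (N • E) + ((p : ℕ) : Matrix I I A) * (N • E) +
            ((p : ℕ) : Matrix I I A) * (N • (E * E)) := by
      generalize N • E = M
      generalize N • (E * E) = M2
      noncomm_ring
    rw [e2, ← hNE, hF]
    nth_rewrite 2 [← e1]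
    generalize N • E = M
    noncomm_ring
  have hF3 : ∃ G3 : Matrix I I A, F ^ 3 = ((p ^ 2 : ℕ) : Matrix I I A) * G3 := by
    refine ⟨((p : ℕ) : Matrix I I A) + 2 * (N • E) + N • (E * E) + N • E +
      2 * (N • (E * E)) + N • (E * E * E), ?_⟩
    have e1 : ((p : ℕ) : Matrix I I A) * (N • E) = (N • E) * ((p : ℕ) : Matrix I I A) :=
      (Nat.cast_commute p (N • E)).eq
    have e3 : ((p : ℕ) : Matrix I I A) * (N • (E * E)) =
        (N • (E * E)) * ((p : ℕ) : Matrix I I A) :=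
      (Nat.cast_commute p (N • (E * E))).eq
    have e4 : (N • (E * E)) * (N • E) = ((p : ℕ) : Matrix I I A) * (N • (E * E * E)) := by
      rw [smul_mul_smul_comm, hN, natCast_mul_eq_smul, smul_smul]
    rw [pow_succ F 2, hF2, Nat.cast_pow, sq, mul_assoc, mul_assoc]
    congr 1
    rw [hF]
    calc (((p : ℕ) : Matrix I I A) + 2 * (N • E) + N • (E * E)) *
          (((p : ℕ) : Matrix I I A) + N • E)
        = ((p : ℕ) : Matrix I I A) * ((p : ℕ) : Matrix I I A) + 2 * ((N • E) *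
            ((p : ℕ) : Matrix I I A)) + (N • (E * E)) * ((p : ℕ) : Matrix I I A) +
            ((p : ℕ) : Matrix I I A) * (N • E) + 2 * ((N • E) * (N • E)) +
            (N • (E * E)) * (N • E) := by
          generalize N • E = M
          generalize N • (E * E) = M2
          noncomm_ring
      _ = ((p : ℕ) : Matrix I I A) * ((p : ℕ) : Matrix I I A) + 2 * (((p : ℕ) : Matrix I I A) *
            (N • E)) + ((p : ℕ) : Matrix I I A) * (N • (E * E)) +
            ((p : ℕ) : Matrix I I A) * (N • E) + 2 * (((p : ℕ) : Matrix I I A) *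
              (N • (E * E))) + ((p : ℕ) : Matrix I I A) * (N • (E * E * E)) := by
          rw [hNE, e4, ← e1, ← e3]
      _ = _ := by
          generalize N • E = M
          generalize N • (E * E) = M2
          generalize N • (E * E * E) = M3
          noncomm_ring
  obtain ⟨G3, hG3⟩ := hF3
  have hDF : D = 1 + ((m : ℕ) : Matrix I I A) * F := by
    have e1 : (s : A) • (1 : Matrix I I A) = ((s : ℕ) : Matrix I I A) := by
      rw [← natCast_mul_eq_smul, mul_one]
    rw [h1, hF, mul_add, natCast_mul_eq_smul m (N • E), smul_smul, ← Nat.cast_mul, e1, hs,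
      Nat.cast_add, Nat.cast_one, mul_comm p m, add_assoc]
  obtain ⟨C, hC⟩ := one_add_F_pow p hp hp2 m F _ G3 hF2 hG3 v
  rw [← hDF] at hC
  -- the power `2 p ^ (v + 1)` of `D`
  set q : Matrix I I A := ((p ^ (v + 1) : ℕ) : Matrix I I A) with hq
  have hqq : ∃ t : Matrix I I A, ∀ x : Matrix I I A,
      q * (q * x) = ((p ^ (v + 2) : ℕ) : Matrix I I A) * (t * x) := by
    refine ⟨((p ^ v : ℕ) : Matrix I I A), fun x => ?_⟩
    rw [hq, ← mul_assoc, ← mul_assoc, ← Nat.cast_mul, ← Nat.cast_mul]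
    congr 2; ring
  obtain ⟨t, ht⟩ := hqq
  set P : Matrix I I A := ((p ^ (v + 2) : ℕ) : Matrix I I A) with hP
  have hqc : ∀ x : Matrix I I A, x * q = q * x := fun x =>
    ((Nat.cast_commute (p ^ (v + 1)) x).eq).symm
  have hPc : ∀ x : Matrix I I A, x * P = P * x := fun x =>
    ((Nat.cast_commute (p ^ (v + 2)) x).eq).symm
  have hqp : ∃ t' : Matrix I I A, P = q * t' ∧ q * ((p : ℕ) : Matrix I I A) = P := by
    refine ⟨((p : ℕ) : Matrix I I A), ?_, ?_⟩ <;>
    · rw [hq, hP, ← Nat.cast_mul]; congr 1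
  obtain ⟨t', ht', hqpP⟩ := hqp
  have hD2 : ∃ C' : Matrix I I A, D ^ (2 * p ^ (v + 1)) =
      1 + 2 * (q * (((m : ℕ) : Matrix I I A) * (N • E))) + P * C' := by
    refine ⟨2 * ((m : ℕ) : Matrix I I A) + 2 * C + t * ((((m : ℕ) : Matrix I I A) * F + t' * C) *
      (((m : ℕ) : Matrix I I A) * F + t' * C)), ?_⟩
    have e1 : D ^ (p ^ (v + 1)) = 1 + q * (((m : ℕ) : Matrix I I A) * F + t' * C) := by
      rw [hC, mul_add q (((m : ℕ) : Matrix I I A) * F) (t' * C), ← mul_assoc q t' C, ← ht',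
        add_assoc]
    have e2 : q * (((m : ℕ) : Matrix I I A) * F + t' * C) =
        q * (((m : ℕ) : Matrix I I A) * (N • E)) + P * ((m : ℕ) : Matrix I I A) + P * C := by
      rw [mul_add q (((m : ℕ) : Matrix I I A) * F) (t' * C), ← mul_assoc q t' C, ← ht', hF,
        mul_add, mul_add, ← (Nat.cast_commute p ((m : ℕ) : Matrix I I A)).eq, ← hqpP,
        ← mul_assoc q ((p : ℕ) : Matrix I I A)]
      abel
    rw [mul_comm 2, pow_mul, e1, sq]
    set y : Matrix I I A := ((m : ℕ) : Matrix I I A) * F + t' * C with hy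
    have e3 : q * y * (q * y) = P * (t * (y * y)) := by
      rw [mul_assoc q y (q * y), ← mul_assoc y q y, hqc y, mul_assoc q y y, ht]
    calc (1 + q * y) * (1 + q * y) = 1 + q * y + q * y + q * y * (q * y) := by noncomm_ring
      _ = _ := by
        rw [e3, e2]
        generalize N • E = M
        noncomm_ring
  obtain ⟨C', hC'⟩ := hD2
  -- (c) `A_v + A_v†`
  have hUU : Commute U (dg ι U) := by
    show U * dg ι U = dg ι U * U
    rw [h2, ← h1]
  have hAA : U ^ (2 * p ^ (v + 1)) * dg ι (U ^ (2 * p ^ (v + 1))) = D ^ (2 * p ^ (v + 1)) := by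
    rw [dg_pow, ← hUU.mul_pow]
  have hdB : dg ι (U ^ (2 * p ^ (v + 1))) = 1 + q * dg ι B := by
    rw [hB, dg_add, dg_one, dg_mul, hq, dg_natCast, ← hq, hqc]
  have hsum : ∃ C2 : Matrix I I A, U ^ (2 * p ^ (v + 1)) + dg ι (U ^ (2 * p ^ (v + 1))) =
      2 + 2 * (q * (((m : ℕ) : Matrix I I A) * (N • E))) + P * C2 := by
    refine ⟨C' - t * (B * dg ι B), ?_⟩
    have e3 : q * B * (q * dg ι B) = P * (t * (B * dg ι B)) := by
      rw [mul_assoc q B, ← mul_assoc B q, hqc B, mul_assoc q B, ht]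
    have e4 : 1 + q * B + q * dg ι B + q * B * (q * dg ι B) =
        1 + 2 * (q * (((m : ℕ) : Matrix I I A) * (N • E))) + P * C' := by
      rw [← hC', ← hAA, hdB, hB]
      noncomm_ring
    rw [hdB, hB, mul_sub, ← e3]
    have e5 : q * B + q * dg ι B = 2 * (q * (((m : ℕ) : Matrix I I A) * (N • E))) + P * C' -
        q * B * (q * dg ι B) := by
      rw [eq_sub_iff_add_eq]
      have : 1 + q * B + q * dg ι B + q * B * (q * dg ι B) - 1 =
          1 + 2 * (q * (((m : ℕ) : Matrix I I A) * (N • E))) + P * C' - 1 := by rw [e4]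
      calc q * B + q * dg ι B + q * B * (q * dg ι B)
          = 1 + q * B + q * dg ι B + q * B * (q * dg ι B) - 1 := by abel
        _ = 1 + 2 * (q * (((m : ℕ) : Matrix I I A) * (N • E))) + P * C' - 1 := this
        _ = _ := by abel
    calc 1 + q * B + (1 + q * dg ι B) = 2 + (q * B + q * dg ι B) := by
          rw [← one_add_one_eq_two]; abel
      _ = _ := by rw [e5]; abel
  obtain ⟨C2, hC2⟩ := hsum
  -- (d) traces
  refine ⟨(C2 * Z).trace, ?_⟩
  have ht1 : ι ((U ^ (2 * p ^ (v + 1)) * Z).trace) =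
      (dg ι (U ^ (2 * p ^ (v + 1))) * Z).trace := by
    rw [← trace_dg, dg_mul, hZ, Matrix.trace_mul_comm]
  rw [ht1, ← Matrix.trace_add, ← add_mul, hC2, add_mul, add_mul, Matrix.trace_add,
    Matrix.trace_add]
  have k1 : ((2 : Matrix I I A) * Z).trace = 2 * Z.trace := by
    have := natCast_mul_eq_smul 2 Z
    rw [Nat.cast_ofNat] at this
    rw [this, Matrix.trace_smul, smul_eq_mul]
    push_cast; rfl
  have k2 : (P * C2 * Z).trace = (p : A) ^ (v + 1 + 1) * (C2 * Z).trace := by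
    rw [hP, mul_assoc, natCast_mul_eq_smul, Matrix.trace_smul, smul_eq_mul]
    push_cast; ring
  have k3 : (E * Z).trace = ∑ i, ∑ j, Z i j - Z.trace := by
    rw [hE, sub_mul, Matrix.trace_sub, one_mul]
    congr 1
    rw [Matrix.trace]
    simp only [Matrix.diag_apply, Matrix.mul_apply, hJ, Matrix.of_apply, one_mul]
    rw [Finset.sum_comm]
  have k4 : (2 * (q * (((m : ℕ) : Matrix I I A) * (N • E))) * Z).trace =
      2 * (p : A) ^ (v + 1) * (m : A) * N * (∑ i, ∑ j, Z i j - Z.trace) := by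
    have := natCast_mul_eq_smul 2 ((q * (((m : ℕ) : Matrix I I A) * (N • E))) * Z)
    rw [Nat.cast_ofNat] at this
    rw [mul_assoc, this, Matrix.trace_smul, mul_assoc, hq, natCast_mul_eq_smul,
      Matrix.trace_smul, mul_assoc, natCast_mul_eq_smul, Matrix.trace_smul, smul_mul_assoc,
      Matrix.trace_smul, k3]
    simp only [smul_eq_mul]
    push_cast; ring
  rw [k1, k2, k4]

end Pool.Agent.AllCyc
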