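import Pool.Agent.CycSyl.Final

/-! Choice of the two auxiliary primes. -/

set_option autoImplicit false

namespace Pool.Agent.AllCyc

open Pool.Agent.CycSyl NumberTheorySymbols

/-- primes in a progression modulo `M` for which finitely many negative integers are
nonresidues -/
theorem exists_q' {M r : ℕ} (hM : Odd M) (hr : r.Coprime M) (S : Finset ℕ)
    (hS : ∀ d ∈ S, 0 < d ∧ d.Coprime M) (B : ℕ) :
    ∃ q : ℕ, q.Prime ∧ B < q ∧ q ≡ r [MOD M] ∧ ∀ d ∈ S, J(-(d : ℤ) | q) = -1 ∧ ¬ q ∣ d := by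
  obtain ⟨D, hD⟩ : ∃ D, D = ∏ d ∈ S, d := ⟨_, rfl⟩
  have hM0 : M ≠ 0 := by
    rintro rfl
    exact absurd hM (by decide)
  have hD0 : 0 < D := by rw [hD]; exact Finset.prod_pos (fun d hd => (hS d hd).1)
  have hDM : D.Coprime M := by
    rw [hD]
    exact Nat.Coprime.prod_left (fun d hd => (hS d hd).2)
  have hcop : Nat.Coprime M (4 * D) := by
    apply Nat.Coprime.mul_right
    · have h2 : Nat.Coprime M 2 := by rw [Nat.coprime_two_right]; exact hM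
      have := Nat.Coprime.pow_right 2 h2
      simpa using this
    · exact hDM.symm
  obtain ⟨k, hk1, hk2⟩ := Nat.chineseRemainder hcop r (4 * D - 1)
  have hk : Nat.Coprime k (M * (4 * D)) := by
    apply Nat.Coprime.mul_right
    · have := hk1.gcd_eq
      rw [Nat.Coprime, this]
      exact hr
    · have h1 := hk2.gcd_eq
      have h2 : Nat.gcd (4 * D - 1) (4 * D) = 1 := by
        have : 4 * D = (4 * D - 1) + 1 := by omega
        conv_lhs => rw [this]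
        simp
      rw [Nat.Coprime, h1, h2]
  obtain ⟨q, hqB, hq, hqm⟩ := Nat.forall_exists_prime_gt_and_modEq (max B D)
    (q := M * (4 * D)) (mul_ne_zero hM0 (by omega)) hk
  have hBq : B < q := lt_of_le_of_lt (le_max_left _ _) hqB
  have hDq : D < q := lt_of_le_of_lt (le_max_right _ _) hqB
  refine ⟨q, hq, hBq, ?_, ?_⟩
  · exact (hqm.of_mul_right (4 * D)).trans hk1
  · intro d hd
    obtain ⟨hd0, _⟩ := hS d hd
    have hdD : d ∣ D := by rw [hD]; exact Finset.dvd_prod_of_mem _ hd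
    have h1 : q ≡ 4 * D - 1 [MOD 4 * D] := (hqm.of_mul_left M).trans hk2
    have h2 : q ≡ 4 * D - 1 [MOD 4 * d] := h1.of_dvd (Nat.mul_dvd_mul_left 4 hdD)
    obtain ⟨e, he⟩ := hdD
    have he0 : 0 < e := by
      rcases Nat.eq_zero_or_pos e with h | h
      · rw [h, mul_zero] at he; omega
      · exact h
    have h3 : 4 * D - 1 = (4 * d - 1) + 4 * d * (e - 1) := by
      obtain ⟨f, rfl⟩ : ∃ f, e = f + 1 := ⟨e - 1, by omega⟩
      rw [he]
      simp only [Nat.add_sub_cancel]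
      have : 4 * (d * (f + 1)) = 4 * d + 4 * d * f := by ring
      rw [this]
      omega
    have h4 : q % (4 * d) = 4 * d - 1 := by
      have h5 : q % (4 * d) = (4 * D - 1) % (4 * d) := h2
      rw [h5, h3, Nat.add_mul_mod_self_left]
      exact Nat.mod_eq_of_lt (by omega)
    refine ⟨jacobi_neg hd0 h4, ?_⟩
    intro h
    have h5 := Nat.le_of_dvd hd0 h
    have h6 : d ≤ D := Nat.le_of_dvd hD0 (by rw [he]; exact dvd_mul_right _ _)
    omega

/-- a nonresidue different from `-1` -/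
theorem exists_nonres {p : ℕ} (hp : p.Prime) (hp5 : 5 ≤ p) :
    ∃ r : ℕ, r.Coprime p ∧ ¬ p ∣ r + 1 ∧ ¬ IsSquare ((r : ℕ) : ZMod p) := by
  have : Fact p.Prime := ⟨hp⟩
  by_cases h : IsSquare (-1 : ZMod p)
  · obtain ⟨a, ha⟩ := FiniteField.exists_nonsquare (F := ZMod p) (by
      rw [ZMod.ringChar_zmod_n]; omega)
    have hval : ((a.val : ℕ) : ZMod p) = a := ZMod.natCast_zmod_val a
    refine ⟨a.val, ?_, ?_, ?_⟩
    · rw [Nat.coprime_comm, Nat.Prime.coprime_iff_not_dvd hp, ← ZMod.natCast_eq_zero_iff, hval]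
      rintro rfl
      exact ha (IsSquare.zero)
    · rw [← ZMod.natCast_eq_zero_iff]
      push_cast
      rw [hval]
      intro h1
      have : a = -1 := by linear_combination h1
      rw [this] at ha
      exact ha h
    · rw [hval]; exact ha
  · have h4 : ((p - 4 : ℕ) : ZMod p) = -4 := by
      rw [Nat.cast_sub (by omega)]
      simp
    refine ⟨p - 4, ?_, ?_, ?_⟩
    · rw [Nat.coprime_comm, Nat.Prime.coprime_iff_not_dvd hp]
      intro h1
      have := Nat.le_of_dvd (by omega) h1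
      omega
    · intro h1
      have := Nat.le_of_dvd (by omega) h1
      omega
    · rw [h4]
      rintro ⟨b, hb⟩
      apply h
      have h2 : (2 : ZMod p) ≠ 0 := by
        intro h2
        have : ((2 : ℕ) : ZMod p) = 0 := by exact_mod_cast h2
        rw [ZMod.natCast_eq_zero_iff] at this
        have := Nat.le_of_dvd (by norm_num) this
        omega
      refine ⟨b / 2, ?_⟩
      have h22 : (2 : ZMod p) * 2 ≠ 0 := mul_ne_zero h2 h2
      rw [div_mul_div_comm, ← hb, eq_div_iff h22]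
      norm_num

/-- the prime `q` -/
theorem exists_q_aux {p : ℕ} (hp : p.Prime) (hp5 : 5 ≤ p) (H : Type) [CommGroup H]
    (hfin : (fam p H).Finite) (B : ℕ) : ∃ q : ℕ, q.Prime ∧ B < q ∧ ¬ p ∣ q + 1 ∧
    ¬ IsSquare ((q : ℕ) : ZMod p) ∧
    ∀ K ∈ fam p H, ∀ d' : ℕ, 0 < d' → ¬ p ∣ d' → (∃ z ∈ K, z * z = -((d' : ℤ) : ℂ)) →
      ∃ d : ℕ, 0 < d ∧ J(-(d : ℤ) | q) = -1 ∧ ¬ q ∣ d ∧ ∃ z ∈ K, z * z = -((d : ℤ) : ℂ) := by
  classical
  obtain ⟨G, hG⟩ : ∃ G : IntermediateField ℚ ℂ → ℕ, ∀ K, (0 < G K ∧ ¬ p ∣ G K) ∧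
      ((∃ d' : ℕ, 0 < d' ∧ ¬ p ∣ d' ∧ ∃ z ∈ K, z * z = -((d' : ℤ) : ℂ)) →
        ∃ z ∈ K, z * z = -((G K : ℤ) : ℂ)) := by
    have : ∀ K : IntermediateField ℚ ℂ, ∃ d : ℕ, (0 < d ∧ ¬ p ∣ d) ∧
      ((∃ d' : ℕ, 0 < d' ∧ ¬ p ∣ d' ∧ ∃ z ∈ K, z * z = -((d' : ℤ) : ℂ)) →
        ∃ z ∈ K, z * z = -((d : ℤ) : ℂ)) := by
      intro K
      by_cases h : ∃ d' : ℕ, 0 < d' ∧ ¬ p ∣ d' ∧ ∃ z ∈ K, z * z = -((d' : ℤ) : ℂ)
      · obtain ⟨d', h1, h2, h3⟩ := h
        exact ⟨d', ⟨h1, h2⟩, fun _ => h3⟩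
      · refine ⟨1, ⟨one_pos, ?_⟩, fun h' => absurd h' h⟩
        intro h1
        exact hp.one_lt.ne' (Nat.dvd_one.1 h1)
    choose G hG using this
    exact ⟨G, hG⟩
  have hodd : Odd p := hp.odd_of_ne_two (by omega)
  obtain ⟨r, hr1, hr2, hr3⟩ := exists_nonres hp hp5
  obtain ⟨q, hq, hB, hq1, hqS⟩ := exists_q' (M := p) hodd hr1 (hfin.toFinset.image G) (by
    intro d hd
    obtain ⟨K, _, rfl⟩ := Finset.mem_image.1 hd
    refine ⟨(hG K).1.1, ?_⟩
    rw [Nat.coprime_comm, Nat.Prime.coprime_iff_not_dvd hp]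
    exact (hG K).1.2) B
  have hqr : ((q : ℕ) : ZMod p) = ((r : ℕ) : ZMod p) := (ZMod.natCast_eq_natCast_iff _ _ _).2 hq1
  refine ⟨q, hq, hB, ?_, ?_, ?_⟩
  · rw [← ZMod.natCast_eq_zero_iff] at hr2 ⊢
    push_cast at hr2 ⊢
    rw [hqr]; exact hr2
  · rw [hqr]; exact hr3
  · intro K hK d' h1 h2 h3
    have h4 := hqS (G K) (Finset.mem_image_of_mem _ (hfin.mem_toFinset.2 hK))
    exact ⟨G K, (hG K).1.1, h4.1, h4.2, (hG K).2 ⟨d', h1, h2, h3⟩⟩

/-- the prime `s` -/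
theorem exists_s_aux {p : ℕ} (hp : p.Prime) (hp2 : p ≠ 2) (B C : ℕ) :
    ∃ s m : ℕ, s.Prime ∧ B < s ∧ s = 1 + p * m ∧ ¬ p ∣ m ∧
      ∀ D : ℕ, 0 < D → D ≤ C → ¬ p ∣ D → J(-(D : ℤ) | s) = -1 := by
  classical
  have hodd : Odd (p ^ 2) := (hp.odd_of_ne_two hp2).pow
  have hr : Nat.Coprime (1 + p) (p ^ 2) := by
    apply Nat.Coprime.pow_right
    simp
  obtain ⟨s, hs, hBs, hsr, hS⟩ := exists_q' (M := p ^ 2) hodd hr
    ((Finset.range (C + 1)).filter (fun D => 0 < D ∧ ¬ p ∣ D)) (by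
      intro d hd
      obtain ⟨_, hd1, hd2⟩ := Finset.mem_filter.1 hd
      refine ⟨hd1, ?_⟩
      apply Nat.Coprime.pow_right
      rw [Nat.coprime_comm, Nat.Prime.coprime_iff_not_dvd hp]
      exact hd2) (max B (1 + p))
  have h1 : B < s := lt_of_le_of_lt (le_max_left _ _) hBs
  have h2 : 1 + p < s := lt_of_le_of_lt (le_max_right _ _) hBs
  have h3 : p ^ 2 ∣ s - (1 + p) := (Nat.modEq_iff_dvd' h2.le).1 hsr.symm
  obtain ⟨e, he⟩ := h3
  refine ⟨s, 1 + p * e, hs, h1, ?_, ?_, ?_⟩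
  · have : s = 1 + p + p ^ 2 * e := by omega
    rw [this]; ring
  · intro h
    have h4 : p ∣ 1 := (Nat.dvd_add_left (dvd_mul_right p e)).1 h
    exact hp.one_lt.ne' (Nat.dvd_one.1 h4)
  · intro D hD0 hDC hpD
    exact (hS D (Finset.mem_filter.2 ⟨Finset.mem_range.2 (by omega), hD0, hpD⟩)).1

/-- the norm is a nonresidue -/
theorem disc_nd {p s q : ℕ} (hp : p.Prime) (hp2 : p ≠ 2) (hs : s % p = 1)
    (hq : ¬ IsSquare ((q : ℕ) : ZMod p)) (a b : ℕ) (t : ℤ) :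
    ¬ (p : ℤ) ∣ t ^ 2 - 4 * ((q : ℤ) ^ (2 * b + 1) * (s : ℤ) ^ a) := by
  have : Fact p.Prime := ⟨hp⟩
  intro h
  rw [← ZMod.intCast_zmod_eq_zero_iff_dvd] at h
  push_cast at h
  have hs1 : ((s : ℕ) : ZMod p) = 1 := by
    have : ((s % p : ℕ) : ZMod p) = 1 := by rw [hs]; norm_num
    rwa [ZMod.natCast_mod] at this
  rw [hs1, one_pow, mul_one] at h
  have hq0 : ((q : ℕ) : ZMod p) ≠ 0 := by
    intro h0
    rw [h0] at hq
    exact hq IsSquare.zero
  have h2 : (2 : ZMod p) ≠ 0 := by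
    intro h2
    have : ((2 : ℕ) : ZMod p) = 0 := by exact_mod_cast h2
    rw [ZMod.natCast_eq_zero_iff] at this
    exact hp2 ((Nat.prime_dvd_prime_iff_eq hp Nat.prime_two).1 this)
  apply hq
  refine ⟨(t : ZMod p) / (2 * (q : ZMod p) ^ b), ?_⟩
  have h3 : (2 * (q : ZMod p) ^ b) * (2 * (q : ZMod p) ^ b) ≠ 0 :=
    mul_ne_zero (mul_ne_zero h2 (pow_ne_zero _ hq0)) (mul_ne_zero h2 (pow_ne_zero _ hq0))
  rw [div_mul_div_comm, eq_div_iff h3]
  linear_combination -h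
end Pool.Agent.AllCyc
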