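import Pool.Agent.AllCyc.Zop
import Pool.Agent.AllCyc.KernB
import Pool.Agent.AllCyc.KernA1
import Pool.Agent.AllCyc.KernA2
import Pool.Agent.AllCyc.Lin
import Pool.Agent.AllCyc.Fld
import Pool.Agent.AllCyc.Prm

/-! Assembly. -/

set_option autoImplicit false

namespace Pool.Agent.AllCyc

open Pool.Agent.CycSyl Pool.Agent.CycSyl.Hz NumberField NumberTheorySymbols

/-- the coefficient congruence -/
theorem coef_cong {p : ℕ} (hp : p.Prime) (hp2 : p ≠ 2) (v : ℕ) {s m : ℕ} (hs : s.Prime)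
    (hs22 : s.Coprime 22) (hsm : s = 1 + p * m) [Fact s.Prime] (L : LG s p) (hLm : L.m = m)
    (Φ : Hz ℤ →+* Matrix (Fin 2) (Fin 2) (ZMod s))
    (hdet : ∀ x, (Φ x).det = ((nrm x : ℤ) : ZMod s))
    (htr : ∀ x, (Φ x).trace = ((tr x : ℤ) : ZMod s))
    (hzero : ∀ x, Φ x = 0 ↔ sc (s : ℤ) ∣ x) (hsurj : Function.Surjective Φ)
    (hconj : ∀ x, Φ (conj x) = (Φ x).adjugate)
    {q : ℕ} (hq : q.Prime) (hq22 : q.Coprime 22) (hsq : s ≠ q) {j : ℕ}
    (hj : p ^ (v + 1) = 2 * j + 3)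
    (hJ : ∀ D : ℕ, 0 < D → D ≤ 4 * q ^ (2 * j + 3) → ¬ p ∣ D → J(-(D : ℤ) | s) = -1)
    (hnd : ∀ (b : ℕ) (t : ℤ), ¬ (p : ℤ) ∣ t ^ 2 - 4 * (q : ℤ) ^ (2 * b + 1)) (c : ZMod p) :
    ∃ e : ℤ, cf c (((wr L Φ).S s ^ (2 * p ^ (v + 1)) * Zq L Φ q j).trace) +
      cf (-c) (((wr L Φ).S s ^ (2 * p ^ (v + 1)) * Zq L Φ q j).trace) =
      2 * (p : ℤ) ^ (v + 1) * m * (((s : ℤ) + 1) * (1 + (q : ℤ) ^ (2 * j + 3))) +
        (p : ℤ) ^ (v + 2) * e := by
  have : NeZero p := ⟨hp.ne_zero⟩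
  have hs2 : s ≠ 2 := by rintro rfl; revert hs22; decide
  have hkd := kd_X hs hs22 Φ hdet hzero hsurj hconj
  have h1 := kd_U_dgU L hkd
  have h2 := kd_dgU_U L hkd
  obtain ⟨B1, B2, h3⟩ := kd_U_U L hkd m hsm
  obtain ⟨r, hr⟩ := gs_sub_one_pow hp hp2
  have hpj : p ∣ 2 * j + 3 := by rw [← hj]; exact dvd_pow_self p (by omega)
  have hcard : Fintype.card (PL s) = s + 1 := by simp [ZMod.card]
  rw [hLm] at h1 h2
  obtain ⟨c0, hc0⟩ := lin_main hp hp2 hsm hcard (ig p) ig_ig (NN p) NN_sq ig_NN _ r hr _ h1 h2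
    B1 B2 h3 (v + 1) (by omega) (Zq L Φ q j)
    (Zq_dg L Φ hp hdet hconj hq hq22 hsq hpj)
  rw [Zq_trace L Φ hp hdet htr hs2 hq hJ hnd] at hc0
  have hN : NN p * (∑ P, ∑ Q, Zq L Φ q j P Q) =
      (((((s : ℤ) + 1) * (1 + (q : ℤ) ^ (2 * j + 3)) : ℤ)) : GA p) * NN p := by
    rw [NN_mul, Zq_sum L Φ hdet hq hq22 hsq j]
  refine ⟨cf c c0, ?_⟩
  have h5 := congrArg (cf c) hc0
  rw [map_add, cf_ig] at h5
  have hS : (∑ x ∈ X s, rho L (Φ x)) = (wr L Φ).S s := rfl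
  rw [hS] at h5
  rw [h5]
  have h6 : (2 * (0 : GA p) + 2 * (p : GA p) ^ (v + 1) * (m : GA p) * NN p *
      ((∑ P, ∑ Q, Zq L Φ q j P Q) - 0) + (p : GA p) ^ (v + 1 + 1) * c0) =
      ((2 * (p : ℤ) ^ (v + 1) * m * (((s : ℤ) + 1) * (1 + (q : ℤ) ^ (2 * j + 3))) : ℤ) : GA p) *
        NN p + (((p : ℤ) ^ (v + 2) : ℤ) : GA p) * c0 := by
    push_cast
    push_cast at hN
    linear_combination (2 * (p : GA p) ^ (v + 1) * (m : GA p)) * hN
  rw [h6, map_add, cf_int_mul, cf_int_mul, cf_NN, mul_one]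

theorem main {p : ℕ} (hp : p.Prime) (hp5 : 5 ≤ p) (v : ℕ) (H : Type) [CommGroup H] [Finite H]
    (hcyc : IsCyclic H) (hH : Nat.card H = p ^ (v + 1)) : (fam p H).Infinite := by
  classical
  intro hfin
  have hp2 : p ≠ 2 := by omega
  have : NeZero p := ⟨hp.ne_zero⟩
  obtain ⟨q, hq, hqB, hqp1, hqns, hqf⟩ := exists_q_aux hp hp5 H hfin 22
  have hodd : Odd p := hp.odd_of_ne_two hp2
  obtain ⟨j, hj⟩ : ∃ j, p ^ (v + 1) = 2 * j + 3 := by
    obtain ⟨j, hj⟩ := hodd.pow (n := v + 1)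
    have h1 : p ^ 1 ≤ p ^ (v + 1) := Nat.pow_le_pow_right (by omega) (by omega)
    rw [pow_one] at h1
    exact ⟨j - 1, by omega⟩
  obtain ⟨s, m, hs, hsB, hsm, hpm, hJ⟩ := exists_s_aux hp hp2 (max 22 q) (4 * q ^ (2 * j + 3))
  have hs22 : 22 < s := lt_of_le_of_lt (le_max_left _ _) hsB
  have hsq' : q < s := lt_of_le_of_lt (le_max_right _ _) hsB
  have hsq : s ≠ q := by omega
  have : Fact s.Prime := ⟨hs⟩
  have hs22' := coprime22_of_gt hs hs22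
  have hq22 := coprime22_of_gt hq hqB
  have hs2 : s ≠ 2 := by omega
  obtain ⟨L, hLm⟩ := exists_LG hs hp hp2 hsm
  obtain ⟨Φ, hdet, htr, hzero, hsurj, hconj⟩ := exists_Phi hs hs2
  have hsp1 : s % p = 1 := by
    rw [hsm, Nat.add_mul_mod_self_left]; exact Nat.mod_eq_of_lt hp.one_lt
  have hnd0 := disc_nd hp hp2 hsp1 hqns
  have hnd : ∀ (b : ℕ) (t : ℤ), ¬ (p : ℤ) ∣ t ^ 2 - 4 * (q : ℤ) ^ (2 * b + 1) := by
    intro b t
    have := hnd0 0 b t
    simpa using this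
  have hcong := coef_cong hp hp2 v hs hs22' hsm L hLm Φ hdet htr hzero hsurj hconj hq hq22 hsq hj
    hJ hnd
  -- the trace as a count
  have hqs : ¬ q ∣ s := by
    intro h; exact hsq ((Nat.prime_dvd_prime_iff_eq hq hs).1 h).symm
  have hsq0 : ¬ s ∣ q := by
    intro h; exact hsq ((Nat.prime_dvd_prime_iff_eq hs hq).1 h)
  obtain ⟨k, hk⟩ : ∃ k, k = 2 * p ^ (v + 1) := ⟨_, rfl⟩
  have hk1 : 1 ≤ k := by
    rw [hk]
    have := pow_pos hp.pos (v + 1)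
    omega
  have hpj : p ∣ 2 * j + 3 := by rw [← hj]; exact dvd_pow_self p (by omega)
  have hA : (wr L Φ).S s ^ k * Zq L Φ q j = (wr L Φ).S (q ^ (2 * j + 3) * s ^ k) -
      ((q : GA p) * gs (L.lg (q : ZMod s))) • (wr L Φ).S (q ^ (2 * j + 1) * s ^ k) := by
    have h0 : (wr L Φ).g (sc (s : ℤ)) = 0 := by
      show rho L (Φ (sc (s : ℤ))) = 0
      rw [(hzero _).2 dvd_rfl, rho_zero]
    rw [← S_pow (wr L Φ) hs hs22' h0 k, Zq, mul_sub, Matrix.mul_smul,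
      S_mul_pow (wr L Φ) hq hq22 (hs22'.pow_left k) (fun h => hqs (hq.dvd_of_dvd_pow h)),
      S_mul_pow (wr L Φ) hq hq22 (hs22'.pow_left k) (fun h => hqs (hq.dvd_of_dvd_pow h))]
  have hcount : ∀ c : ZMod p, cf c (((wr L Φ).S s ^ k * Zq L Φ q j).trace) =
      (((X (q ^ (2 * j + 3) * s ^ k)).filter
        (fun x => Pd L k (2 * c) x ∧ ¬ (q : ℤ) ∣ tr x)).card : ℤ) +
      (((X (q * s ^ k)).filter (fun x => Pd L k (2 * c) x ∧ (q : ℤ) ∣ tr x)).card : ℤ) := by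
    intro c
    have h := count_main L hp hp2 hs22' Φ hdet htr hq hq22 hsq hk1 hpj c
    rw [hA, Matrix.trace_sub, Matrix.trace_smul, map_sub, smul_eq_mul, mul_assoc, ← h]
    congr 1
    have := cf_int_mul c (q : ℤ) (gs (L.lg (q : ZMod s)) *
      ((wr L Φ).S (q ^ (2 * j + 1) * s ^ k)).trace)
    rw [← this]
    push_cast
    rfl
  -- divisibility
  have hqp : Prime (q : ℤ) := Nat.prime_iff_prime_int.1 hq
  have hsp : Prime (s : ℤ) := Nat.prime_iff_prime_int.1 hs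
  have hsqi : ¬ (s : ℤ) ∣ (q : ℤ) := by exact_mod_cast hsq0
  have hqsi : ¬ (q : ℤ) ∣ (s : ℤ) := by exact_mod_cast hqs
  have hq2 : q ≠ 2 := by omega
  have hcops : ∀ t : ℤ, ¬ (s : ℤ) ∣ t → IsCoprime t (s : ℤ) := fun t h =>
    ((hsp.coprime_iff_not_dvd).2 h).symm
  have hcopq : ∀ t : ℤ, ¬ (q : ℤ) ∣ t → IsCoprime t (q : ℤ) := fun t h =>
    ((hqp.coprime_iff_not_dvd).2 h).symm
  -- the condition as a condition on the trace
  have hq0s : ((q : ZMod s)) ≠ 0 := by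
    rw [Ne, ZMod.natCast_eq_zero_iff]; exact hsq0
  have hlg1 : L.lg (1 : ZMod s) = 0 := by
    have := L.mul 1 1 one_ne_zero one_ne_zero
    rw [mul_one] at this
    simpa using this
  have hlgq : ∀ b : ℕ, L.lg ((q : ZMod s) ^ b) = b * L.lg (q : ZMod s) := by
    intro b
    induction b with
    | zero => rw [pow_zero, hlg1]; simp
    | succ b ih =>
      rw [pow_succ, L.mul _ _ (pow_ne_zero b hq0s) hq0s, ih]; push_cast; ring
  have hPd : ∀ (b : ℕ) (d : ZMod p), ∀ x ∈ X (q ^ b * s ^ k), (Pd L k d x ↔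
      (¬ (s : ℤ) ∣ tr x ∧ 2 * L.lg ((tr x : ℤ) : ZMod s) = d + b * L.lg (q : ZMod s))) := by
    intro b d x hx
    have hn := (mem_X.1 hx).2
    have hsk : (s : ℤ) ^ k ≠ 0 := pow_ne_zero _ (by exact_mod_cast hs.ne_zero)
    constructor
    · rintro ⟨h1, n, h2, _, h3⟩
      refine ⟨h1, ?_⟩
      have h4 : n = (q : ℤ) ^ b := by
        apply mul_left_cancel₀ hsk
        rw [← h2, hn]; push_cast; ring
      rw [h3, h4]
      push_cast
      rw [hlgq]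
    · rintro ⟨h1, h2⟩
      refine ⟨h1, (q : ℤ) ^ b, ?_, ?_, ?_⟩
      · rw [hn]; push_cast; ring
      · intro h; exact hsqi (hsp.dvd_of_dvd_pow h)
      · rw [h2]; push_cast; rw [hlgq]
  have hlt : ∀ b : ℕ, ∀ x ∈ X (q ^ b * s ^ k), ¬ (s : ℤ) ∣ tr x →
      (tr x) ^ 2 < 4 * ((q ^ b * s ^ k : ℕ) : ℤ) := by
    intro b x hx hst
    have hn := (mem_X.1 hx).2
    rw [← hn]
    apply disc_lt' hs _ hst
    rw [hn]
    push_cast
    exact (dvd_pow_self (s : ℤ) (by omega)).mul_left _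
  have hN22 : ∀ b : ℕ, (q ^ b * s ^ k).Coprime 22 := fun b =>
    cop_mul (hq22.pow_left b) (hs22'.pow_left k)
  have hPk : k = 2 * (2 * j + 3) := by rw [hk, hj]
  have hcast : ((2 * j + 3 : ℕ) : ZMod p) = 0 := by
    rw [ZMod.natCast_eq_zero_iff]; exact hpj
  have hdivG : ∀ d : ZMod p, d ≠ 0 → ((p ^ (v + 2) : ℕ) : ℤ) ∣
      (((X (q ^ (2 * j + 3) * s ^ k)).filter
        (fun x => Pd L k d x ∧ ¬ (q : ℤ) ∣ tr x)).card : ℤ) := by
    intro d hd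
    obtain ⟨Q, hQ⟩ : ∃ Q : ℤ → Prop, ∀ t, Q t ↔ (¬ (s : ℤ) ∣ t ∧
          2 * L.lg ((t : ℤ) : ZMod s) = d + (2 * j + 3 : ℕ) * L.lg (q : ZMod s)) ∧
            ¬ (q : ℤ) ∣ t := ⟨_, fun _ => Iff.rfl⟩
    have e1 : (X (q ^ (2 * j + 3) * s ^ k)).filter (fun x => Pd L k d x ∧ ¬ (q : ℤ) ∣ tr x) =
        (X (q ^ (2 * j + 3) * s ^ k)).filter (fun x => Q (tr x)) := by
      apply Finset.filter_congr
      intro x hx
      rw [hPd _ _ x hx, hQ]
    rw [e1]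
    refine count_div' _ (hN22 _) Q ?_ ?_
    · intro x hx hQx
      exact hlt _ x hx ((hQ _).1 hQx).1.1
    · intro x hx hQx
      obtain ⟨⟨h1, h2⟩, h3⟩ := (hQ _).1 hQx
      apply class_div' hp hp5 v H hcyc hH hq hq2 hqf L hx (ρ := 1) (g := (q : ℤ) * (s : ℤ) ^ 2)
        (t1 := tr x) (k := j + 1) (N' := (s : ℤ) ^ k)
      · rw [hj, hPk]; push_cast; ring
      · ring
      · exact (hcopq _ h3).mul_right (hcops _ h1).pow_right
      · exact (dvd_pow_self (s : ℤ) (by norm_num)).mul_left _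
      · intro h
        exact hsp.not_isUnit (isUnit_of_dvd_one h)
      · exact h1
      · rw [h2, hcast, zero_mul, add_zero, Int.cast_one, hlg1]
        exact hd
      · have := hnd0 k (j + 1) (tr x)
        push_cast
        exact this
      · push_cast; ring
      · intro h; exact hqsi (hqp.dvd_of_dvd_pow h)
  have hdivR : ∀ d : ZMod p, d ≠ 0 → ((p ^ (v + 2) : ℕ) : ℤ) ∣
      (((X (q * s ^ k)).filter (fun x => Pd L k d x ∧ (q : ℤ) ∣ tr x)).card : ℤ) := by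
    intro d hd
    have hq1 : q ^ 1 = q := pow_one q
    have hPd1 := hPd 1 d
    have hlt1 := hlt 1
    have hN221 := hN22 1
    rw [hq1] at hPd1 hlt1 hN221
    obtain ⟨Q, hQ⟩ : ∃ Q : ℤ → Prop, ∀ t, Q t ↔ (¬ (s : ℤ) ∣ t ∧
          2 * L.lg ((t : ℤ) : ZMod s) = d + (1 : ℕ) * L.lg (q : ZMod s)) ∧
            (q : ℤ) ∣ t := ⟨_, fun _ => Iff.rfl⟩
    have e1 : (X (q * s ^ k)).filter (fun x => Pd L k d x ∧ (q : ℤ) ∣ tr x) =
        (X (q * s ^ k)).filter (fun x => Q (tr x)) := by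
      apply Finset.filter_congr
      intro x hx
      rw [hPd1 x hx, hQ]
    rw [e1]
    refine count_div' _ hN221 Q ?_ ?_
    · intro x hx hQx
      exact hlt1 x hx ((hQ _).1 hQx).1.1
    · intro x hx hQx
      obtain ⟨⟨h1, h2⟩, t1, h3⟩ := (hQ _).1 hQx
      apply class_div' hp hp5 v H hcyc hH hq hq2 hqf L hx (ρ := (q : ℤ)) (g := (s : ℤ) ^ 2)
        (t1 := t1) (k := 0) (N' := (s : ℤ) ^ k)
      · rw [hj, hPk]; push_cast; ring
      · exact h3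
      · exact (hcops _ h1).pow_right
      · exact dvd_pow_self (s : ℤ) (by norm_num)
      · exact hsqi
      · exact h1
      · rw [h2, Nat.cast_one, one_mul, Int.cast_natCast]
        intro h
        apply hd
        linear_combination h
      · have := hnd0 k 0 (tr x)
        push_cast
        simpa using this
      · push_cast; ring
      · intro h; exact hqsi (hqp.dvd_of_dvd_pow h)
  have h2ne : (2 : ZMod p) ≠ 0 := by
    intro h
    have h1 : ((2 : ℕ) : ZMod p) = 0 := by exact_mod_cast h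
    rw [ZMod.natCast_eq_zero_iff] at h1
    exact hp2 ((Nat.prime_dvd_prime_iff_eq hp Nat.prime_two).1 h1)
  have : Fact p.Prime := ⟨hp⟩
  have hdiv : ∀ c : ZMod p, c ≠ 0 → ((p ^ (v + 2) : ℕ) : ℤ) ∣
      cf c (((wr L Φ).S s ^ k * Zq L Φ q j).trace) := by
    intro c hc
    rw [hcount]
    exact dvd_add (hdivG _ (mul_ne_zero h2ne hc)) (hdivR _ (mul_ne_zero h2ne hc))
  obtain ⟨e, he⟩ := hcong 1
  rw [← hk] at he
  have h1 := dvd_add (hdiv 1 one_ne_zero) (hdiv (-1) (neg_ne_zero.2 one_ne_zero))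
  rw [he] at h1
  push_cast at h1
  have h2 : (p : ℤ) ^ (v + 2) ∣
      2 * (p : ℤ) ^ (v + 1) * m * (((s : ℤ) + 1) * (1 + (q : ℤ) ^ (2 * j + 3))) := by
    have := dvd_sub h1 (dvd_mul_right ((p : ℤ) ^ (v + 2)) e)
    simpa using this
  have h3 : (p : ℤ) ∣ 2 * m * (((s : ℤ) + 1) * (1 + (q : ℤ) ^ (2 * j + 3))) := by
    have hp0 : (p : ℤ) ^ (v + 1) ≠ 0 := pow_ne_zero _ (by exact_mod_cast hp.ne_zero)
    have h4 : (p : ℤ) ^ (v + 1) * p ∣ (p : ℤ) ^ (v + 1) *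
        (2 * m * (((s : ℤ) + 1) * (1 + (q : ℤ) ^ (2 * j + 3)))) := by
      rw [← pow_succ]
      have e1 : (p : ℤ) ^ (v + 1) * (2 * m * (((s : ℤ) + 1) * (1 + (q : ℤ) ^ (2 * j + 3)))) =
        2 * (p : ℤ) ^ (v + 1) * m * (((s : ℤ) + 1) * (1 + (q : ℤ) ^ (2 * j + 3))) := by ring
      rw [e1]; exact h2
    exact (mul_dvd_mul_iff_left hp0).1 h4
  have hpp : Prime (p : ℤ) := Nat.prime_iff_prime_int.1 hp
  have hp2i : ¬ (p : ℤ) ∣ 2 := by
    intro h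
    have : p ∣ 2 := by exact_mod_cast h
    exact hp2 ((Nat.prime_dvd_prime_iff_eq hp Nat.prime_two).1 this)
  rcases hpp.dvd_or_dvd h3 with h4 | h4
  · rcases hpp.dvd_or_dvd h4 with h5 | h5
    · exact hp2i h5
    · exact hpm (by exact_mod_cast h5)
  · rcases hpp.dvd_or_dvd h4 with h5 | h5
    · apply hp2i
      have : (p : ℤ) ∣ (s : ℤ) - 1 := ⟨m, by rw [hsm]; push_cast; ring⟩
      have := dvd_sub h5 this
      have e : (s : ℤ) + 1 - (s - 1) = 2 := by ring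
      rwa [e] at this
    · -- `q ^ P = q` mod `p`
      have h6 : ((q : ZMod p)) ^ (2 * j + 3) = q := by
        rw [← hj]
        exact ZMod.pow_card_pow _
      have h7 : ((1 + (q : ℤ) ^ (2 * j + 3) : ℤ) : ZMod p) = 0 := by
        rw [ZMod.intCast_zmod_eq_zero_iff_dvd]; exact h5
      push_cast at h7
      rw [h6] at h7
      apply hqp1
      rw [← ZMod.natCast_eq_zero_iff]
      push_cast
      rw [← h7]; ring

end Pool.Agent.AllCyc
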