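import Pool.Agent.AllCyc.Defs

/-! Facts on the group ring. -/

set_option autoImplicit false

namespace Pool.Agent.AllCyc

open Pool.Agent.CycSyl

variable {p : ℕ}

theorem gs_zero : gs (0 : ZMod p) = 1 := by
  rw [gs, AddMonoidAlgebra.one_def]

theorem gs_add (a b : ZMod p) : gs (a + b) = gs a * gs b := by
  rw [gs, gs, gs, AddMonoidAlgebra.single_mul_single, mul_one]

/-- every element is an integral combination of group elements -/
theorem ga_single (c : ZMod p) (n : ℤ) :
    (AddMonoidAlgebra.single c n : GA p) = ((n : ℤ) : GA p) * gs c := by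
  rw [← zsmul_eq_mul, gs, AddMonoidAlgebra.smul_single, smul_eq_mul, mul_one]

theorem ga_induction {P : GA p → Prop} (a : GA p) (h0 : P 0)
    (hadd : ∀ x y, P x → P y → P (x + y))
    (hg : ∀ (n : ℤ) (c : ZMod p), P (((n : ℤ) : GA p) * gs c)) : P a := by
  induction a using AddMonoidAlgebra.induction_linear with
  | zero => exact h0
  | add x y hx hy => exact hadd x y hx hy
  | single c n => rw [ga_single]; exact hg n c

theorem ig_gs (c : ZMod p) : ig p (gs c) = gs (-c) := by
  rw [ig, gs, gs]
  simp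

theorem ig_ig (a : GA p) : ig p (ig p a) = a := by
  induction a using ga_induction with
  | h0 => simp
  | hadd x y hx hy => rw [map_add, map_add, hx, hy]
  | hg n c => rw [map_mul, map_mul, ig_gs, ig_gs, map_intCast, map_intCast, neg_neg]

theorem au_gs (c : ZMod p) : au p (gs c) = 1 := by
  rw [au, gs]
  simp

theorem gs_mul_NN [NeZero p] (c : ZMod p) : gs c * NN p = NN p := by
  rw [NN, Finset.mul_sum]
  simp_rw [← gs_add]
  exact Fintype.sum_equiv (Equiv.addLeft c) _ _ (fun x => rfl)

theorem NN_mul [NeZero p] (a : GA p) : NN p * a = ((au p a : ℤ) : GA p) * NN p := by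
  induction a using ga_induction with
  | h0 => simp
  | hadd x y hx hy =>
    rw [mul_add, hx, hy, map_add]
    push_cast
    ring
  | hg n c =>
    rw [map_mul, au_gs, map_intCast, mul_one, mul_comm (NN p), mul_assoc, gs_mul_NN]
    simp

theorem au_NN [NeZero p] : au p (NN p) = p := by
  rw [NN, map_sum]
  simp [au_gs]

theorem NN_sq [NeZero p] : NN p * NN p = (p : GA p) * NN p := by
  rw [NN_mul, au_NN]
  simp

theorem ig_NN [NeZero p] : ig p (NN p) = NN p := by
  rw [NN, map_sum]
  simp_rw [ig_gs]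
  exact Fintype.sum_equiv (Equiv.neg _) _ _ (fun x => rfl)

theorem cf_gs (c c' : ZMod p) : cf c (gs c') = if c' = c then 1 else 0 := by
  show (AddMonoidAlgebra.single c' (1 : ℤ)).coeff c = _
  rw [AddMonoidAlgebra.coeff_single]
  split_ifs with h
  · rw [h]; exact Finsupp.single_eq_same
  · exact Finsupp.single_eq_of_ne (Ne.symm h)

theorem cf_NN [NeZero p] (c : ZMod p) : cf c (NN p) = 1 := by
  rw [NN, map_sum]
  simp_rw [cf_gs]
  simp

theorem cf_ig (c : ZMod p) (a : GA p) : cf c (ig p a) = cf (-c) a := by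
  induction a using ga_induction with
  | h0 => simp
  | hadd x y hx hy =>
    rw [map_add, map_add, map_add, hx, hy]
  | hg n d =>
    rw [map_mul, ig_gs, map_intCast, cf_int_mul, cf_int_mul, cf_gs, cf_gs]
    congr 1
    by_cases h : -d = c
    · rw [if_pos h, if_pos (by rw [← h, neg_neg])]
    · rw [if_neg h, if_neg (fun h' => h (by rw [h', neg_neg]))]

/-- translation of coefficients -/
theorem cf_gs_mul (c d : ZMod p) (a : GA p) : cf c (gs d * a) = cf (c - d) a := by
  induction a using ga_induction with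
  | h0 => simp
  | hadd x y hx hy =>
    rw [mul_add, map_add, map_add, hx, hy]
  | hg n e =>
    rw [← mul_assoc, mul_comm (gs d), mul_assoc, ← gs_add, cf_int_mul, cf_int_mul, cf_gs, cf_gs]
    congr 1
    by_cases h : d + e = c
    · rw [if_pos h, if_pos (by rw [← h, add_sub_cancel_left])]
    · rw [if_neg h, if_neg (fun h' => h (by rw [h', add_sub_cancel]))]

theorem gs_natCast (n : ℕ) : gs ((n : ℕ) : ZMod p) = gs 1 ^ n := by
  induction n with
  | zero => simp [gs_zero]
  | succ n ih => rw [Nat.cast_succ, gs_add, ih, pow_succ]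

/-- the augmentation ideal is generated by `g - 1` -/
theorem exists_of_au_zero [NeZero p] (a : GA p) (h : au p a = 0) :
    ∃ b : GA p, a = (gs 1 - 1) * b := by
  have key : ∀ a : GA p, (gs 1 - 1) ∣ a - ((au p a : ℤ) : GA p) := by
    intro a
    induction a using ga_induction with
    | h0 => simp
    | hadd x y hx hy =>
      have h1 : x + y - ((au p (x + y) : ℤ) : GA p) =
          (x - ((au p x : ℤ) : GA p)) + (y - ((au p y : ℤ) : GA p)) := by
        rw [map_add]; push_cast; ring
      rw [h1]
      exact dvd_add hx hy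
    | hg n c =>
      have h1 : ((n : ℤ) : GA p) * gs c - ((au p (((n : ℤ) : GA p) * gs c) : ℤ) : GA p) =
          ((n : ℤ) : GA p) * (gs 1 ^ c.val - 1) := by
        have hc : gs c = gs 1 ^ c.val := by
          rw [← gs_natCast, ZMod.natCast_zmod_val]
        rw [map_mul, au_gs, map_intCast, hc]
        simp [mul_sub]
      rw [h1]
      exact Dvd.dvd.mul_left (by simpa using sub_dvd_pow_sub_pow (gs (1 : ZMod p)) 1 c.val) _
  obtain ⟨b, hb⟩ := key a
  exact ⟨b, by rw [← hb, h]; simp⟩

theorem gs_sub_one_pow (hp : p.Prime) (hp2 : p ≠ 2) :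
    ∃ r : GA p, (gs (1 : ZMod p) - 1) ^ p = (p : GA p) * r := by
  have : Fact p.Prime := ⟨hp⟩
  have hodd : Odd p := hp.odd_of_ne_two hp2
  obtain ⟨r, hr⟩ := exists_add_pow_prime_eq hp (gs (1 : ZMod p)) (-1 : GA p)
  refine ⟨gs 1 * (-1) * r, ?_⟩
  have h1 : gs (1 : ZMod p) ^ p = 1 := by
    rw [← gs_natCast, ZMod.natCast_self, gs_zero]
  rw [sub_eq_add_neg, hr, h1, hodd.neg_one_pow]
  ring

end Pool.Agent.AllCyc
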