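import Pool.Agent.AllCyc.RepM

/-! Families of singular matrices with one kernel line and one image line each: shared facts. -/

set_option autoImplicit false

namespace Pool.Agent.AllCyc

open Pool.Agent.CycSyl

/-- the combinatorial data: `X` indexes matrices of rank one, whose kernels run once through all
lines, closed under adjugates up to sign -/
structure KD {α : Type*} (s : ℕ) (X : Finset α) (Y : α → Matrix (Fin 2) (Fin 2) (ZMod s))
    (st : α → α) : Prop where
  det : ∀ x ∈ X, (Y x).det = 0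
  ne : ∀ x ∈ X, Y x ≠ 0
  ker : ∀ v : Fin 2 → ZMod s, v ≠ 0 → ∃! x, x ∈ X ∧ (Y x).mulVec v = 0
  mem : ∀ x ∈ X, st x ∈ X
  inv : ∀ x ∈ X, st (st x) = x
  adj : ∀ x ∈ X, Y (st x) = (Y x).adjugate ∨ Y (st x) = -(Y x).adjugate

variable {s : ℕ} [Fact s.Prime]
variable {α : Type*} {X : Finset α} {Y : α → Matrix (Fin 2) (Fin 2) (ZMod s)} {st : α → α}

private theorem prop_of_det {v v' : Fin 2 → ZMod s} (hv : v ≠ 0)
    (h : v 0 * v' 1 = v 1 * v' 0) : ∃ c : ZMod s, v' = c • v := by
  by_cases h0 : v 0 = 0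
  · have h1 : v 1 ≠ 0 := by
      intro h1
      apply hv
      ext i
      fin_cases i
      · exact h0
      · exact h1
    refine ⟨v' 1 / v 1, ?_⟩
    have h2 : v' 0 = 0 := by
      rw [h0, zero_mul] at h
      exact (mul_eq_zero.1 h.symm).resolve_left h1
    ext i
    fin_cases i
    · simp [h0, h2]
    · simp [h1]
  · refine ⟨v' 0 / v 0, ?_⟩
    ext i
    fin_cases i
    · simp [h0]
    · simp only [Fin.mk_one, Fin.isValue, Pi.smul_apply, smul_eq_mul]
      field_simp
      linear_combination h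

private theorem mulVec_zero_coord (M : Matrix (Fin 2) (Fin 2) (ZMod s)) (v : Fin 2 → ZMod s)
    (i : Fin 2) : M.mulVec v i = M i 0 * v 0 + M i 1 * v 1 := by
  simp [Matrix.mulVec, dotProduct, Fin.sum_univ_two]

private theorem exists_mulVec_ne {M : Matrix (Fin 2) (Fin 2) (ZMod s)} (hM : M ≠ 0) :
    ∃ v : Fin 2 → ZMod s, M.mulVec v ≠ 0 := by
  by_contra hcon
  push Not at hcon
  apply hM
  ext i j
  have := congrFun (hcon (Pi.single j 1)) i
  simpa using this

/-- the kernel of a nonzero singular matrix is a line -/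
theorem ker_line {M : Matrix (Fin 2) (Fin 2) (ZMod s)} (hM : M ≠ 0) {v v' : Fin 2 → ZMod s}
    (hv : v ≠ 0) (h : M.mulVec v = 0) (h' : M.mulVec v' = 0) : ∃ c : ZMod s, v' = c • v := by
  apply prop_of_det hv
  by_contra hne
  apply hM
  have hd : v 0 * v' 1 - v 1 * v' 0 ≠ 0 := sub_ne_zero.2 hne
  ext i j
  have e1 := congrFun h i
  have e2 := congrFun h' i
  rw [mulVec_zero_coord] at e1 e2
  simp only [Pi.zero_apply] at e1 e2
  have a0 : M i 0 * (v 0 * v' 1 - v 1 * v' 0) = 0 := by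
    linear_combination v' 1 * e1 - v 1 * e2
  have a1 : M i 1 * (v 0 * v' 1 - v 1 * v' 0) = 0 := by
    linear_combination - v' 0 * e1 + v 0 * e2
  fin_cases j
  · exact (mul_eq_zero.1 a0).resolve_right hd
  · exact (mul_eq_zero.1 a1).resolve_right hd

/-- the image of a nonzero singular matrix is a line -/
theorem im_line {M : Matrix (Fin 2) (Fin 2) (ZMod s)} (hdet : M.det = 0) {v v' : Fin 2 → ZMod s}
    (hv : M.mulVec v ≠ 0) : ∃ c : ZMod s, M.mulVec v' = c • M.mulVec v := by
  apply prop_of_det hv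
  simp only [mulVec_zero_coord]
  rw [Matrix.det_fin_two] at hdet
  linear_combination (v 0 * v' 1 - v 1 * v' 0) * hdet

/-- the image of a nonzero singular matrix is the kernel of its adjugate -/
theorem im_iff {M : Matrix (Fin 2) (Fin 2) (ZMod s)} (hM : M ≠ 0) (hdet : M.det = 0)
    (w : Fin 2 → ZMod s) : (∃ v, M.mulVec v = w) ↔ M.adjugate.mulVec w = 0 := by
  constructor
  · rintro ⟨v, rfl⟩
    rw [Matrix.mulVec_mulVec, Matrix.adjugate_mul, hdet]
    simp
  · intro h
    obtain ⟨v, hv⟩ := exists_mulVec_ne hM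
    have hA : M.adjugate ≠ 0 := by
      intro hA
      apply hM
      have h2 := congrArg Matrix.adjugate hA
      rw [Matrix.adjugate_adjugate _ (by simp)] at h2
      simpa using h2
    have h3 : M.adjugate.mulVec (M.mulVec v) = 0 := by
      rw [Matrix.mulVec_mulVec, Matrix.adjugate_mul, hdet]
      simp
    obtain ⟨c, hc⟩ := ker_line hA hv h3 h
    exact ⟨c • v, by rw [Matrix.mulVec_smul, hc]⟩

private theorem vec_inj {P Q : PL s} {a : ZMod s} (h : vec P = a • vec Q) : P = Q := by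
  have hP : vec P ≠ 0 := vec_ne_zero P
  have ha : a ≠ 0 := by
    rintro rfl
    apply hP
    rw [h, zero_smul]
  obtain ⟨u, _, huniq⟩ := existsUnique_line hP
  have e1 := huniq (P, 1) ⟨one_ne_zero, by simp⟩
  have e2 := huniq (Q, a) ⟨ha, h⟩
  have := e1.trans e2.symm
  exact congrArg Prod.fst this

/-- every matrix of the family has a kernel line -/
theorem KD.exists_ker (h : KD s X Y st) {x : α} (hx : x ∈ X) :
    ∃! P : PL s, (Y x).mulVec (vec P) = 0 := by
  obtain ⟨v, hv, hv0⟩ := Matrix.exists_mulVec_eq_zero_iff.2 (h.det x hx)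
  obtain ⟨⟨P, c⟩, ⟨hc, hvP⟩, -⟩ := existsUnique_line hv
  have hP0 : (Y x).mulVec (vec P) = 0 := by
    rw [hvP] at hv0
    simp only [Matrix.mulVec_smul] at hv0
    exact (smul_eq_zero.1 hv0).resolve_left hc
  refine ⟨P, hP0, ?_⟩
  intro P' hP'
  obtain ⟨c', hc'⟩ := ker_line (h.ne x hx) (vec_ne_zero P) hP0 hP'
  exact vec_inj hc'

/-- every matrix of the family has an image line -/
theorem KD.exists_im (h : KD s X Y st) {x : α} (hx : x ∈ X) :
    ∃! Q : PL s, ∀ P : PL s, ∃ c : ZMod s, (Y x).mulVec (vec P) = c • vec Q := by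
  obtain ⟨v, hv⟩ := exists_mulVec_ne (h.ne x hx)
  have hv1 : v ≠ 0 := by
    rintro rfl
    apply hv
    simp
  obtain ⟨⟨P0, c0⟩, ⟨hc0, hvP⟩, -⟩ := existsUnique_line hv1
  have hP0 : (Y x).mulVec (vec P0) ≠ 0 := by
    intro h0
    apply hv
    rw [hvP, Matrix.mulVec_smul]
    simp [h0]
  obtain ⟨⟨Q, c⟩, ⟨hc, hQ⟩, -⟩ := existsUnique_line hP0
  refine ⟨Q, ?_, ?_⟩
  · intro P
    obtain ⟨c', hc'⟩ := im_line (v' := vec P) (h.det x hx) hP0
    refine ⟨c' * c, ?_⟩
    rw [hc', hQ, smul_smul]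
  · intro Q' hQ'
    obtain ⟨c', hc'⟩ := hQ' P0
    rw [hQ] at hc'
    symm
    apply vec_inj (a := c⁻¹ * c')
    have h3 := congrArg (fun u => c⁻¹ • u) hc'
    simp only [smul_smul] at h3
    rw [inv_mul_cancel₀ hc, one_smul] at h3
    exact h3

/-- the image of `x` is the kernel of `st x` -/
theorem KD.im_st (h : KD s X Y st) {x : α} (hx : x ∈ X) (w : Fin 2 → ZMod s) :
    (∃ v, (Y x).mulVec v = w) ↔ (Y (st x)).mulVec w = 0 := by
  rw [im_iff (h.ne x hx) (h.det x hx)]
  rcases h.adj x hx with h1 | h1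
  · rw [h1]
  · rw [h1, Matrix.neg_mulVec, neg_eq_zero]

/-- every line is the image of exactly one matrix of the family -/
theorem KD.im (h : KD s X Y st) (w : Fin 2 → ZMod s) (hw : w ≠ 0) :
    ∃! x, x ∈ X ∧ ∃ v, (Y x).mulVec v = w := by
  obtain ⟨y, ⟨hy, hyw⟩, huniq⟩ := h.ker w hw
  refine ⟨st y, ⟨h.mem y hy, ?_⟩, ?_⟩
  · rw [h.im_st (h.mem y hy), h.inv y hy]
    exact hyw
  · rintro x ⟨hx, hxw⟩
    rw [h.im_st hx] at hxw
    have := huniq (st x) ⟨h.mem x hx, hxw⟩
    rw [← this, h.inv x hx]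

/-- the number of matrices -/
theorem KD.card (h : KD s X Y st) : X.card = s + 1 := by
  classical
  have h1 : X.card = (Finset.univ : Finset (PL s)).card := by
    apply Finset.card_bij (fun x hx => (h.exists_ker hx).choose)
    · intro a ha
      exact Finset.mem_univ _
    · intro a ha b hb hab
      have ea := (h.exists_ker ha).choose_spec.1
      have eb := (h.exists_ker hb).choose_spec.1
      rw [← hab] at eb
      exact (h.ker _ (vec_ne_zero _)).unique ⟨ha, ea⟩ ⟨hb, eb⟩
    · intro P _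
      obtain ⟨x, ⟨hx, hx0⟩, -⟩ := h.ker (vec P) (vec_ne_zero P)
      exact ⟨x, hx, ((h.exists_ker hx).choose_spec.2 P hx0).symm⟩
  rw [h1, Finset.card_univ, Fintype.card_option, ZMod.card]

end Pool.Agent.AllCyc
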