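import Pool.Agent.AllCyc.GR

/-! The representation of the 2x2 matrices on labelled functions on the projective line. -/

set_option autoImplicit false

namespace Pool.Agent.AllCyc

open Pool.Agent.CycSyl

variable {s p : ℕ} [Fact s.Prime] (L : LG s p)

theorem vec_ne_zero (P : PL s) : vec P ≠ 0 := by
  rcases P with _ | a
  · intro h
    have := congrFun h 1
    simp [vec] at this
  · intro h
    have := congrFun h 0
    simp [vec] at this

/-- uniqueness of the representative -/
private theorem line_unique {P Q : PL s} {c d : ZMod s} (hc : c ≠ 0) (hd : d ≠ 0)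
    (h : c • vec P = d • vec Q) : P = Q ∧ c = d := by
  have h0 := congrFun h 0
  have h1 := congrFun h 1
  rcases P with _ | a <;> rcases Q with _ | b
  · simp [vec] at h0 h1
    exact ⟨rfl, h1⟩
  · simp [vec] at h0 h1
    exact absurd h0.symm hd
  · simp [vec] at h0 h1
    exact absurd h0 hc
  · have e0 : c = d := by simpa [vec] using h0
    have e1 : c * a = d * b := by simpa [vec] using h1
    refine ⟨?_, e0⟩
    rw [← e0] at e1
    rw [mul_left_cancel₀ hc e1]

private theorem line_exists {v : Fin 2 → ZMod s} (hv : v ≠ 0) :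
    ∃ (P : PL s) (c : ZMod s), c ≠ 0 ∧ v = c • vec P := by
  by_cases h0 : v 0 = 0
  · refine ⟨none, v 1, ?_, ?_⟩
    · intro h1
      apply hv
      funext i
      fin_cases i
      · exact h0
      · exact h1
    · funext i
      fin_cases i
      · simp [vec, h0]
      · simp [vec]
  · refine ⟨some (v 1 / v 0), v 0, h0, ?_⟩
    funext i
    fin_cases i
    · simp [vec]
    · simp [vec, mul_div_cancel₀, h0]

/-- every nonzero vector is a unique nonzero multiple of a unique representative -/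
theorem existsUnique_line {v : Fin 2 → ZMod s} (hv : v ≠ 0) :
    ∃! Qc : PL s × ZMod s, Qc.2 ≠ 0 ∧ v = Qc.2 • vec Qc.1 := by
  obtain ⟨P, c, hc, h⟩ := line_exists hv
  refine ⟨(P, c), ⟨hc, h⟩, ?_⟩
  rintro ⟨Q, d⟩ ⟨hd, h'⟩
  have := line_unique hd hc (h'.symm.trans h)
  rw [Prod.mk.injEq]
  exact this

theorem rho_eq {Y : Matrix (Fin 2) (Fin 2) (ZMod s)} {P Q : PL s} {c : ZMod s} (hc : c ≠ 0)
    (h : Y.mulVec (vec P) = c • vec Q) (Q' : PL s) :
    rho L Y Q' P = if Q' = Q then gs (L.lg c) else 0 := by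
  classical
  simp only [rho, Matrix.of_apply]
  split_ifs with hQ
  · subst hQ
    have : (Finset.univ : Finset (ZMod s)).filter
        (fun d => d ≠ 0 ∧ Y.mulVec (vec P) = d • vec Q') = {c} := by
      ext d
      simp only [Finset.mem_filter, Finset.mem_univ, true_and, Finset.mem_singleton]
      constructor
      · rintro ⟨hd, h'⟩
        exact (line_unique hd hc (h'.symm.trans h)).2
      · rintro rfl
        exact ⟨hc, h⟩
    convert Finset.sum_singleton (fun d => gs (L.lg d)) c
  · apply Finset.sum_eq_zero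
    intro d hd
    simp only [Finset.mem_filter, Finset.mem_univ, true_and] at hd
    exact absurd (line_unique hd.1 hc (hd.2.symm.trans h)).1 hQ

theorem rho_eq_zero {Y : Matrix (Fin 2) (Fin 2) (ZMod s)} {P : PL s}
    (h : Y.mulVec (vec P) = 0) (Q : PL s) : rho L Y Q P = 0 := by
  classical
  simp only [rho, Matrix.of_apply]
  apply Finset.sum_eq_zero
  intro d hd
  simp only [Finset.mem_filter, Finset.mem_univ, true_and] at hd
  have := hd.2
  rw [h] at this
  exact absurd (smul_eq_zero.mp this.symm) (by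
    rintro (h1 | h1)
    · exact hd.1 h1
    · exact vec_ne_zero Q h1)

private theorem lg_one : L.lg 1 = 0 := by
  have := L.mul 1 1 one_ne_zero one_ne_zero
  rw [one_mul] at this
  exact left_eq_add.mp this

theorem rho_one : rho L (1 : Matrix (Fin 2) (Fin 2) (ZMod s)) = 1 := by
  ext1 Q P
  have h : (1 : Matrix (Fin 2) (Fin 2) (ZMod s)).mulVec (vec P) = (1 : ZMod s) • vec P := by
    rw [Matrix.one_mulVec, one_smul]
  rw [rho_eq L one_ne_zero h, lg_one, gs_zero, Matrix.one_apply]

theorem rho_zero : rho L (0 : Matrix (Fin 2) (Fin 2) (ZMod s)) = 0 := by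
  ext1 Q P
  rw [rho_eq_zero L (Matrix.zero_mulVec _)]
  rfl

theorem rho_mul (Y Z : Matrix (Fin 2) (Fin 2) (ZMod s)) :
    rho L (Y * Z) = rho L Y * rho L Z := by
  ext1 R P
  rw [Matrix.mul_apply]
  by_cases hZ : Z.mulVec (vec P) = 0
  · rw [rho_eq_zero L (by rw [← Matrix.mulVec_mulVec, hZ, Matrix.mulVec_zero])]
    symm
    apply Finset.sum_eq_zero
    intro Q _
    rw [rho_eq_zero L hZ, mul_zero]
  · obtain ⟨Q, c, hc, h⟩ := line_exists hZ
    have h1 : ∑ j, rho L Y R j * rho L Z j P = rho L Y R Q * gs (L.lg c) := by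
      rw [Finset.sum_eq_single Q]
      · rw [rho_eq L hc h, if_pos rfl]
      · intro j _ hj
        rw [rho_eq L hc h, if_neg hj, mul_zero]
      · intro h'
        exact absurd (Finset.mem_univ _) h'
    rw [h1]
    by_cases hY : Y.mulVec (vec Q) = 0
    · rw [rho_eq_zero L hY, zero_mul, rho_eq_zero L]
      rw [← Matrix.mulVec_mulVec, h, Matrix.mulVec_smul, hY, smul_zero]
    · obtain ⟨R', d, hd, h'⟩ := line_exists hY
      have h2 : (Y * Z).mulVec (vec P) = (d * c) • vec R' := by
        rw [← Matrix.mulVec_mulVec, h, Matrix.mulVec_smul, h', smul_smul, mul_comm]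
      rw [rho_eq L (mul_ne_zero hd hc) h2, rho_eq L hd h']
      split_ifs
      · rw [L.mul _ _ hd hc, gs_add]
      · rw [zero_mul]

theorem rho_smul {c : ZMod s} (hc : c ≠ 0) (Y : Matrix (Fin 2) (Fin 2) (ZMod s)) :
    rho L (c • Y) = gs (L.lg c) • rho L Y := by
  ext1 Q P
  rw [Matrix.smul_apply, smul_eq_mul]
  by_cases hY : Y.mulVec (vec P) = 0
  · rw [rho_eq_zero L hY, rho_eq_zero L (by rw [Matrix.smul_mulVec, hY, smul_zero]), mul_zero]
  · obtain ⟨R, d, hd, h⟩ := line_exists hY
    have h2 : (c • Y).mulVec (vec P) = (c * d) • vec R := by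
      rw [Matrix.smul_mulVec, h, smul_smul]
    rw [rho_eq L (mul_ne_zero hc hd) h2, rho_eq L hd h]
    split_ifs
    · rw [L.mul _ _ hc hd, gs_add]
    · rw [mul_zero]

theorem rho_neg (Y : Matrix (Fin 2) (Fin 2) (ZMod s)) : rho L (-Y) = rho L Y := by
  have h1 : (-1 : ZMod s) ≠ 0 := neg_ne_zero.mpr one_ne_zero
  have h := rho_smul L h1 Y
  rw [L.neg, lg_one, gs_zero, one_smul] at h
  rw [← h, neg_one_smul]

/-- a nonzero singular matrix kills exactly one line -/
private theorem ker_unique {M : Matrix (Fin 2) (Fin 2) (ZMod s)} (hM : M ≠ 0) {P Q : PL s}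
    (hP : M.mulVec (vec P) = 0) (hQ : M.mulVec (vec Q) = 0) : P = Q := by
  by_contra hne
  apply hM
  have key : ∀ i, M i 0 = 0 ∧ M i 1 = 0 := by
    intro i
    have hPi := congrFun hP i
    have hQi := congrFun hQ i
    simp only [Matrix.mulVec, dotProduct, Fin.sum_univ_two, Pi.zero_apply] at hPi hQi
    rcases P with _ | a <;> rcases Q with _ | b
    · exact absurd rfl hne
    · simp [vec] at hPi hQi
      simp [hPi] at hQi
      exact ⟨hQi, hPi⟩
    · simp [vec] at hPi hQi
      simp [hQi] at hPi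
      exact ⟨hPi, hQi⟩
    · simp [vec] at hPi hQi
      have hab : a - b ≠ 0 := by
        intro h
        apply hne
        rw [sub_eq_zero.mp h]
      have h1 : M i 1 * (a - b) = 0 := by
        linear_combination hPi - hQi
      have h2 : M i 1 = 0 := by
        rcases mul_eq_zero.mp h1 with h | h
        · exact h
        · exact absurd h hab
      rw [h2, zero_mul, add_zero] at hPi
      exact ⟨hPi, h2⟩
  ext i j
  fin_cases j
  · exact (key i).1
  · exact (key i).2

private theorem ker_exists {M : Matrix (Fin 2) (Fin 2) (ZMod s)} (hM : M.det = 0) :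
    ∃ P : PL s, M.mulVec (vec P) = 0 := by
  obtain ⟨v, hv, h⟩ := Matrix.exists_mulVec_eq_zero_iff.mpr hM
  obtain ⟨P, c, hc, h'⟩ := line_exists hv
  refine ⟨P, ?_⟩
  rw [h', Matrix.mulVec_smul] at h
  exact (smul_eq_zero.mp h).resolve_left hc

private theorem det_sub_smul (Y : Matrix (Fin 2) (Fin 2) (ZMod s)) (c : ZMod s) :
    (Y - c • (1 : Matrix (Fin 2) (Fin 2) (ZMod s))).det = c ^ 2 - Y.trace * c + Y.det := by
  rw [Matrix.det_fin_two, Matrix.det_fin_two, Matrix.trace_fin_two]
  simp [Matrix.sub_apply, Matrix.smul_apply]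
  ring

private theorem eig {Y : Matrix (Fin 2) (Fin 2) (ZMod s)} {P : PL s} {c : ZMod s}
    (h : Y.mulVec (vec P) = c • vec P) : c ^ 2 - Y.trace * c + Y.det = 0 := by
  rw [← det_sub_smul]
  apply Matrix.exists_mulVec_eq_zero_iff.mp
  refine ⟨vec P, vec_ne_zero P, ?_⟩
  rw [Matrix.sub_mulVec, h, Matrix.smul_mulVec, Matrix.one_mulVec, sub_self]

/-- trace on a singular matrix -/
theorem rho_trace_sing {Y : Matrix (Fin 2) (Fin 2) (ZMod s)} (h : Y.det = 0) :
    (rho L Y).trace = if Y.trace = 0 then 0 else gs (L.lg Y.trace) := by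
  classical
  rw [Matrix.trace]
  simp only [Matrix.diag_apply]
  have key : ∀ (P : PL s) (c : ZMod s), c ≠ 0 → Y.mulVec (vec P) = c • vec P → c = Y.trace := by
    intro P c hc hP
    have := eig hP
    rw [h, add_zero] at this
    have h2 : c * (c - Y.trace) = 0 := by linear_combination this
    exact sub_eq_zero.mp ((mul_eq_zero.mp h2).resolve_left hc)
  have diag0 : ∀ P : PL s, (¬ ∃ c : ZMod s, c ≠ 0 ∧ Y.mulVec (vec P) = c • vec P) →
      rho L Y P P = 0 := by
    intro P hP
    by_cases hY : Y.mulVec (vec P) = 0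
    · exact rho_eq_zero L hY P
    · obtain ⟨Q, c, hc, hQ⟩ := line_exists hY
      rw [rho_eq L hc hQ, if_neg]
      rintro rfl
      exact hP ⟨c, hc, hQ⟩
  split_ifs with ht
  · apply Finset.sum_eq_zero
    intro P _
    apply diag0
    rintro ⟨c, hc, hP⟩
    exact hc ((key P c hc hP).trans ht)
  · set t := Y.trace with ht'
    have hdet : (Y - t • (1 : Matrix (Fin 2) (Fin 2) (ZMod s))).det = 0 := by
      rw [det_sub_smul, h, ← ht']
      ring
    have hne : Y - t • (1 : Matrix (Fin 2) (Fin 2) (ZMod s)) ≠ 0 := by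
      intro h0
      have h1 : Y = t • (1 : Matrix (Fin 2) (Fin 2) (ZMod s)) := sub_eq_zero.mp h0
      rw [h1, Matrix.det_smul, Matrix.det_one, mul_one] at h
      exact ht (pow_eq_zero_iff (by simp) |>.mp h)
    have heq : ∀ P : PL s, Y.mulVec (vec P) = t • vec P ↔
        (Y - t • (1 : Matrix (Fin 2) (Fin 2) (ZMod s))).mulVec (vec P) = 0 := by
      intro P
      rw [Matrix.sub_mulVec, Matrix.smul_mulVec, Matrix.one_mulVec, sub_eq_zero]
    obtain ⟨P₀, hP₀⟩ := ker_exists hdet
    rw [Finset.sum_eq_single P₀]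
    · rw [rho_eq L ht ((heq P₀).mpr hP₀), if_pos rfl]
    · intro P _ hP
      apply diag0
      rintro ⟨c, hc, hc'⟩
      have := key P c hc hc'
      rw [this] at hc'
      exact hP (ker_unique hne ((heq P).mp hc') hP₀)
    · intro h'
      exact absurd (Finset.mem_univ _) h'

/-- no trace without eigenvectors -/
theorem rho_trace_none {Y : Matrix (Fin 2) (Fin 2) (ZMod s)} (_hs2 : s ≠ 2)
    (h : ¬ IsSquare (Y.trace ^ 2 - 4 * Y.det)) : (rho L Y).trace = 0 := by
  classical
  rw [Matrix.trace]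
  simp only [Matrix.diag_apply]
  apply Finset.sum_eq_zero
  intro P _
  by_cases hY : Y.mulVec (vec P) = 0
  · exact rho_eq_zero L hY P
  · obtain ⟨Q, c, hc, hQ⟩ := line_exists hY
    rw [rho_eq L hc hQ, if_neg]
    rintro rfl
    have := eig hQ
    apply h
    refine ⟨2 * c - Y.trace, ?_⟩
    linear_combination (-4) * this

private theorem mulVec_ne_zero {Y : Matrix (Fin 2) (Fin 2) (ZMod s)} (h : Y.det ≠ 0) (P : PL s) :
    Y.mulVec (vec P) ≠ 0 := by
  intro h0
  exact h (Matrix.exists_mulVec_eq_zero_iff.mp ⟨vec P, vec_ne_zero P, h0⟩)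

/-- the sum of the entries of an invertible matrix -/
theorem rho_sum {Y : Matrix (Fin 2) (Fin 2) (ZMod s)} (h : Y.det ≠ 0) :
    au p (∑ Q, ∑ P, rho L Y Q P) = s + 1 := by
  have hcomm : ∑ Q : PL s, ∑ P : PL s, rho L Y Q P = ∑ P : PL s, ∑ Q : PL s, rho L Y Q P :=
    Finset.sum_comm
  rw [hcomm, map_sum]
  have h1 : ∀ P : PL s, au p (∑ Q, rho L Y Q P) = 1 := by
    intro P
    obtain ⟨Q₀, c, hc, hQ⟩ := line_exists (mulVec_ne_zero h P)
    rw [Finset.sum_eq_single Q₀]
    · rw [rho_eq L hc hQ, if_pos rfl, au_gs]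
    · intro Q _ hQ'
      rw [rho_eq L hc hQ, if_neg hQ']
    · intro h'
      exact absurd (Finset.mem_univ _) h'
  rw [Finset.sum_congr rfl (fun P _ => h1 P)]
  simp [ZMod.card]

/-- the adjoint of an invertible matrix -/
theorem rho_dg {Y : Matrix (Fin 2) (Fin 2) (ZMod s)} (h : Y.det ≠ 0) :
    dg (ig p) (rho L Y) = gs (-(L.lg Y.det)) • rho L Y.adjugate := by
  ext1 Q P
  rw [Matrix.smul_apply, smul_eq_mul, dg, Matrix.transpose_apply, Matrix.map_apply]
  obtain ⟨P₀, c, hc, hP₀⟩ := line_exists (mulVec_ne_zero h Q)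
  rw [rho_eq L hc hP₀]
  have hadj : Y.adjugate.mulVec (vec P₀) = (Y.det / c) • vec Q := by
    have h1 : Y.adjugate.mulVec (Y.mulVec (vec Q)) = Y.det • vec Q := by
      rw [Matrix.mulVec_mulVec, Matrix.adjugate_mul, Matrix.smul_mulVec, Matrix.one_mulVec]
    rw [hP₀, Matrix.mulVec_smul] at h1
    calc Y.adjugate.mulVec (vec P₀) = c⁻¹ • (c • Y.adjugate.mulVec (vec P₀)) := by
          rw [smul_smul, inv_mul_cancel₀ hc, one_smul]
      _ = (Y.det / c) • vec Q := by rw [h1, smul_smul, div_eq_mul_inv, mul_comm]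
  by_cases hP : P = P₀
  · subst hP
    have hdc : Y.det / c ≠ 0 := div_ne_zero h hc
    rw [if_pos rfl, rho_eq L hdc hadj, if_pos rfl, ig_gs, ← gs_add]
    congr 1
    have h2 : L.lg Y.det = L.lg (Y.det / c) + L.lg c := by
      rw [← L.mul _ _ hdc hc, div_mul_cancel₀ _ hc]
    rw [h2]
    ring
  · rw [if_neg hP, map_zero]
    have hdadj : Y.adjugate.det ≠ 0 := by
      rw [Matrix.det_adjugate]
      exact pow_ne_zero _ h
    obtain ⟨Q', d, hd, hQ'⟩ := line_exists (mulVec_ne_zero hdadj P)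
    rw [rho_eq L hd hQ']
    rw [if_neg, mul_zero]
    rintro rfl
    apply hP
    have h1 : Y.mulVec (Y.adjugate.mulVec (vec P)) = Y.det • vec P := by
      rw [Matrix.mulVec_mulVec, Matrix.mul_adjugate, Matrix.smul_mulVec, Matrix.one_mulVec]
    rw [hQ', Matrix.mulVec_smul, hP₀, smul_smul] at h1
    exact (line_unique (mul_ne_zero hd hc) h h1).1.symm

end Pool.Agent.AllCyc
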