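import Pool.Agent.AllCyc.Count
import Pool.Agent.AllCyc.GR

/-! The auxiliary Hecke operator at `q`. -/

set_option autoImplicit false

namespace Pool.Agent.AllCyc

open Pool.Agent.CycSyl Pool.Agent.CycSyl.Hz NumberTheorySymbols

section dgl

variable {A : Type*} [CommRing A] (ι : A →+* A) {I : Type*}

theorem dg_sub (M N : Matrix I I A) : dg ι (M - N) = dg ι M - dg ι N := by
  ext i j; simp [dg]

theorem dg_smul (a : A) (M : Matrix I I A) : dg ι (a • M) = ι a • dg ι M := by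
  ext i j; simp [dg]

theorem dg_sum {J : Type*} (S : Finset J) (f : J → Matrix I I A) :
    dg ι (∑ x ∈ S, f x) = ∑ x ∈ S, dg ι (f x) := by
  ext i j; simp [dg, Matrix.sum_apply]

end dgl

variable {s p : ℕ} [Fact s.Prime] (L : LG s p)
  (Φ : Hz ℤ →+* Matrix (Fin 2) (Fin 2) (ZMod s))

/-- the operator `V_(2j+3)(T_q)` -/
noncomputable def Zq (q j : ℕ) : Matrix (PL s) (PL s) (GA p) :=
  (wr L Φ).S (q ^ (2 * j + 3)) - ((q : GA p) * gs (L.lg (q : ZMod s))) •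
    (wr L Φ).S (q ^ (2 * j + 1))

theorem lg_one_aux : L.lg (1 : ZMod s) = 0 := by
  have := L.mul 1 1 one_ne_zero one_ne_zero
  rw [mul_one] at this
  simpa using this

theorem lg_pow_aux {a : ZMod s} (ha : a ≠ 0) (b : ℕ) : L.lg (a ^ b) = b * L.lg a := by
  induction b with
  | zero => rw [pow_zero, lg_one_aux]; simp
  | succ b ih => rw [pow_succ, L.mul _ _ (pow_ne_zero b ha) ha, ih]; push_cast; ring

theorem q_ne_aux {q : ℕ} (hq : q.Prime) (hsq : s ≠ q) : ((q : ZMod s)) ≠ 0 := by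
  have hs : s.Prime := Fact.out
  rw [Ne, ZMod.natCast_eq_zero_iff]
  intro h
  exact hsq ((Nat.prime_dvd_prime_iff_eq hs hq).1 h)

theorem dg_S (hdet : ∀ x, (Φ x).det = ((nrm x : ℤ) : ZMod s))
    (hconj : ∀ x, Φ (conj x) = (Φ x).adjugate) {q : ℕ} (hq : q.Prime) (hq22 : q.Coprime 22)
    (hsq : s ≠ q) (b : ℕ) : dg (ig p) ((wr L Φ).S (q ^ b)) =
      gs (-((b : ZMod p) * L.lg (q : ZMod s))) • (wr L Φ).S (q ^ b) := by
  have hq0 := q_ne_aux hq hsq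
  rw [NW.S, dg_sum, Finset.smul_sum, ← sum_conj (hq22.pow_left b)
    (fun x => gs (-((b : ZMod p) * L.lg (q : ZMod s))) • (wr L Φ).g x)]
  · apply Finset.sum_congr rfl
    intro x hx
    have hn := (mem_X.1 hx).2
    have hdx : (Φ x).det = (q : ZMod s) ^ b := by
      rw [hdet, hn]; push_cast; rfl
    show dg (ig p) (rho L (Φ x)) = gs (-((b : ZMod p) * L.lg (q : ZMod s))) • rho L (Φ (conj x))
    rw [rho_dg L (by rw [hdx]; exact pow_ne_zero _ hq0), hdx, lg_pow_aux L hq0, hconj]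
  · intro x
    show gs (-((b : ZMod p) * L.lg (q : ZMod s))) • (wr L Φ).g (-x) = _
    rw [(wr L Φ).neg]

theorem Zq_dg (hp : p.Prime) (hdet : ∀ x, (Φ x).det = ((nrm x : ℤ) : ZMod s))
    (hconj : ∀ x, Φ (conj x) = (Φ x).adjugate) {q : ℕ} (hq : q.Prime) (hq22 : q.Coprime 22)
    (hsq : s ≠ q) {j : ℕ} (hj : p ∣ 2 * j + 3) : dg (ig p) (Zq L Φ q j) = Zq L Φ q j := by
  have h0 : ((2 * j + 3 : ℕ) : ZMod p) = 0 := by rw [ZMod.natCast_eq_zero_iff]; exact hj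
  rw [Zq, dg_sub, dg_smul, dg_S L Φ hdet hconj hq hq22 hsq, dg_S L Φ hdet hconj hq hq22 hsq, h0,
    zero_mul, neg_zero, gs_zero, one_smul, smul_smul, map_mul, map_natCast, ig_gs]
  congr 2
  rw [mul_assoc, ← gs_add]
  congr 2
  push_cast at h0 ⊢
  linear_combination (-(L.lg (q : ZMod s))) * h0

theorem trace_zero_aux (hdet : ∀ x, (Φ x).det = ((nrm x : ℤ) : ZMod s))
    (htr : ∀ x, (Φ x).trace = ((tr x : ℤ) : ZMod s)) (hs2 : s ≠ 2) {q C b : ℕ}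
    (hb : 4 * q ^ (2 * b + 1) ≤ C)
    (hJ : ∀ D : ℕ, 0 < D → D ≤ C → ¬ p ∣ D → J(-(D : ℤ) | s) = -1)
    (hnd : ∀ (b : ℕ) (t : ℤ), ¬ (p : ℤ) ∣ t ^ 2 - 4 * (q : ℤ) ^ (2 * b + 1)) :
    ((wr L Φ).S (q ^ (2 * b + 1))).trace = 0 := by
  rw [NW.S, Matrix.trace_sum]
  apply Finset.sum_eq_zero
  intro x hx
  have hn := (mem_X.1 hx).2
  show (rho L (Φ x)).trace = 0
  apply rho_trace_none L hs2
  have h4 := four_nrm x
  have h5 : 4 * nrm x - tr x ^ 2 = (2 * x.b + x.d) ^ 2 + (2 * x.c + x.d) ^ 2 + x.d ^ 2 := by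
    unfold tr; linarith
  have h6 : 0 ≤ 4 * nrm x - tr x ^ 2 := by rw [h5]; positivity
  obtain ⟨D, hD⟩ := Int.eq_ofNat_of_zero_le h6
  have hnd' := hnd b (tr x)
  have hnx : nrm x = (q : ℤ) ^ (2 * b + 1) := by rw [hn]; push_cast; rfl
  have hpD : ¬ p ∣ D := by
    intro h
    apply hnd'
    have h7 : (p : ℤ) ∣ (D : ℤ) := by exact_mod_cast h
    rw [← hD, hnx] at h7
    have h8 : tr x ^ 2 - 4 * (q : ℤ) ^ (2 * b + 1) = -(4 * (q : ℤ) ^ (2 * b + 1) - tr x ^ 2) := by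
      ring
    rw [h8]
    exact h7.neg_right
  have hD0 : 0 < D := by
    rcases Nat.eq_zero_or_pos D with h | h
    · rw [h] at hpD; exact absurd (dvd_zero p) hpD
    · exact h
  have hDC : D ≤ C := by
    have h9 : (D : ℤ) ≤ 4 * (q : ℤ) ^ (2 * b + 1) := by
      rw [← hD, hnx]
      nlinarith [sq_nonneg (tr x)]
    have h10 : D ≤ 4 * q ^ (2 * b + 1) := by exact_mod_cast h9
    exact h10.trans hb
  have hJ' := hJ D hD0 hDC hpD
  have h11 := ZMod.nonsquare_of_jacobiSym_eq_neg_one hJ'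
  rw [htr, hdet]
  have h12 : ((tr x : ℤ) : ZMod s) ^ 2 - 4 * ((nrm x : ℤ) : ZMod s) = ((-(D : ℤ) : ℤ) : ZMod s) := by
    have h13 : (-(D : ℤ)) = tr x ^ 2 - 4 * nrm x := by
      have : (D : ℤ) = 4 * nrm x - tr x ^ 2 := hD.symm
      rw [this]; ring
    rw [h13]; push_cast; ring
  rw [h12]
  exact h11

theorem Zq_trace (hp : p.Prime) (hdet : ∀ x, (Φ x).det = ((nrm x : ℤ) : ZMod s))
    (htr : ∀ x, (Φ x).trace = ((tr x : ℤ) : ZMod s)) (hs2 : s ≠ 2) {q j : ℕ} (hq : q.Prime)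
    (hJ : ∀ D : ℕ, 0 < D → D ≤ 4 * q ^ (2 * j + 3) → ¬ p ∣ D → J(-(D : ℤ) | s) = -1)
    (hnd : ∀ (b : ℕ) (t : ℤ), ¬ (p : ℤ) ∣ t ^ 2 - 4 * (q : ℤ) ^ (2 * b + 1)) :
    (Zq L Φ q j).trace = 0 := by
  rw [Zq, Matrix.trace_sub, Matrix.trace_smul]
  have e : 2 * j + 3 = 2 * (j + 1) + 1 := by ring
  have h1 : ((wr L Φ).S (q ^ (2 * j + 3))).trace = 0 := by
    rw [e]
    exact trace_zero_aux L Φ hdet htr hs2 (b := j + 1) (by rw [← e]) hJ hnd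
  have h2 : ((wr L Φ).S (q ^ (2 * j + 1))).trace = 0 := by
    apply trace_zero_aux L Φ hdet htr hs2 (b := j) _ hJ hnd
    apply Nat.mul_le_mul_left
    exact Nat.pow_le_pow_right hq.pos (by omega)
  rw [h1, h2, smul_zero, sub_zero]

theorem sum_S_aux (hdet : ∀ x, (Φ x).det = ((nrm x : ℤ) : ZMod s)) {q : ℕ} (hq : q.Prime)
    (hsq : s ≠ q) (b : ℕ) :
    au p (∑ P, ∑ Q, (wr L Φ).S (q ^ b) P Q) = ((s : ℤ) + 1) * (X (q ^ b)).card := by
  have hq0 := q_ne_aux (s := s) hq hsq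
  have h1 : ∑ P, ∑ Q, (wr L Φ).S (q ^ b) P Q = ∑ x ∈ X (q ^ b), ∑ P, ∑ Q, rho L (Φ x) P Q := by
    have h3 : ∀ P, ∑ Q, (wr L Φ).S (q ^ b) P Q = ∑ x ∈ X (q ^ b), ∑ Q, rho L (Φ x) P Q := by
      intro P
      simp only [NW.S, Matrix.sum_apply]
      rw [Finset.sum_comm]
      rfl
    rw [Finset.sum_congr rfl (fun P _ => h3 P), Finset.sum_comm]
  rw [h1, map_sum]
  have h2 : ∀ x ∈ X (q ^ b), au p (∑ P, ∑ Q, rho L (Φ x) P Q) = (s : ℤ) + 1 := by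
    intro x hx
    apply rho_sum
    rw [hdet, (mem_X.1 hx).2]
    push_cast
    exact pow_ne_zero _ hq0
  rw [Finset.sum_congr rfl h2, Finset.sum_const, nsmul_eq_mul, mul_comm]

theorem Zq_sum (hdet : ∀ x, (Φ x).det = ((nrm x : ℤ) : ZMod s)) {q : ℕ} (hq : q.Prime)
    (hq22 : q.Coprime 22) (hsq : s ≠ q) (j : ℕ) :
    au p (∑ P, ∑ Q, Zq L Φ q j P Q) = ((s : ℤ) + 1) * (1 + (q : ℤ) ^ (2 * j + 3)) := by
  have h1 : ∑ P, ∑ Q, Zq L Φ q j P Q = (∑ P, ∑ Q, (wr L Φ).S (q ^ (2 * j + 3)) P Q) -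
      ((q : GA p) * gs (L.lg (q : ZMod s))) * ∑ P, ∑ Q, (wr L Φ).S (q ^ (2 * j + 1)) P Q := by
    simp_rw [Zq, Matrix.sub_apply, Matrix.smul_apply, Finset.sum_sub_distrib, smul_eq_mul,
      Finset.mul_sum]
  rw [h1, map_sub, map_mul, map_mul, map_natCast, au_gs, mul_one, sum_S_aux L Φ hdet hq hsq,
    sum_S_aux L Φ hdet hq hsq]
  have h2 := card_X_pow hq hq22 (2 * j + 1)
  have e : 2 * j + 1 + 2 = 2 * j + 3 := by ring
  rw [e] at h2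
  linear_combination ((s : ℤ) + 1) * h2

end Pool.Agent.AllCyc
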